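import Pool.Agent.P.MP_13d552_gt.Lens

set_option autoImplicit false

namespace Pool.Agent.P.MP_13d552_gt
open Finset Matrix Polynomial

/-- An isospectral non-conjugate pair of free groups of order `q` in `O(2n)`. -/
def HasPair (n q : ℕ) : Prop :=
  ∃ Λ₁ Λ₂ : Subgroup (orthogonalGroup (Fin (2 * n)) ℝ),
    (Λ₁ : Set (orthogonalGroup (Fin (2 * n)) ℝ)).Finite ∧
    (Λ₂ : Set (orthogonalGroup (Fin (2 * n)) ℝ)).Finite ∧
    (∀ g ∈ Λ₁, ∀ v : Fin (2 * n) → ℝ,
      (g : Matrix (Fin (2 * n)) (Fin (2 * n)) ℝ).mulVec v = v → g = 1 ∨ v = 0) ∧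
    (∀ g ∈ Λ₂, ∀ v : Fin (2 * n) → ℝ,
      (g : Matrix (Fin (2 * n)) (Fin (2 * n)) ℝ).mulVec v = v → g = 1 ∨ v = 0) ∧
    (∀ k, dk Λ₁ k = dk Λ₂ k) ∧
    (¬ ∃ h : orthogonalGroup (Fin (2 * n)) ℝ, Λ₂ = Λ₁.map (MulAut.conj h).toMonoidHom) ∧
    Nat.card Λ₁ = q

/-- `r` copies of a list. -/
def rep (r : ℕ) (U : List ℕ) : List ℕ := (List.replicate r U).flatten

lemma rep_succ (r : ℕ) (U : List ℕ) : rep (r + 1) U = U ++ rep r U := by
  simp [rep, List.replicate_succ]

lemma bigP_rep (ζ : ℂ) (q l r : ℕ) (U : List ℕ) :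
    bigP ζ l (symL q (rep r U)) = bigP ζ l (symL q U) ^ r := by
  induction r with
  | zero => simp [rep, symL, bigP]
  | succ r ih => rw [rep_succ, bigP_perm _ _ (symL_append _ _ _), bigP_append, ih, pow_succ']

lemma count_rep (q r t : ℕ) (U : List ℕ) (f : ℕ → ℕ) :
    ((symL q (rep r U)).map f).count t = r * ((symL q U).map f).count t := by
  induction r with
  | zero => simp [rep, symL]
  | succ r ih =>
    rw [rep_succ, ((symL_append _ _ _).map f).count_eq, List.map_append, List.count_append, ih]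
    ring

lemma mem_rep {r s : ℕ} {U : List ℕ} (h : s ∈ rep r U) : s ∈ U := by
  simp only [rep, List.mem_flatten, List.mem_replicate] at h
  obtain ⟨_, ⟨-, rfl⟩, h⟩ := h
  exact h

lemma length_rep (r : ℕ) (U : List ℕ) : (rep r U).length = r * U.length := by simp [rep]

section
variable {q : ℕ} {ζ : ℂ} (hq : 0 < q) (hζ : IsPrimitiveRoot ζ q) {n : ℕ} {S : List ℕ}

lemma lens_finite : (Subgroup.zpowers (lensGen hq hζ n S) :
    Set (orthogonalGroup (Fin (2 * n)) ℝ)).Finite :=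
  finite_zpowers.2 (isOfFinOrder_iff_pow_eq_one.2 ⟨q, hq, lensGen_pow_q hq hζ⟩)

lemma lens_mem (hn : S.length = n) (hn0 : 0 < n) (hS : ∀ s ∈ S, Nat.Coprime s q)
    {x : orthogonalGroup (Fin (2 * n)) ℝ} (hx : x ∈ Subgroup.zpowers (lensGen hq hζ n S)) :
    ∃ l < q, x = lensGen hq hζ n S ^ l := by
  classical
  have ho := lensGen_order hq hζ hn hn0 hS
  rw [(orderOf_pos_iff.1 (ho.symm ▸ hq)).mem_zpowers_iff_mem_range_orderOf, Finset.mem_image,
    ho] at hx
  obtain ⟨l, hl, rfl⟩ := hx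
  exact ⟨l, Finset.mem_range.1 hl, rfl⟩

lemma lens_free (hn : S.length = n) (hn0 : 0 < n) (hS : ∀ s ∈ S, Nat.Coprime s q) :
    ∀ g ∈ Subgroup.zpowers (lensGen hq hζ n S), ∀ v : Fin (2 * n) → ℝ,
      (g : Matrix (Fin (2 * n)) (Fin (2 * n)) ℝ).mulVec v = v → g = 1 ∨ v = 0 := by
  intro g hg v hv
  obtain ⟨l, hl, rfl⟩ := lens_mem hq hζ hn hn0 hS hg
  rcases Nat.eq_zero_or_pos l with rfl | hl0
  · exact Or.inl (pow_zero _)
  · right
    by_contra hv0
    refine lensGen_det hq hζ hn hS hl0 hl (Matrix.exists_mulVec_eq_zero_iff.1 ⟨v, hv0, ?_⟩)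
    rw [Matrix.sub_mulVec, hv, Matrix.one_mulVec, sub_self]

lemma lens_pk (hn : S.length = n) (hn0 : 0 < n) (hS : ∀ s ∈ S, Nat.Coprime s q) (k : ℕ) :
    (q : ℂ) * pk (Subgroup.zpowers (lensGen hq hζ n S)) k = PowerSeries.coeff k
      (∑ l ∈ range q, mol ((lensGen hq hζ n S ^ l : orthogonalGroup (Fin (2 * n)) ℝ) :
        Matrix (Fin (2 * n)) (Fin (2 * n)) ℝ)) := by
  have ho := lensGen_order hq hζ hn hn0 hS
  have : Finite (Subgroup.zpowers (lensGen hq hζ n S)) := lens_finite hq hζ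
  have := Fintype.ofFinite (Subgroup.zpowers (lensGen hq hζ n S))
  have h := card_mul_pk (Subgroup.zpowers (lensGen hq hζ n S)) k
  rw [Nat.card_zpowers, sum_zpowers _ (ho.symm ▸ hq)
    (fun x : orthogonalGroup (Fin (2 * n)) ℝ => tk (x : Matrix (Fin (2 * n)) (Fin (2 * n)) ℝ) k),
    ho] at h
  simp only [map_sum, mol, PowerSeries.coeff_mk]
  exact_mod_cast h

lemma lens_mol {S0 A U : List ℕ} {M0 r : ℕ} (hn : (S0 ++ rep r U).length = n)
    (hS : ∀ s ∈ S0 ++ rep r U, s ≤ q) (hp : (S0 ++ A).Perm (rep M0 U)) (l : ℕ)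
    (hl : ((symL q U).map fun v => l * v % q).Perm
      ((symL q U).map fun v => Nat.gcd l q * v % q)) :
    mol ((lensGen hq hζ n (S0 ++ rep r U) ^ l : orthogonalGroup (Fin (2 * n)) ℝ) :
        Matrix (Fin (2 * n)) (Fin (2 * n)) ℝ) = (bigP ζ l (symL q A) : PowerSeries ℂ) *
        ((bigP ζ (Nat.gcd l q) (symL q U) ^ (M0 + r) : ℂ[X]) : PowerSeries ℂ)⁻¹ := by
  have h1 := mol_mul_charpolyRev ((lensGen hq hζ n (S0 ++ rep r U) ^ l :
    orthogonalGroup (Fin (2 * n)) ℝ) : Matrix (Fin (2 * n)) (Fin (2 * n)) ℝ) hq.ne' (by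
      rw [← SubmonoidClass.coe_pow, ← pow_mul, mul_comm l q, pow_mul, lensGen_pow_q, one_pow]; rfl)
  rw [lensGen_charpolyRev hq hζ hn hS] at h1
  have h2 : bigP ζ (Nat.gcd l q) (symL q U) = bigP ζ l (symL q U) := by
    rw [bigP_mod hζ.1, bigP_mod hζ.1 l, bigP_perm _ _ hl]
  have h3 : bigP ζ l (symL q U) ^ (M0 + r)
      = bigP ζ l (symL q (S0 ++ rep r U)) * bigP ζ l (symL q A) := by
    rw [pow_add, ← bigP_rep, ← bigP_rep, ← bigP_perm _ _ (symL_perm q hp),
      bigP_perm _ _ (symL_append _ _ _), bigP_perm _ _ (symL_append _ _ _), bigP_append,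
      bigP_append]
    ring
  rw [PowerSeries.eq_mul_inv_iff_mul_eq, h2, h3, Polynomial.coe_mul, ← mul_assoc, h1, one_mul]
  rw [Polynomial.constantCoeff_coe, Polynomial.coeff_zero_eq_eval_zero, Polynomial.eval_pow,
    ← Polynomial.coeff_zero_eq_eval_zero, bigP_coeff_zero, one_pow]
  exact one_ne_zero

end

/-- The decidable certificate for a family of isospectral lens spaces. -/
def check (q M0 : ℕ) (U S0 S0' A A' : List ℕ) : Bool :=
  decide (0 < q) && (S0 ++ A).isPerm (rep M0 U) && (S0' ++ A').isPerm (rep M0 U) &&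
  (A'.length == A.length) && (S0'.length == S0.length) &&
  U.all (fun u => Nat.gcd u q == 1 && decide (u ≤ q)) &&
  (List.range q).all (fun l => ((symL q U).map fun v => l * v % q).isPerm
    ((symL q U).map fun v => Nat.gcd l q * v % q)) &&
  (List.range (q + 1)).all (fun e => q % e != 0 ||
    (List.range ((symL q A).length + 1)).all (fun x =>
      (dp (q / e) x (symL q A)).getD 0 0 == (dp (q / e) x (symL q A')).getD 0 0)) &&
  (List.range q).all (fun l => (List.range q).any (fun t =>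
    decide (((symL q S0).map fun v => l * v % q).count t
      < ((symL q S0').map fun v => 1 * v % q).count t) &&
    decide (((symL q U).map fun v => l * v % q).count t
      ≤ ((symL q U).map fun v => 1 * v % q).count t)))

theorem hasPair_of_check {q M0 : ℕ} {U S0 S0' A A' : List ℕ} (h : check q M0 U S0 S0' A A' = true)
    (r n : ℕ) (hn : n = S0.length + r * U.length) (hn0 : 0 < n) : HasPair n q := by
  simp only [check, Bool.and_eq_true, decide_eq_true_eq, List.isPerm_iff, beq_iff_eq,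
    List.all_eq_true, List.any_eq_true, List.mem_range, Bool.or_eq_true, bne_iff_ne] at h
  obtain ⟨⟨⟨⟨⟨⟨⟨⟨hq, hp⟩, hp'⟩, hA⟩, hS0⟩, hU⟩, hW⟩, hdp⟩, hnc⟩ := h
  have hζ := Complex.isPrimitiveRoot_exp q hq.ne'
  set ζ := Complex.exp (2 * Real.pi * Complex.I / q)
  have hl : (S0 ++ rep r U).length = n := by rw [List.length_append, length_rep, hn]
  have hl' : (S0' ++ rep r U).length = n := by rw [List.length_append, length_rep, hn, hS0]
  have hm : ∀ s ∈ S0 ++ rep r U, s ∈ U := fun s hs => by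
    rcases List.mem_append.1 hs with hs | hs
    · exact mem_rep (hp.subset (List.mem_append_left _ hs))
    · exact mem_rep hs
  have hm' : ∀ s ∈ S0' ++ rep r U, s ∈ U := fun s hs => by
    rcases List.mem_append.1 hs with hs | hs
    · exact mem_rep (hp'.subset (List.mem_append_left _ hs))
    · exact mem_rep hs
  have hc : ∀ s ∈ S0 ++ rep r U, Nat.Coprime s q := fun s hs => (hU s (hm s hs)).1
  have hc' : ∀ s ∈ S0' ++ rep r U, Nat.Coprime s q := fun s hs => (hU s (hm' s hs)).1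
  have hle : ∀ s ∈ S0 ++ rep r U, s ≤ q := fun s hs => (hU s (hm s hs)).2
  have hle' : ∀ s ∈ S0' ++ rep r U, s ≤ q := fun s hs => (hU s (hm' s hs)).2
  have : Nonempty (Fin (2 * n)) := ⟨⟨0, by omega⟩⟩
  refine ⟨Subgroup.zpowers (lensGen hq hζ n (S0 ++ rep r U)),
    Subgroup.zpowers (lensGen hq hζ n (S0' ++ rep r U)), lens_finite hq hζ, lens_finite hq hζ,
    lens_free hq hζ hl hn0 hc, lens_free hq hζ hl' hn0 hc', ?_, ?_, ?_⟩
  · have : Finite (Subgroup.zpowers (lensGen hq hζ n (S0 ++ rep r U))) := lens_finite hq hζ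
    have : Finite (Subgroup.zpowers (lensGen hq hζ n (S0' ++ rep r U))) := lens_finite hq hζ
    refine dk_eq_of_pk_eq _ _ fun k => ?_
    have h1 := lens_pk hq hζ hl hn0 hc k
    have h2 := lens_pk hq hζ hl' hn0 hc' k
    rw [Finset.sum_congr rfl fun l hl0 => lens_mol hq hζ hl hle hp l
      (hW l (Finset.mem_range.1 hl0))] at h1
    rw [Finset.sum_congr rfl fun l hl0 => lens_mol hq hζ hl' hle' hp' l
      (hW l (Finset.mem_range.1 hl0))] at h2
    have h3 : ∀ (V : List ℕ) (ω : ℕ → PowerSeries ℂ),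
        ∑ l ∈ range q, (bigP ζ l V : PowerSeries ℂ) * ω (Nat.gcd l q)
        = ∑ d ∈ range (q + 1), ((∑ l ∈ range q with Nat.gcd l q = d, bigP ζ l V : ℂ[X]) :
          PowerSeries ℂ) * ω d := by
      intro V ω
      rw [← Finset.sum_fiberwise_of_maps_to (t := range (q + 1)) (g := fun l => Nat.gcd l q)
        (fun l _ => Finset.mem_range.2 (Nat.lt_succ_of_le (Nat.gcd_le_right _ hq)))]
      refine Finset.sum_congr rfl fun d _ => ?_
      rw [← Polynomial.coeToPowerSeries.ringHom_apply (φ := ∑ l ∈ _, _), map_sum, Finset.sum_mul]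
      refine Finset.sum_congr rfl fun l hl0 => ?_
      rw [(Finset.mem_filter.1 hl0).2]; rfl
    have h4 := sum_bigP_eq hq hζ (symL q A) (symL q A') (by simp [symL, hA]) (fun e he x hx =>
      ((hdp e (Nat.lt_succ_of_le (Nat.le_of_dvd hq he))).resolve_left
        (not_not.2 (Nat.mod_eq_zero_of_dvd he))) x hx)
    rw [h3 _ (fun d => ((bigP ζ d (symL q U) ^ (M0 + r) : ℂ[X]) : PowerSeries ℂ)⁻¹)] at h1 h2
    simp only [h4] at h1
    rw [← h2] at h1
    exact_mod_cast mul_left_cancel₀ (by exact_mod_cast hq.ne') h1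
  · rintro ⟨h, hh⟩
    have h1 : lensGen hq hζ n (S0' ++ rep r U) ∈
        (Subgroup.zpowers (lensGen hq hζ n (S0 ++ rep r U))).map (MulAut.conj h).toMonoidHom :=
      hh ▸ Subgroup.mem_zpowers _
    obtain ⟨x, hx, hx'⟩ := h1
    obtain ⟨l, hlq, rfl⟩ := lens_mem hq hζ hl hn0 hc hx
    have h2 := lensGen_charpolyRev hq hζ hl' hle' 1
    rw [pow_one, ← hx'] at h2
    simp only [MulEquiv.coe_toMonoidHom, MulAut.conj_apply, MulMemClass.coe_mul,
      Matrix.map_mul] at h2
    rw [charpolyRev_conj, lensGen_charpolyRev hq hζ hl hle] at h2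
    · obtain ⟨t, ht, h3, h4⟩ := hnc l hlq
      have h5 := count_roots_bigP hq hζ l (symL q (S0 ++ rep r U)) ht
      rw [h2, count_roots_bigP hq hζ 1 _ ht, ((symL_append _ _ _).map _).count_eq,
        ((symL_append _ _ _).map _).count_eq, List.map_append, List.map_append, List.count_append,
        List.count_append, count_rep, count_rep] at h5
      have := Nat.mul_le_mul_left r h4
      omega
    · rw [← Matrix.map_mul, ← MulMemClass.coe_mul, mul_inv_cancel]; simp
  · rw [Nat.card_zpowers, lensGen_order hq hζ hl hn0 hc]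

end Pool.Agent.P.MP_13d552_gt
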