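import Mathlib

set_option autoImplicit false

namespace Pool.Agent.P.MP_13d552_gt
open Finset Matrix

variable {σ : Type} [Fintype σ] [DecidableEq σ]

section
variable {D : Type} [Group D] {ρ τ : D →* Matrix σ σ ℝ}

lemma transpose_eq_inv (hρ : ∀ x, ρ x * (ρ x)ᵀ = 1) (x : D) : (ρ x)ᵀ = ρ x⁻¹ := by
  calc (ρ x)ᵀ = ρ x⁻¹ * (ρ x * (ρ x)ᵀ) := by
        rw [← Matrix.mul_assoc, ← map_mul, inv_mul_cancel, map_one, Matrix.one_mul]
    _ = ρ x⁻¹ := by rw [hρ, Matrix.mul_one]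

lemma trace_inv (hρ : ∀ x, ρ x * (ρ x)ᵀ = 1) (x : D) : (ρ x⁻¹).trace = (ρ x).trace := by
  rw [← transpose_eq_inv hρ, trace_transpose]

lemma eqv_transpose (hρ : ∀ x, ρ x * (ρ x)ᵀ = 1) (hτ : ∀ x, τ x * (τ x)ᵀ = 1)
    {U : Matrix σ σ ℝ} (hU : ∀ x, τ x * U = U * ρ x) (x : D) : ρ x * Uᵀ = Uᵀ * τ x := by
  have := congrArg transpose (hU x⁻¹)
  rw [transpose_mul, transpose_mul, transpose_eq_inv hρ, transpose_eq_inv hτ, inv_inv] at this
  exact this.symm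

lemma exists_nonzero_eqv [Finite D] (hρ : ∀ x, ρ x * (ρ x)ᵀ = 1)
    {P Q : Matrix σ σ ℝ} (hP : ∀ x, ρ x * P = P * ρ x) (hQ : ∀ x, τ x * Q = Q * τ x)
    (hPP : P * P = P) (hQQ : Q * Q = Q) (hPt : Pᵀ = P) (hP0 : P ≠ 0)
    (htr : ∀ x, (ρ x * P).trace = (τ x * Q).trace) :
    ∃ Y : Matrix σ σ ℝ, Y ≠ 0 ∧ (∀ x, τ x * Y = Y * ρ x) ∧ Q * Y = Y ∧ Y * P = Y := by
  have := Fintype.ofFinite D
  let Av : Matrix σ σ ℝ → Matrix σ σ ℝ := fun M => ∑ x, (τ x * Q) * M * (P * ρ x⁻¹)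
  have h1 : ∀ M y, τ y * Av M = Av M * ρ y := by
    intro M y
    simp only [Av, Matrix.mul_sum, Matrix.sum_mul]
    rw [← Function.Bijective.sum_comp (Group.mulLeft_bijective y)
      (fun x => (τ x * Q) * M * (P * ρ x⁻¹) * ρ y)]
    refine Finset.sum_congr rfl fun x _ => ?_
    have : ρ (y * x)⁻¹ * ρ y = ρ x⁻¹ := by rw [← map_mul]; simp
    simp only [Matrix.mul_assoc, this, map_mul]
  have h2 : ∀ M, Q * Av M = Av M := by
    intro M
    simp only [Av, Matrix.mul_sum]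
    refine Finset.sum_congr rfl fun x _ => ?_
    have : Q * (τ x * Q) = τ x * Q := by
      rw [← Matrix.mul_assoc, ← hQ, Matrix.mul_assoc, hQQ]
    rw [← Matrix.mul_assoc Q, ← Matrix.mul_assoc Q, this]
  have h3 : ∀ M, Av M * P = Av M := by
    intro M
    simp only [Av, Matrix.sum_mul]
    refine Finset.sum_congr rfl fun x _ => ?_
    rw [Matrix.mul_assoc _ _ P, Matrix.mul_assoc P, hP, ← Matrix.mul_assoc P, hPP]
  by_contra hne
  push Not at hne
  have h4 : ∀ M, Av M = 0 := fun M => by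
    by_contra h
    exact hne _ h (h1 M) (h2 M) (h3 M)
  have h5 : ∑ i, ∑ j, Av (single i j 1) i j = ∑ x, (τ x * Q).trace * (P * ρ x⁻¹).trace := by
    simp only [Av, Matrix.sum_apply]
    have : ∀ (A B : Matrix σ σ ℝ) (i j : σ), (A * single i j (1 : ℝ) * B) i j = A i i * B j j := by
      intro A B i j
      rw [Matrix.mul_apply, Finset.sum_eq_single j]
      · simp
      · intro b _ hb
        rw [Matrix.mul_single_apply_of_ne _ _ _ _ _ hb, zero_mul]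
      · simp
    simp only [this, Matrix.trace, Matrix.diag, Finset.sum_mul_sum]
    rw [Finset.sum_congr rfl fun i _ => Finset.sum_comm, Finset.sum_comm]
  have h6 : ∀ x, (τ x * Q).trace * (P * ρ x⁻¹).trace = (ρ x * P).trace ^ 2 := by
    intro x
    rw [← htr, ← transpose_eq_inv hρ, ← trace_transpose (P * _), transpose_mul, transpose_transpose,
      hPt, sq]
  simp only [h4, Matrix.zero_apply, Finset.sum_const_zero, h6] at h5
  have h7 := (Finset.sum_eq_zero_iff_of_nonneg (fun x _ => sq_nonneg _)).1 h5.symm 1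
    (Finset.mem_univ _)
  rw [map_one, Matrix.one_mul, pow_eq_zero_iff two_ne_zero] at h7
  apply hP0
  have h8 : (Pᴴ * P).trace = 0 := by
    rw [conjTranspose_eq_transpose_of_trivial, hPt, hPP, h7]
  exact Matrix.trace_conjTranspose_mul_self_eq_zero_iff.1 h8

lemma exists_piso_eqv (hρ : ∀ x, ρ x * (ρ x)ᵀ = 1) (hτ : ∀ x, τ x * (τ x)ᵀ = 1)
    {P Q : Matrix σ σ ℝ}
    (h : ∃ Y : Matrix σ σ ℝ, Y ≠ 0 ∧ (∀ x, τ x * Y = Y * ρ x) ∧ Q * Y = Y ∧ Y * P = Y) :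
    ∃ Y : Matrix σ σ ℝ, Y ≠ 0 ∧ (∀ x, τ x * Y = Y * ρ x) ∧ Q * Y = Y ∧ Y * P = Y ∧
      Y * Yᵀ * Y = Y := by
  let 𝒴 : Set (Matrix σ σ ℝ) := {Y | Y ≠ 0 ∧ (∀ x, τ x * Y = Y * ρ x) ∧ Q * Y = Y ∧ Y * P = Y}
  obtain ⟨_, ⟨Y, hY, rfl⟩, hmax⟩ := (wellFounded_gt (α := Submodule ℝ (σ → ℝ))).has_min
    ((fun Y : Matrix σ σ ℝ => LinearMap.ker (Matrix.toLin' Y)) '' 𝒴) (Set.Nonempty.image _ h)
  obtain ⟨hY0, hY1, hY2, hY3⟩ := hY
  have hS : (Yᴴ * Y).IsHermitian := isHermitian_conjTranspose_mul_self Y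
  have hS0 : Yᴴ * Y ≠ 0 := fun h => hY0 (conjTranspose_mul_self_eq_zero.1 h)
  obtain ⟨v, t, ht, hv, hvt⟩ := hS.exists_eigenvector_of_ne_zero hS0
  rw [conjTranspose_eq_transpose_of_trivial] at hvt
  have htpos : 0 < t := by
    have h1 : t * (v ⬝ᵥ v) = (Y *ᵥ v) ⬝ᵥ (Y *ᵥ v) := by
      rw [← smul_eq_mul, ← dotProduct_smul, ← hvt, ← mulVec_mulVec, dotProduct_mulVec,
        vecMul_transpose]
    have h2 : 0 < v ⬝ᵥ v := by
      refine lt_of_le_of_ne (Finset.sum_nonneg fun i _ => mul_self_nonneg _) fun h => hv ?_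
      exact dotProduct_self_eq_zero.1 h.symm
    have h3 : 0 ≤ (Y *ᵥ v) ⬝ᵥ (Y *ᵥ v) := Finset.sum_nonneg fun i _ => mul_self_nonneg _
    rcases lt_or_gt_of_ne ht with h | h
    · nlinarith
    · exact h
  have hY' : Y * (Yᵀ * Y) - t • Y = 0 := by
    by_contra hne
    refine hmax (LinearMap.ker (Matrix.toLin' (Y * (Yᵀ * Y) - t • Y))) ⟨_, ⟨hne, ?_, ?_, ?_⟩, rfl⟩ ?_
    · intro x
      rw [Matrix.mul_sub, Matrix.sub_mul, Matrix.mul_smul, Matrix.smul_mul, hY1,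
        ← Matrix.mul_assoc, hY1, Matrix.mul_assoc, ← Matrix.mul_assoc (ρ x),
        eqv_transpose hρ hτ hY1, Matrix.mul_assoc, hY1]
      simp only [Matrix.mul_assoc]
    · rw [Matrix.mul_sub, Matrix.mul_smul, ← Matrix.mul_assoc, hY2]
    · rw [Matrix.sub_mul, Matrix.smul_mul, Matrix.mul_assoc, Matrix.mul_assoc, hY3]
    · refine lt_of_le_of_ne (fun w hw => ?_) fun h => ?_
      · simp only [LinearMap.mem_ker, toLin'_apply] at hw ⊢
        rw [sub_mulVec, smul_mulVec, ← mulVec_mulVec, ← mulVec_mulVec, hw]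
        simp
      · have h1 : v ∈ LinearMap.ker (Matrix.toLin' (Y * (Yᵀ * Y) - t • Y)) := by
          simp only [LinearMap.mem_ker, toLin'_apply]
          rw [sub_mulVec, smul_mulVec, ← mulVec_mulVec, hvt, mulVec_smul, sub_self]
        rw [← h] at h1
        simp only [LinearMap.mem_ker, toLin'_apply] at h1
        rw [← mulVec_mulVec, h1, mulVec_zero] at hvt
        exact hv ((smul_eq_zero.1 hvt.symm).resolve_left ht)
  have hs : Real.sqrt t ≠ 0 := (Real.sqrt_pos.2 htpos).ne'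
  refine ⟨(Real.sqrt t)⁻¹ • Y, smul_ne_zero (inv_ne_zero hs) hY0, fun x => ?_, ?_, ?_, ?_⟩
  · rw [Matrix.mul_smul, Matrix.smul_mul, hY1]
  · rw [Matrix.mul_smul, hY2]
  · rw [Matrix.smul_mul, hY3]
  · rw [sub_eq_zero] at hY'
    simp only [transpose_smul, Matrix.mul_smul, Matrix.smul_mul, Matrix.mul_assoc, hY', smul_smul]
    congr 1
    have := Real.mul_self_sqrt htpos.le
    field_simp
    nlinarith

theorem exists_conj [Finite D] (hρ : ∀ x, ρ x * (ρ x)ᵀ = 1) (hτ : ∀ x, τ x * (τ x)ᵀ = 1)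
    (htr : ∀ x, (ρ x).trace = (τ x).trace) :
    ∃ h : Matrix σ σ ℝ, hᵀ * h = 1 ∧ ∀ x, τ x * h = h * ρ x := by
  let 𝒰 : Set (Matrix σ σ ℝ) := {U | (∀ x, τ x * U = U * ρ x) ∧ U * Uᵀ * U = U}
  obtain ⟨_, ⟨U, hU, rfl⟩, hmin⟩ := (wellFounded_lt (α := Submodule ℝ (σ → ℝ))).has_min
    ((fun Y : Matrix σ σ ℝ => LinearMap.ker (Matrix.toLin' Y)) '' 𝒰)
    (Set.Nonempty.image _ ⟨0, by simp [𝒰]⟩)
  obtain ⟨hU1, hU2⟩ := hU
  have hU1' := eqv_transpose hρ hτ hU1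
  have hU2' : Uᵀ * U * Uᵀ = Uᵀ := by
    have := congrArg transpose hU2
    simpa only [transpose_mul, transpose_transpose, ← Matrix.mul_assoc] using this
  refine ⟨U, ?_, hU1⟩
  by_contra hne
  have hP0 : 1 - Uᵀ * U ≠ 0 := fun h => hne (sub_eq_zero.1 h).symm
  obtain ⟨Y, hY0, hY1, hY2, hY3, hY4⟩ := exists_piso_eqv hρ hτ
    (exists_nonzero_eqv (τ := τ) (P := 1 - Uᵀ * U) (Q := 1 - U * Uᵀ) hρ
      (fun x => by
        rw [Matrix.mul_sub, Matrix.sub_mul, ← Matrix.mul_assoc, hU1', Matrix.mul_assoc, hU1]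
        simp [Matrix.mul_assoc])
      (fun x => by
        rw [Matrix.mul_sub, Matrix.sub_mul, ← Matrix.mul_assoc, hU1, Matrix.mul_assoc, hU1']
        simp [Matrix.mul_assoc])
      (by
        rw [Matrix.mul_sub, Matrix.sub_mul, Matrix.sub_mul, ← Matrix.mul_assoc (Uᵀ * U), hU2']
        simp)
      (by
        rw [Matrix.mul_sub, Matrix.sub_mul, Matrix.sub_mul, ← Matrix.mul_assoc (U * Uᵀ), hU2]
        simp)
      (by simp) hP0
      (fun x => by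
        rw [Matrix.mul_sub, Matrix.mul_sub, trace_sub, trace_sub, Matrix.mul_one, Matrix.mul_one,
          htr, ← Matrix.mul_assoc, ← Matrix.mul_assoc, hU1, trace_mul_comm, Matrix.mul_assoc]))
  have hUY : Uᵀ * Y = 0 := by
    rw [← hY2, ← Matrix.mul_assoc, Matrix.mul_sub, ← Matrix.mul_assoc, hU2']; simp
  have hYU : Y * Uᵀ = 0 := by
    rw [← hY3, Matrix.mul_assoc, Matrix.sub_mul, hU2']; simp
  have hYU' : Yᵀ * U = 0 := by simpa using congrArg transpose hUY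
  have hUY' : U * Yᵀ = 0 := by simpa using congrArg transpose hYU
  refine hmin (LinearMap.ker (Matrix.toLin' (U + Y))) ⟨_, ⟨fun x => ?_, ?_⟩, rfl⟩ ?_
  · rw [Matrix.mul_add, Matrix.add_mul, hU1, hY1]
  · have e1 : (U + Y) * (U + Y)ᵀ = U * Uᵀ + Y * Yᵀ := by
      rw [transpose_add, Matrix.mul_add, Matrix.add_mul, Matrix.add_mul, hYU, hUY']; simp
    rw [e1, Matrix.add_mul, Matrix.mul_add, Matrix.mul_add, hU2, hY4, Matrix.mul_assoc,
      hUY, Matrix.mul_assoc, hYU']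
    simp
  · refine lt_of_le_of_ne (fun w hw => ?_) fun h => ?_
    · simp only [LinearMap.mem_ker, toLin'_apply] at hw ⊢
      have : (U * Uᵀ * (U + Y)) *ᵥ w = 0 := by rw [← mulVec_mulVec, hw, mulVec_zero]
      rwa [Matrix.mul_add, hU2, Matrix.mul_assoc, hUY, Matrix.mul_zero, add_zero] at this
    · apply hY0
      have hUP : U * (1 - Uᵀ * U) = 0 := by rw [Matrix.mul_sub, ← Matrix.mul_assoc, hU2]; simp
      apply Matrix.toLin'.injective
      refine LinearMap.ext fun w => ?_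
      have h1 : (1 - Uᵀ * U) *ᵥ w ∈ LinearMap.ker (Matrix.toLin' U) := by
        simp only [LinearMap.mem_ker, toLin'_apply]
        rw [mulVec_mulVec, hUP, zero_mulVec]
      replace h1 := h.ge h1
      simp only [LinearMap.mem_ker, toLin'_apply] at h1
      rw [mulVec_mulVec, Matrix.add_mul, hUP, hY3, zero_add] at h1
      simpa using h1

end

end Pool.Agent.P.MP_13d552_gt
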