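import Pool.Agent.P.MP_13d552_gt.Separate

set_option autoImplicit false

namespace Pool.Agent.P.MP_13d552_gt
open Finset Polynomial

/-- Multiply an element of the group ring of `ℤ/q` by `1 - x y^v`. -/
def dpStep (q : ℕ) (x : ℤ) (v : ℕ) (L : List ℤ) : List ℤ :=
  (List.range q).map fun t => L.getD t 0 - x * L.getD ((t + (q - v % q)) % q) 0

/-- Coefficients of the product of `1 - x y^v` in the group ring of `ℤ/q`. -/
def dp (q : ℕ) (x : ℤ) : List ℕ → List ℤ
  | [] => (List.range q).map fun t => if t = 0 then 1 else 0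
  | v :: V => dpStep q x v (dp q x V)

lemma getD_map_range (q : ℕ) (f : ℕ → ℤ) {t : ℕ} (ht : t < q) :
    ((List.range q).map f).getD t 0 = f t := by
  simp [List.getD_eq_getElem?_getD, ht]

lemma pow_mod_of_pow_eq_one {y : ℂ} {q : ℕ} (hy : y ^ q = 1) (t : ℕ) : y ^ (t % q) = y ^ t := by
  conv_rhs => rw [← Nat.mod_add_div t q, pow_add, pow_mul, hy, one_pow, mul_one]

lemma ev_dp {q : ℕ} (hq : 0 < q) (x : ℤ) {y : ℂ} (hy : y ^ q = 1) (V : List ℕ) :
    ∑ t ∈ range q, ((dp q x V).getD t 0 : ℂ) * y ^ t = (V.map fun v => 1 - y ^ v * x).prod := by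
  induction V with
  | nil =>
    rw [Finset.sum_eq_single_of_mem 0 (Finset.mem_range.2 hq)]
    · rw [dp, getD_map_range _ _ hq]; simp
    · intro t ht ht0
      rw [dp, getD_map_range _ _ (Finset.mem_range.1 ht)]; simp [ht0]
  | cons v V ih =>
    rw [List.map_cons, List.prod_cons, ← ih, dp]
    set L := dp q x V
    have hv : v % q < q := Nat.mod_lt _ hq
    have h1 : ∑ t ∈ range q, (L.getD ((t + (q - v % q)) % q) 0 : ℂ) * y ^ t
        = y ^ v * ∑ t ∈ range q, (L.getD t 0 : ℂ) * y ^ t := by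
      rw [Finset.mul_sum]
      refine Finset.sum_nbij' (fun t => (t + (q - v % q)) % q) (fun t => (t + v % q) % q)
        (fun t _ => Finset.mem_range.2 (Nat.mod_lt _ hq))
        (fun t _ => Finset.mem_range.2 (Nat.mod_lt _ hq)) (fun t ht => ?_) (fun t ht => ?_)
        (fun t _ => ?_)
      · rw [Nat.mod_add_mod, add_assoc, Nat.sub_add_cancel hv.le, Nat.add_mod_right,
          Nat.mod_eq_of_lt (Finset.mem_range.1 ht)]
      · rw [Nat.mod_add_mod, add_assoc, Nat.add_sub_cancel' hv.le, Nat.add_mod_right,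
          Nat.mod_eq_of_lt (Finset.mem_range.1 ht)]
      · rw [pow_mod_of_pow_eq_one hy, mul_left_comm, ← pow_mod_of_pow_eq_one hy v, ← pow_add,
          add_left_comm, Nat.add_sub_cancel' hv.le, pow_add, hy, mul_one]
    rw [sub_mul, one_mul, mul_comm (y ^ v), mul_assoc, ← h1, Finset.mul_sum,
      ← Finset.sum_sub_distrib]
    refine Finset.sum_congr rfl fun t ht => ?_
    rw [dpStep, getD_map_range _ _ (Finset.mem_range.1 ht)]
    push_cast; ring

lemma sum_prod_eq_dp {q : ℕ} (hq : 0 < q) (x : ℤ) {η : ℂ} (hη : IsPrimitiveRoot η q)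
    (V : List ℕ) : ∑ i ∈ range q, (V.map fun v => 1 - (η ^ i) ^ v * x).prod
      = q * ((dp q x V).getD 0 0 : ℂ) := by
  have h1 : ∀ i, (η ^ i) ^ q = 1 := fun i => by rw [← pow_mul, mul_comm, pow_mul, hη.1, one_pow]
  simp only [← ev_dp hq x (h1 _)]
  rw [Finset.sum_comm, Finset.sum_eq_single_of_mem 0 (Finset.mem_range.2 hq)]
  · simp
  · intro t ht ht0
    have h2 : η ^ t ≠ 1 := hη.pow_ne_one_of_pos_of_lt ht0 (Finset.mem_range.1 ht)
    have h3 : ∑ i ∈ range q, (η ^ t) ^ i = 0 := by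
      have := mul_geom_sum (η ^ t) q
      rw [h1, sub_self, mul_eq_zero, sub_eq_zero] at this
      exact this.resolve_left h2
    rw [← Finset.mul_sum]
    simp only [← pow_mul, mul_comm _ t]
    simp only [pow_mul, h3, mul_zero]

lemma gcd_fiber_zero {M : Type} [AddCommGroup M] {q : ℕ} (hq : 0 < q) (δ : ℕ → M)
    (h : ∀ e, e ∣ q → ∑ l ∈ range q with e ∣ l, δ l = 0) (d : ℕ) :
    ∑ l ∈ range q with Nat.gcd l q = d, δ l = 0 := by
  induction hk : q - d using Nat.strong_induction_on generalizing d with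
  | _ k ih =>
    by_cases hd : d ∣ q
    · have h1 := h d hd
      rw [← Finset.sum_fiberwise_of_maps_to (t := range (q + 1)) (g := fun l => Nat.gcd l q)
        (fun l _ => Finset.mem_range.2 (Nat.lt_succ_of_le (Nat.gcd_le_right _ hq))),
        Finset.sum_eq_single_of_mem d
          (Finset.mem_range.2 (Nat.lt_succ_of_le (Nat.le_of_dvd hq hd)))] at h1
      · rw [← h1, Finset.filter_filter]
        refine Finset.sum_congr (Finset.filter_congr fun l _ => ?_) fun _ _ => rfl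
        exact ⟨fun h2 => ⟨h2 ▸ Nat.gcd_dvd_left l q, h2⟩, fun h2 => h2.2⟩
      · intro d' hd' hne
        rw [Finset.filter_filter]
        by_cases h2 : d ∣ d' ∧ 0 < d'
        · have h3 : d < d' := lt_of_le_of_ne (Nat.le_of_dvd h2.2 h2.1) hne.symm
          have h4 := Finset.mem_range.1 hd'
          rw [← ih (q - d') (by omega) d' rfl]
          refine Finset.sum_congr (Finset.filter_congr fun l _ => ?_) fun _ _ => rfl
          exact ⟨fun h5 => h5.2, fun h5 => ⟨h2.1.trans (h5 ▸ Nat.gcd_dvd_left l q), h5⟩⟩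
        · refine Finset.sum_eq_zero fun l hl => absurd ?_ h2
          obtain ⟨-, h3, rfl⟩ := Finset.mem_filter.1 hl
          exact ⟨Nat.dvd_gcd h3 hd, Nat.gcd_pos_of_pos_right _ hq⟩
    · refine Finset.sum_eq_zero fun l hl => absurd ?_ hd
      rw [← (Finset.mem_filter.1 hl).2]; exact Nat.gcd_dvd_right l q

/-- The product of the factors `1 - ζ^(l v) X`. -/
noncomputable def bigP (ζ : ℂ) (l : ℕ) (V : List ℕ) : ℂ[X] := (V.map fun v => lin (ζ ^ (l * v))).prod

lemma bigP_append (ζ : ℂ) (l : ℕ) (V W : List ℕ) :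
    bigP ζ l (V ++ W) = bigP ζ l V * bigP ζ l W := by simp [bigP]

lemma bigP_perm (ζ : ℂ) (l : ℕ) {V W : List ℕ} (h : V.Perm W) : bigP ζ l V = bigP ζ l W :=
  (h.map _).prod_eq

lemma bigP_mod {ζ : ℂ} {q : ℕ} (hζ : ζ ^ q = 1) (l : ℕ) (V : List ℕ) :
    bigP ζ l V = bigP ζ 1 (V.map fun v => l * v % q) := by
  simp [bigP, Function.comp_def, pow_mod_of_pow_eq_one hζ]

lemma bigP_ne_zero (ζ : ℂ) (l : ℕ) (V : List ℕ) : bigP ζ l V ≠ 0 := by
  refine List.prod_ne_zero fun h => ?_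
  obtain ⟨v, -, hv⟩ := List.mem_map.1 h
  exact lin_ne_zero _ hv

lemma bigP_coeff_zero (ζ : ℂ) (l : ℕ) (V : List ℕ) : (bigP ζ l V).coeff 0 = 1 := by
  induction V with
  | nil => simp [bigP]
  | cons v V ih =>
    rw [bigP, List.map_cons, List.prod_cons, Polynomial.mul_coeff_zero, ← bigP, ih]
    simp [lin]

lemma bigP_natDegree (ζ : ℂ) (l : ℕ) (V : List ℕ) : (bigP ζ l V).natDegree ≤ V.length := by
  induction V with
  | nil => simp [bigP]
  | cons v V ih =>
    rw [bigP, List.map_cons, List.prod_cons, ← bigP, List.length_cons]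
    refine Polynomial.natDegree_mul_le.trans ?_
    have : (lin (ζ ^ (l * v))).natDegree ≤ 1 := by unfold lin; compute_degree
    omega

lemma bigP_eval (ζ : ℂ) (l : ℕ) (V : List ℕ) (x : ℂ) :
    (bigP ζ l V).eval x = (V.map fun v => 1 - (ζ ^ l) ^ v * x).prod := by
  rw [bigP, Polynomial.eval_list_prod, List.map_map]
  congr 2
  ext v
  simp [lin, pow_mul]

lemma count_roots_bigP {ζ : ℂ} {q : ℕ} (hq : 0 < q) (hζ : IsPrimitiveRoot ζ q) (l : ℕ)
    (V : List ℕ) {t : ℕ} (ht : t < q) :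
    (bigP ζ l V).roots.count (ζ ^ t)⁻¹ = (V.map fun v => l * v % q).count t := by
  induction V with
  | nil => simp [bigP]
  | cons v V ih =>
    rw [bigP, List.map_cons, List.prod_cons, ← bigP,
      Polynomial.roots_mul (mul_ne_zero (lin_ne_zero _) (bigP_ne_zero _ _ _)), Multiset.count_add,
      ih, List.map_cons, List.count_cons, add_comm]
    congr 1
    have h0 : ζ ^ (l * v) ≠ 0 := pow_ne_zero _ (hζ.ne_zero hq.ne')
    have h1 : lin (ζ ^ (l * v)) = C (-ζ ^ (l * v)) * (X - C (ζ ^ (l * v))⁻¹) := by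
      rw [lin, mul_sub, ← C_mul, neg_mul, mul_inv_cancel₀ h0]; simp; ring
    rw [h1, Polynomial.roots_C_mul _ (neg_ne_zero.2 h0), Polynomial.roots_X_sub_C,
      Multiset.count_singleton]
    simp only [inv_inj, beq_iff_eq]
    rw [← pow_mod_of_pow_eq_one hζ.1 (l * v)]
    refine if_congr ⟨fun h => (hζ.pow_inj ht (Nat.mod_lt _ hq) h).symm, fun h => by rw [h]⟩ rfl rfl

lemma sum_bigP_eq {ζ : ℂ} {q : ℕ} (hq : 0 < q) (hζ : IsPrimitiveRoot ζ q) (V W : List ℕ)
    (hlen : W.length = V.length)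
    (h : ∀ e, e ∣ q → ∀ x : ℕ, x < V.length + 1 →
      (dp (q / e) x V).getD 0 0 = (dp (q / e) x W).getD 0 0) (d : ℕ) :
    ∑ l ∈ range q with Nat.gcd l q = d, bigP ζ l V
      = ∑ l ∈ range q with Nat.gcd l q = d, bigP ζ l W := by
  rw [← sub_eq_zero, ← Finset.sum_sub_distrib]
  refine gcd_fiber_zero hq _ (fun e he => ?_) d
  obtain ⟨q', rfl⟩ := he
  have he : 0 < e := Nat.pos_of_mul_pos_right hq
  have hq' : 0 < q' := Nat.pos_of_mul_pos_left hq
  have h1 : ∀ f : ℕ → ℂ[X], ∑ l ∈ range (e * q') with e ∣ l, f l = ∑ i ∈ range q', f (e * i) := by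
    intro f
    symm
    refine Finset.sum_nbij (e * ·) (fun i hi => ?_) (fun i _ j _ h => ?_) (fun l hl => ?_)
      fun _ _ => rfl
    · simp only [Finset.mem_filter, Finset.mem_range] at hi ⊢
      exact ⟨Nat.mul_lt_mul_of_pos_left hi he, Dvd.intro _ rfl⟩
    · exact Nat.eq_of_mul_eq_mul_left he h
    · simp only [Finset.coe_filter, Finset.mem_range, Set.mem_ofPred_eq] at hl
      obtain ⟨hl, i, rfl⟩ := hl
      exact ⟨i, by simpa using Nat.lt_of_mul_lt_mul_left hl, rfl⟩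
  rw [h1]
  refine Polynomial.eq_zero_of_natDegree_lt_card_of_eval_eq_zero _
    (f := fun x : Fin (V.length + 1) => (((x : ℕ) : ℤ) : ℂ)) (fun x y hxy => ?_) (fun x => ?_) ?_
  · exact Fin.ext (by simpa using hxy)
  · have hη : IsPrimitiveRoot (ζ ^ e) q' := hζ.pow hq rfl
    have h2 := h e (Dvd.intro _ rfl) x x.2
    rw [Nat.mul_div_cancel_left _ he] at h2
    simp only [Polynomial.eval_finsetSum, Polynomial.eval_sub, bigP_eval, Finset.sum_sub_distrib,
      pow_mul]
    rw [sum_prod_eq_dp hq' _ hη, sum_prod_eq_dp hq' _ hη, h2, sub_self]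
  · rw [Fintype.card_fin]
    refine Nat.lt_succ_of_le (Polynomial.natDegree_sum_le_of_forall_le _ _ fun i _ => ?_)
    exact (Polynomial.natDegree_sub_le _ _).trans
      (max_le (bigP_natDegree _ _ _) (hlen ▸ bigP_natDegree _ _ _))

end Pool.Agent.P.MP_13d552_gt
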