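import Pool.Agent.P.MP_13d552_gt.Molien

set_option autoImplicit false

namespace Pool.Agent.P.MP_13d552_gt
open Finset Matrix

variable {σ : Type} [Fintype σ] [DecidableEq σ]

lemma exists_diag (M : Matrix σ σ ℂ) {d : ℕ} (hd : d ≠ 0) (hM : M ^ d = 1) :
    ∃ (S T : Matrix σ σ ℂ) (l : σ → ℂ), T * S = 1 ∧ S * T = 1 ∧ M = S * diagonal l * T := by
  classical
  set f : Module.End ℂ (σ → ℂ) := Matrix.toLin' M with hf
  have hss : f.IsSemisimple := by
    apply Module.End.isSemisimple_of_squarefree_aeval_eq_zero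
      (p := Polynomial.X ^ d - 1)
      (Polynomial.X_pow_sub_one_separable_iff.2 (by exact_mod_cast hd)).squarefree
    simp only [map_sub, map_pow, Polynomial.aeval_X, map_one]
    rw [hf, ← Matrix.toLin'_pow, hM, Matrix.toLin'_one]
    exact sub_self _
  have eigenDecomp := DirectSum.isInternal_submodule_of_iSupIndep_of_iSup_eq_top
    f.eigenspaces_iSupIndep hss.iSup_eigenspace_eq_top
  let I := (ν : ℂ) × Fin (Module.finrank ℂ (f.eigenspace ν))
  let v : Module.Basis I ℂ (σ → ℂ) :=
    eigenDecomp.collectedBasis fun μ ↦ Module.finBasis ℂ (f.eigenspace μ)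
  have hv : ∀ i : I, f (v i) = i.1 • v i := fun i =>
    Module.End.mem_eigenspace_iff.1 (eigenDecomp.collectedBasis_mem _ i)
  let e : I ≃ σ := v.indexEquiv (Pi.basisFun ℂ σ)
  let w := v.reindex e
  have hw : ∀ j, M *ᵥ (w j) = (e.symm j).1 • w j := by
    intro j
    have := hv (e.symm j)
    simpa [w, hf] using this
  refine ⟨(Pi.basisFun ℂ σ).toMatrix w, w.toMatrix (Pi.basisFun ℂ σ), fun j => (e.symm j).1,
    Module.Basis.toMatrix_mul_toMatrix_flip _ _, Module.Basis.toMatrix_mul_toMatrix_flip _ _, ?_⟩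
  have h1 : M * (Pi.basisFun ℂ σ).toMatrix w
      = (Pi.basisFun ℂ σ).toMatrix w * diagonal (fun j => (e.symm j).1) := by
    ext i j
    have := congrFun (hw j) i
    simp only [Matrix.mulVec, dotProduct, Pi.smul_apply, smul_eq_mul] at this
    rw [Matrix.mul_diagonal, Matrix.mul_apply]
    simp only [Module.Basis.toMatrix_apply, Pi.basisFun_repr]
    rw [this, mul_comm]
  rw [← h1, Matrix.mul_assoc, Module.Basis.toMatrix_mul_toMatrix_flip, Matrix.mul_one]

/-- The geometric series with ratio `a X`. -/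
noncomputable def geo (a : ℂ) : PowerSeries ℂ := PowerSeries.mk (fun n => a ^ n)

lemma geo_mul (a : ℂ) : geo a * (1 - PowerSeries.C a * PowerSeries.X) = 1 := by
  ext n
  rw [mul_sub, mul_one, map_sub, ← mul_assoc]
  cases n with
  | zero => simp [geo]
  | succ n =>
    rw [PowerSeries.coeff_succ_mul_X, mul_comm, PowerSeries.coeff_C_mul]
    simp [geo, pow_succ', PowerSeries.coeff_one]

/-- The Molien term of a real matrix. -/
noncomputable def mol (g : Matrix σ σ ℝ) : PowerSeries ℂ :=
  PowerSeries.mk (fun k => ((tk g k : ℝ) : ℂ))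

lemma conj_pow_diag (S T : Matrix σ σ ℂ) (l : σ → ℂ) (h1 : T * S = 1) (h2 : S * T = 1) (j : ℕ) :
    (S * diagonal l * T) ^ j = S * diagonal (fun i => l i ^ j) * T := by
  induction j with
  | zero => simp [h2]
  | succ j ih =>
    rw [pow_succ, ih]
    calc S * diagonal (fun i => l i ^ j) * T * (S * diagonal l * T)
        = S * (diagonal (fun i => l i ^ j) * (T * S) * diagonal l) * T := by
          simp only [Matrix.mul_assoc]
      _ = _ := by
          rw [h1, Matrix.mul_one, diagonal_mul_diagonal]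
          simp [pow_succ]

lemma exists_eigen (g : Matrix σ σ ℝ) {d : ℕ} (hd : d ≠ 0) (hg : g ^ d = 1) :
    ∃ l : σ → ℂ, mol g = ∏ i, geo (l i) ∧
      (∀ j : ℕ, (((g ^ j).trace : ℝ) : ℂ) = ∑ i, l i ^ j) ∧
      (∀ j : ℕ, (((g ^ j - 1).det : ℝ) : ℂ) = ∏ i, (l i ^ j - 1)) ∧
      (∀ i, l i ^ d = 1) ∧
      (g.map Complex.ofRealHom).charpolyRev = ∏ i, (1 - Polynomial.C (l i) * Polynomial.X) := by
  have hpow : ∀ j : ℕ, (g ^ j).map Complex.ofRealHom = (g.map Complex.ofRealHom) ^ j := by
    intro j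
    exact map_pow (Complex.ofRealHom.mapMatrix) g j
  obtain ⟨S, T, l, h1, h2, h3⟩ := exists_diag (g.map Complex.ofRealHom) hd (by
    rw [← hpow, hg]; simp)
  have hp := conj_pow_diag S T l h1 h2
  rw [← h3] at hp
  have hdet : S.det * T.det = 1 := by rw [← det_mul, h2, det_one]
  refine ⟨l, ?_, ?_, ?_, ?_, ?_⟩
  · rw [show ∏ i, geo (l i) = PowerSeries.mk (tk (diagonal l)) from (mk_tk_diagonal l).symm]
    ext k
    simp only [mol, PowerSeries.coeff_mk]
    rw [← tk_conj S T (diagonal l) h1, ← h3, tk_map]; rfl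
  · intro j
    have : (((g ^ j).trace : ℝ) : ℂ) = ((g ^ j).map Complex.ofRealHom).trace := by
      simp [Matrix.trace]
    rw [this, hpow, hp, trace_mul_comm, ← Matrix.mul_assoc, h1, Matrix.one_mul, trace_diagonal]
  · intro j
    have : (((g ^ j - 1).det : ℝ) : ℂ) = ((g ^ j).map Complex.ofRealHom - 1).det := by
      have := Complex.ofRealHom.map_det (g ^ j - 1)
      rw [map_sub, map_one] at this
      exact this
    rw [this, hpow, hp]
    have h4 : S * diagonal (fun i => l i ^ j) * T - 1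
        = S * diagonal (fun i => l i ^ j - 1) * T := by
      rw [← diagonal_sub, Matrix.mul_sub, Matrix.sub_mul, diagonal_one, Matrix.mul_one, h2]
    rw [h4, det_mul, det_mul, det_diagonal]
    linear_combination (∏ i, (l i ^ j - 1)) * hdet
  · intro i
    have h5 := hp d
    rw [← hpow, hg] at h5
    have h6 : diagonal (fun i => l i ^ d) = 1 := by
      calc diagonal (fun i => l i ^ d) = (T * S) * diagonal (fun i => l i ^ d) * (T * S) := by
            simp [h1]
        _ = T * (S * diagonal (fun i => l i ^ d) * T) * S := by simp only [Matrix.mul_assoc]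
        _ = 1 := by rw [← h5]; simp [h1]
    have := congrFun (congrFun h6 i) i
    simpa using this
  · rw [charpolyRev, h3]
    have hC : (S.map Polynomial.C) * (T.map Polynomial.C) = 1 := by
      rw [← Matrix.map_mul, h2]; simp
    have h7 : (1 - (Polynomial.X : Polynomial ℂ) • (S * diagonal l * T).map Polynomial.C)
        = S.map Polynomial.C * diagonal (fun i => 1 - Polynomial.C (l i) * Polynomial.X)
          * T.map Polynomial.C := by
      rw [← diagonal_sub, Matrix.mul_sub, Matrix.sub_mul, diagonal_one, Matrix.mul_one, hC,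
        Matrix.map_mul, Matrix.map_mul, diagonal_map (by simp)]
      congr 1
      rw [← Matrix.smul_mul, ← Matrix.mul_smul, ← diagonal_smul]
      congr 3
      funext i
      rw [Pi.smul_apply, smul_eq_mul, mul_comm]
    have hdetC : (S.map Polynomial.C).det * (T.map Polynomial.C).det = 1 := by
      rw [← det_mul, hC, det_one]
    rw [h7, det_mul, det_mul, det_diagonal]
    linear_combination (∏ i, (1 - Polynomial.C (l i) * Polynomial.X)) * hdetC

lemma mol_mul_charpolyRev (g : Matrix σ σ ℝ) {d : ℕ} (hd : d ≠ 0) (hg : g ^ d = 1) :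
    mol g * ((g.map Complex.ofRealHom).charpolyRev : PowerSeries ℂ) = 1 := by
  obtain ⟨l, h1, -, -, -, h2⟩ := exists_eigen g hd hg
  rw [h1, h2, ← Polynomial.coeToPowerSeries.ringHom_apply, map_prod, ← Finset.prod_mul_distrib]
  refine Finset.prod_eq_one fun i _ => ?_
  simpa using geo_mul (l i)

lemma coeff_prod_geo {ι : Type} (s : Finset ι) (l : ι → ℂ) :
    PowerSeries.coeff 0 (∏ i ∈ s, geo (l i)) = 1 ∧
    PowerSeries.coeff 1 (∏ i ∈ s, geo (l i)) = ∑ i ∈ s, l i ∧
    2 * PowerSeries.coeff 2 (∏ i ∈ s, geo (l i)) = (∑ i ∈ s, l i) ^ 2 + ∑ i ∈ s, l i ^ 2 := by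
  classical
  induction s using Finset.induction_on with
  | empty => simp [PowerSeries.coeff_one]
  | insert a s ha ih =>
    obtain ⟨h0, h1, h2⟩ := ih
    simp only [Finset.prod_insert ha, Finset.sum_insert ha, PowerSeries.coeff_mul,
      Finset.Nat.antidiagonal_succ, Finset.Nat.antidiagonal_zero, Finset.sum_cons,
      Finset.map_cons, Finset.sum_singleton, Finset.map_singleton, Function.Embedding.coe_prodMap,
      Function.Embedding.coeFn_mk, Function.Embedding.refl_apply, Prod.map_apply, h0, h1]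
    have hg : ∀ n, PowerSeries.coeff n (geo (l a)) = l a ^ n := fun n => by simp [geo]
    simp only [hg, Nat.succ_eq_add_one, zero_add]
    refine ⟨by simp, by ring, ?_⟩
    linear_combination h2

lemma tk_zero_two (g : Matrix σ σ ℝ) {d : ℕ} (hd : d ≠ 0) (hg : g ^ d = 1) :
    tk g 0 = 1 ∧ 2 * tk g 2 = g.trace ^ 2 + (g ^ 2).trace := by
  obtain ⟨l, h1, h2, -, -, -⟩ := exists_eigen g hd hg
  obtain ⟨a0, -, a2⟩ := coeff_prod_geo univ l
  rw [← h1] at a0 a2
  simp only [mol, PowerSeries.coeff_mk] at a0 a2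
  have t1 := h2 1
  have t2 := h2 2
  simp only [pow_one] at t1
  rw [← t1, ← t2] at a2
  exact ⟨by exact_mod_cast a0, by exact_mod_cast a2⟩

end Pool.Agent.P.MP_13d552_gt
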