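import Pool.Agent.P.MP_13d552_gt.Separate
import Pool.Agent.P.MP_13d552_gt.Conj

set_option autoImplicit false

namespace Pool.Agent.P.MP_13d552_gt
open Finset Matrix

variable {σ : Type} [Fintype σ] [DecidableEq σ] {G : Type} [Group G] {ρ : G →* Matrix σ σ ℝ}

lemma IsFree.comp (h : IsFree ρ) (H : Subgroup G) : IsFree (ρ.comp H.subtype) := by
  intro g v hv
  rcases h g v hv with h1 | h1
  · exact Or.inl (Subtype.ext h1)
  · exact Or.inr h1

lemma IsFree.sum_pow (h : IsFree ρ) {g : G} (hg : g ≠ 1) {d : ℕ} (hd : g ^ d = 1) :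
    ∑ i ∈ range d, ρ g ^ i = 0 := by
  have h1 : (ρ g - 1) * ∑ i ∈ range d, ρ g ^ i = 0 := by
    rw [mul_geom_sum, ← map_pow, hd, map_one, sub_self]
  have h2 : IsUnit (ρ g - 1) :=
    (Matrix.isUnit_iff_isUnit_det _).2 (isUnit_iff_ne_zero.2 (h.det_ne hg))
  exact h2.mul_right_eq_zero.1 h1

lemma IsFree.invol (h : IsFree ρ) {g : G} (hg : g ≠ 1) (hd : g ^ 2 = 1) : ρ g = -1 := by
  have := h.sum_pow hg hd
  simp only [Finset.sum_range_succ, Finset.range_zero, Finset.sum_empty, pow_zero, zero_add,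
    pow_one] at this
  exact eq_neg_of_add_eq_zero_right this

lemma IsFree.tr_zero [Finite G] (h : IsFree ρ) {g a : G} (h1 : Commute (g⁻¹ * a * g) a)
    (h2 : ¬ Commute g a) : (ρ g).trace = 0 := by
  set c := g⁻¹ * a * g * a⁻¹ with hc
  have hc1 : c ≠ 1 := by
    intro h3
    apply h2
    rw [hc, mul_inv_eq_one, mul_assoc, inv_mul_eq_iff_eq_mul] at h3
    exact h3.symm
  have hca : Commute c a := h1.mul_left (Commute.refl a).inv_left
  have h3 : a * g * a⁻¹ = g * c := by simp [hc, mul_assoc]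
  have h4 : ∀ i : ℕ, (ρ (g * c ^ i)).trace = (ρ g).trace := by
    intro i
    induction i with
    | zero => simp
    | succ i ih =>
      have : g * c ^ (i + 1) = a * (g * c ^ i) * a⁻¹ := by
        rw [pow_succ', ← mul_assoc, ← h3, mul_assoc (a * g), (hca.pow_left i).inv_right.eq.symm]
        simp [mul_assoc]
      rw [this, map_mul, trace_mul_comm, ← map_mul, ← mul_assoc, inv_mul_cancel, one_mul, ih]
  have h5 : ∑ i ∈ range (orderOf c), (ρ (g * c ^ i)).trace = 0 := by
    simp only [map_mul, map_pow]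
    rw [← trace_sum, ← Finset.mul_sum, h.sum_pow hc1 (pow_orderOf_eq_one c), mul_zero,
      Matrix.trace_zero]
  simp only [h4, Finset.sum_const, Finset.card_range, nsmul_eq_mul, mul_eq_zero,
    Nat.cast_eq_zero] at h5
  exact h5.resolve_left (orderOf_pos c).ne'

variable [Nonempty σ]

lemma IsFree.eq_one (h : IsFree ρ) {g : G} (hg : ρ g = 1) : g = 1 := by
  rcases h g (fun _ => 1) (by rw [hg, Matrix.one_mulVec]) with h1 | h1
  · exact h1
  · obtain ⟨i⟩ := ‹Nonempty σ›
    simpa using congrFun h1 i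

lemma IsFree.inj (h : IsFree ρ) : Function.Injective ρ :=
  (injective_iff_map_eq_one ρ).2 fun _ hg => h.eq_one hg

omit [Fintype σ] in
lemma one_ne_neg_one : (1 : Matrix σ σ ℝ) ≠ -1 := by
  intro h
  obtain ⟨i⟩ := ‹Nonempty σ›
  have := congrFun (congrFun h i) i
  simp only [Matrix.one_apply_eq, Matrix.neg_apply] at this
  linarith

lemma IsFree.central (h : IsFree ρ) {z : G} (hz : ρ z = -1) (g : G) : Commute z g :=
  h.inj (by simp [hz])

lemma isCyclic_of_comm' {K : Type} [CommGroup K] [Finite K] {τ : K →* Matrix σ σ ℝ}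
    (h : IsFree τ) : IsCyclic K := by
  let φ : MonoidAlgebra ℝ K →ₐ[ℝ] Matrix σ σ ℝ := MonoidAlgebra.lift ℝ _ K τ
  have hker : RingHom.ker φ.toRingHom ≠ ⊤ := RingHom.ker_ne_top _
  obtain ⟨𝔪, h𝔪, hle⟩ := Ideal.exists_le_maximal _ hker
  let f : K →* (MonoidAlgebra ℝ K ⧸ 𝔪) :=
    (Ideal.Quotient.mk 𝔪).toMonoidHom.comp (MonoidAlgebra.of ℝ K)
  refine isCyclic_of_injective_ringHom f ((injective_iff_map_eq_one f).2 fun g hg => ?_)
  by_contra hne
  have h1 : ∑ i ∈ range (orderOf g), MonoidAlgebra.of ℝ K g ^ i ∈ 𝔪 := by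
    apply hle
    rw [RingHom.mem_ker, map_sum]
    simpa [φ] using h.sum_pow hne (pow_orderOf_eq_one g)
  rw [← Ideal.Quotient.eq_zero_iff_mem, map_sum] at h1
  have h2 : ∀ i, Ideal.Quotient.mk 𝔪 (MonoidAlgebra.of ℝ K g ^ i) = 1 := fun i => by
    rw [map_pow]; exact (congrArg (· ^ i) hg).trans (one_pow i)
  simp only [h2, Finset.sum_const, Finset.card_range, nsmul_eq_mul, mul_one] at h1
  have : CharZero (MonoidAlgebra ℝ K ⧸ 𝔪) := algebraRat.charZero _
  exact (orderOf_pos g).ne' (Nat.cast_eq_zero.1 h1)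

lemma IsFree.exists_gen [Finite G] (h : IsFree ρ) (H : Subgroup G) (hH : IsMulCommutative H) :
    ∃ c : G, Subgroup.zpowers c = H ∧ orderOf c = Nat.card H := by
  have : IsCyclic H := by
    let _ : CommGroup H := { (inferInstance : Group H) with mul_comm := hH.is_comm.comm }
    exact isCyclic_of_comm' (h.comp H)
  obtain ⟨c, hc⟩ := H.isCyclic_iff_exists_zpowers_eq_top.1 this
  exact ⟨c, hc, by rw [← hc, Nat.card_zpowers]⟩

lemma IsFree.commute_big [Finite G] (h : IsFree ρ) {a b : G} (hab : Commute a b)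
    (hb : b ∉ Subgroup.zpowers a) : ∃ c : G, orderOf a ∣ orderOf c ∧ orderOf a < orderOf c := by
  obtain ⟨c, hc, -⟩ := h.exists_gen (Subgroup.closure {a, b})
    (Subgroup.isMulCommutative_closure (by
      rintro x (rfl | rfl) y (rfl | rfl)
      exacts [rfl, hab.eq, hab.eq.symm, rfl]))
  have hle : Subgroup.zpowers a ≤ Subgroup.zpowers c := by
    rw [hc, Subgroup.zpowers_le]; exact Subgroup.subset_closure (by simp)
  have hd := Subgroup.card_dvd_of_le hle
  rw [Nat.card_zpowers, Nat.card_zpowers] at hd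
  refine ⟨c, hd, lt_of_le_of_ne (Nat.le_of_dvd (orderOf_pos c) hd) fun he => hb ?_⟩
  rw [Subgroup.eq_of_le_of_card_ge hle (by rw [Nat.card_zpowers, Nat.card_zpowers, he]), hc]
  exact Subgroup.subset_closure (by simp)

lemma IsFree.commute_of_prime [Finite G] (h : IsFree ρ) {x a : G} {p : ℕ} (hp : p.Prime)
    (hx : x ^ p = 1) (hn : x⁻¹ * a * x ∈ Subgroup.zpowers a) : Commute x a := by
  by_contra hc
  have hx1 : x ≠ 1 := by rintro rfl; exact hc (Commute.one_left a)
  have := Fact.mk hp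
  have hox : orderOf x = p := orderOf_eq_prime hx hx1
  have h0 : ∀ y ∈ Subgroup.zpowers a, x⁻¹ * y * x ∈ Subgroup.zpowers a := by
    rintro _ ⟨k, rfl⟩
    have := Subgroup.zpow_mem _ hn k
    rwa [show x⁻¹ * a * x = x⁻¹ * a * x⁻¹⁻¹ by simp, conj_zpow, inv_inv] at this
  have h1 : ∀ i : ℕ, (x ^ i)⁻¹ * a * x ^ i ∈ Subgroup.zpowers a := by
    intro i
    induction i with
    | zero => simp
    | succ i ih =>
      have := h0 _ ih
      rwa [show x⁻¹ * ((x ^ i)⁻¹ * a * x ^ i) * x = (x ^ (i + 1))⁻¹ * a * x ^ (i + 1) by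
        simp [pow_succ, mul_assoc]] at this
  have h2 : ∀ i ∈ range p, i ≠ 0 → (ρ x ^ i).trace = 0 := by
    intro i hi hi0
    rw [← map_pow]
    refine h.tr_zero (a := a) ?_ fun hc' => hc ?_
    · obtain ⟨k, hk⟩ := h1 i
      rw [← hk]; exact (Commute.refl a).zpow_left k
    · have : x ∈ Subgroup.zpowers (x ^ i) := by
        rw [mem_zpowers_pow_iff, hox]
        exact (Nat.coprime_of_lt_prime hi0 (Finset.mem_range.1 hi) hp).symm
      obtain ⟨k, hk⟩ := this
      rw [← hk]; exact hc'.zpow_left k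
  have h3 := congrArg trace (h.sum_pow hx1 hx)
  rw [trace_sum, Finset.sum_eq_single_of_mem 0 (Finset.mem_range.2 hp.pos) h2] at h3
  simp at h3

end Pool.Agent.P.MP_13d552_gt
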