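import Pool.Agent.P.MP_13d552_gt.Groups1

set_option autoImplicit false

namespace Pool.Agent.P.MP_13d552_gt
open Finset Matrix

variable {σ : Type} [Fintype σ] [DecidableEq σ] {G : Type} [Group G] {ρ : G →* Matrix σ σ ℝ}

lemma mul_pow_comm {a b : G} {r : ℕ} (h : b * a = a ^ r * b) (j : ℕ) :
    b * a ^ j = a ^ (r * j) * b := by
  induction j with
  | zero => simp
  | succ j ih => rw [pow_succ, ← mul_assoc, ih, mul_assoc, h, ← mul_assoc, ← pow_add, mul_add,
      mul_one]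

lemma pow_mul_sq {a b : G} {r s : ℕ} (h : b * a = a ^ r * b) (hs : b ^ 2 = a ^ s) (j : ℕ) :
    (a ^ j * b) ^ 2 = a ^ (j * (1 + r) + s) := by
  calc (a ^ j * b) ^ 2 = a ^ j * (b * a ^ j) * b := by simp only [sq, mul_assoc]
    _ = a ^ j * a ^ (r * j) * b ^ 2 := by rw [mul_pow_comm h]; simp only [sq, mul_assoc]
    _ = _ := by rw [hs, ← pow_add, ← pow_add]; congr 1; ring

lemma pow_mul_cube {a b : G} {r s : ℕ} (h : b * a = a ^ r * b) (hs : b ^ 3 = a ^ s) (j : ℕ) :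
    (a ^ j * b) ^ 3 = a ^ (j * (1 + r + r * r) + s) := by
  calc (a ^ j * b) ^ 3 = a ^ j * (b * (a ^ j * (b * a ^ j))) * b := by
        simp only [pow_succ, pow_zero, one_mul, mul_assoc]
    _ = a ^ j * (b * a ^ (j + r * j)) * b * b := by
        rw [mul_pow_comm h, pow_add]; simp only [mul_assoc]
    _ = a ^ j * a ^ (r * (j + r * j)) * b ^ 3 := by
        rw [mul_pow_comm h]; simp only [pow_succ, pow_zero, one_mul, mul_assoc]
    _ = _ := by rw [hs, ← pow_add, ← pow_add]; congr 1; ring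

lemma exists_pow_lt [Finite G] {a x : G} (h : x ∈ Subgroup.zpowers a) :
    ∃ r < orderOf a, x = a ^ r := by
  classical
  rw [mem_zpowers_iff_mem_range_orderOf, Finset.mem_image] at h
  obtain ⟨r, hr, rfl⟩ := h
  exact ⟨r, Finset.mem_range.1 hr, rfl⟩

lemma exists_notMem_list [Finite G] (K : Subgroup G) (L : List G) (h : L.length < Nat.card K) :
    ∃ g ∈ K, g ∉ L := by
  classical
  by_contra hne
  push Not at hne
  have h1 : (K : Set G) ⊆ (L.toFinset : Set G) := fun g hg => by simpa using hne g hg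
  have h2 := Set.ncard_le_ncard h1
  rw [Set.ncard_coe_finset] at h2
  have h3 := List.toFinset_card_le L
  have h4 : (K : Set G).ncard = Nat.card K := rfl
  omega

/-- The matrix of `g` is plus or minus the identity. -/
def pm (ρ : G →* Matrix σ σ ℝ) (g : G) : Prop := ρ g = 1 ∨ ρ g = -1

lemma anticomm {I J : Matrix σ σ ℝ} (hI : I * I = -1) (hJ : J * J = -1)
    (h : I * J * (I * J) = -1) : J * I = -(I * J) := by
  calc J * I = (I * I) * (J * I) * (J * J) := by rw [hI, hJ]; simp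
    _ = I * (I * J * (I * J)) * J := by simp only [Matrix.mul_assoc]
    _ = -(I * J) := by rw [h]; simp

variable [Nonempty σ]

lemma lemmaQ (S : Subgroup G) (hS : ∀ x ∈ S, ¬ pm ρ x → ρ x * ρ x = -1) {x y w : G}
    (hx : x ∈ S) (hy : y ∈ S) (hw : w ∈ S) (h1 : ¬ pm ρ x) (h2 : ¬ pm ρ y) (h3 : ¬ pm ρ w)
    (h4 : ¬ pm ρ (x * y)) (h5 : ¬ pm ρ (x * w)) (h6 : ¬ pm ρ (y * w)) : pm ρ (x * y * w) := by
  by_contra h7
  have key : ∀ a ∈ S, ∀ b ∈ S, ¬ pm ρ a → ¬ pm ρ b → ¬ pm ρ (a * b) →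
      ρ b * ρ a = -(ρ a * ρ b) := fun a ha b hb h1 h2 h3 =>
    anticomm (hS a ha h1) (hS b hb h2) (by simpa using hS _ (S.mul_mem ha hb) h3)
  have e1 := key x hx w hw h1 h3 h5
  have e2 := key y hy w hw h2 h3 h6
  have e3 := key (x * y) (S.mul_mem hx hy) w hw h4 h3 h7
  rw [map_mul, ← Matrix.mul_assoc, e1, neg_mul, Matrix.mul_assoc, e2, mul_neg, neg_neg,
    ← Matrix.mul_assoc, ← map_mul, ← map_mul] at e3
  apply one_ne_neg_one (σ := σ)
  have := congrArg (· * ρ (x * y * w)⁻¹) e3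
  simpa only [neg_mul, ← map_mul, mul_inv_cancel, map_one] using this

lemma IsFree.pm_iff (h : IsFree ρ) {z : G} (hz : ρ z = -1) (g : G) : pm ρ g ↔ g = 1 ∨ g = z := by
  unfold pm
  rw [← hz, ← map_one ρ, h.inj.eq_iff, h.inj.eq_iff]

omit [Nonempty σ] in
lemma IsFree.sq_neg (h : IsFree ρ) {x : G} (hx : x ^ 4 = 1) (h1 : ¬ pm ρ x) :
    ρ x * ρ x = -1 := by
  rw [← map_mul]
  refine h.invol (fun h2 => h1 ?_) (by rw [← sq, ← pow_mul]; exact hx)
  by_cases h3 : x = 1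
  · left; rw [h3, map_one]
  · right; exact h.invol h3 (by rw [sq, h2])

omit [Nonempty σ] in
lemma IsFree.exists_neg [Finite G] (h : IsFree ρ) (h2 : 2 ∣ Nat.card G) :
    ∃ z : G, ρ z = -1 ∧ orderOf z = 2 := by
  obtain ⟨z, hz⟩ := exists_prime_orderOf_dvd_card' 2 h2
  refine ⟨z, h.invol ?_ (by rw [← hz, pow_orderOf_eq_one]), hz⟩
  rintro rfl; simp at hz

lemma IsFree.exists_double [Finite G] (h : IsFree ρ) (h2 : 2 ∣ Nat.card G) (a : G)
    (ha : Nat.Coprime 2 (orderOf a)) : ∃ b : G, orderOf b = 2 * orderOf a := by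
  obtain ⟨z, hz, hz2⟩ := h.exists_neg h2
  exact ⟨z * a, by rw [(h.central hz a).orderOf_mul_eq_mul_orderOf_of_coprime (by rwa [hz2]), hz2]⟩

lemma IsFree.exists_sq [Finite G] (h : IsFree ρ) (p : ℕ) [Fact p.Prime] (hp : p ^ 2 ∣ Nat.card G) :
    ∃ a : G, orderOf a = p ^ 2 := by
  obtain ⟨K, hK⟩ := Sylow.exists_subgroup_card_pow_prime p hp
  obtain ⟨c, -, hc⟩ := h.exists_gen K (IsPGroup.isMulCommutative_of_card_eq_prime_sq hK)
  exact ⟨c, hc.trans hK⟩

lemma IsFree.exists_pq [Finite G] (h : IsFree ρ) (q : ℕ) [hq : Fact q.Prime] (hq3 : q ≠ 3)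
    (hG : Nat.card G = q * 3) (hm : (Nat.card G).minFac = 3) : ∃ a : G, orderOf a = Nat.card G := by
  obtain ⟨a, ha⟩ := exists_prime_orderOf_dvd_card' (G := G) q (hG ▸ Dvd.intro _ rfl)
  obtain ⟨x, hx⟩ := exists_prime_orderOf_dvd_card' (G := G) 3 (hG ▸ Dvd.intro_left _ rfl)
  have hi : (Subgroup.zpowers a).index = 3 := by
    have := (Subgroup.zpowers a).card_mul_index
    rw [Nat.card_zpowers, ha, hG] at this
    exact Nat.eq_of_mul_eq_mul_left hq.out.pos this
  have hn := Subgroup.normal_of_index_eq_minFac_card (hi.trans hm.symm)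
  have hc := h.commute_of_prime (x := x) (a := a) Nat.prime_three
    (by rw [← hx, pow_orderOf_eq_one]) (hn.conj_mem' _ (Subgroup.mem_zpowers a) x)
  refine ⟨a * x, ?_⟩
  rw [hc.symm.orderOf_mul_eq_mul_orderOf_of_coprime, ha, hx, hG]
  rw [ha, hx]
  exact (Nat.coprime_primes hq.out Nat.prime_three).2 hq3

lemma IsFree.exists_27 [Finite G] (h : IsFree ρ) (hG : Nat.card G = 27) :
    ∃ a : G, orderOf a = 27 := by
  obtain ⟨a, ha⟩ := h.exists_sq 3 (by rw [hG]; norm_num)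
  have hi : (Subgroup.zpowers a).index = 3 := by
    have := (Subgroup.zpowers a).card_mul_index
    rw [Nat.card_zpowers, ha, hG] at this
    omega
  have hn : (Subgroup.zpowers a).Normal :=
    Subgroup.normal_of_index_eq_minFac_card (by rw [hi, hG]; norm_num)
  obtain ⟨b, hb⟩ : ∃ b, b ∉ Subgroup.zpowers a := by
    by_contra hne
    push Not at hne
    rw [(Subgroup.eq_top_iff' _).2 hne, Subgroup.index_top] at hi
    omega
  have hc : Commute a b := by
    obtain ⟨r, hr, hr'⟩ := exists_pow_lt (hn.conj_mem _ (Subgroup.mem_zpowers a) b)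
    obtain ⟨s, hs, hs'⟩ := exists_pow_lt (hi ▸ (Subgroup.zpowers a).pow_index_mem b)
    rw [mul_inv_eq_iff_eq_mul] at hr'
    rw [ha] at hr hs
    have e1 : a ^ (r * (r * r)) = a ^ 1 := by
      have h1 : b ^ 3 * a = a ^ (r * (r * r)) * b ^ 3 := by
        calc b ^ 3 * a = b * (b * (b * a)) := by simp only [pow_succ, pow_zero, one_mul, mul_assoc]
          _ = _ := by
            rw [hr', ← mul_assoc b (a ^ r), mul_pow_comm hr', ← mul_assoc, ← mul_assoc,
              mul_pow_comm hr']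
            simp only [pow_succ, pow_zero, one_mul, mul_assoc]
      rw [hs', ← pow_succ, pow_succ'] at h1
      rw [pow_one]; exact (mul_right_cancel h1).symm
    have e2 : a ^ (r * s) = a ^ s := by
      have h1 := mul_pow_comm hr' s
      rw [← hs', ← pow_succ', pow_succ, hs'] at h1
      exact (mul_right_cancel h1).symm
    rw [pow_eq_pow_iff_modEq, ha] at e1 e2
    have key : ∀ r < 9, ∀ s < 9, r * (r * r) ≡ 1 [MOD 3 ^ 2] → r * s ≡ s [MOD 3 ^ 2] →
        r = 1 ∨ ∃ j < 9, 9 ∣ j * (1 + r + r * r) + s := by decide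
    rcases key r hr s hs e1 e2 with rfl | ⟨j, -, hj⟩
    · rw [pow_one] at hr'; exact hr'.symm
    · have h3 : (a ^ j * b) ^ 3 = 1 := by
        rw [pow_mul_cube hr' hs', ← orderOf_dvd_iff_pow_eq_one, ha]; exact hj
      have := h.commute_of_prime (a := a) Nat.prime_three h3
        (hn.conj_mem' _ (Subgroup.mem_zpowers a) _)
      have h4 : Commute ((a ^ j)⁻¹ * (a ^ j * b)) a :=
        ((Commute.refl a).pow_left j).inv_left.mul_left this
      rw [inv_mul_cancel_left] at h4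
      exact h4.symm
  obtain ⟨c, -, hc2⟩ := h.commute_big hc hb
  have hd : orderOf c ∣ 27 := hG ▸ orderOf_dvd_natCard c
  have := Nat.le_of_dvd (by norm_num) hd
  refine ⟨c, ?_⟩
  rw [ha] at hc2
  interval_cases (orderOf c) <;> simp_all

lemma IsFree.exists_16 [Finite G] (h : IsFree ρ) (hG : Nat.card G = 16) :
    ∃ a : G, orderOf a = 8 ∨ orderOf a = 16 := by
  by_contra hne
  push Not at hne
  obtain ⟨z, hz, -⟩ := h.exists_neg (by rw [hG]; norm_num)
  have h4 : ∀ x : G, x ^ 4 = 1 := by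
    intro x
    have hd : orderOf x ∣ 16 := hG ▸ orderOf_dvd_natCard x
    have := Nat.le_of_dvd (by norm_num) hd
    have h1 := hne x
    rw [← orderOf_dvd_iff_pow_eq_one]
    interval_cases (orderOf x) <;> simp_all
  have hT : Nat.card (⊤ : Subgroup G) = 16 := by rw [Subgroup.card_top, hG]
  obtain ⟨x, -, hx⟩ := exists_notMem_list ⊤ [1, z] (by rw [hT]; simp)
  obtain ⟨y, -, hy⟩ := exists_notMem_list ⊤ [1, z, x⁻¹ * 1, x⁻¹ * z] (by rw [hT]; simp)
  obtain ⟨w, -, hw⟩ := exists_notMem_list ⊤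
    [1, z, x⁻¹ * 1, x⁻¹ * z, y⁻¹ * 1, y⁻¹ * z, (x * y)⁻¹ * 1, (x * y)⁻¹ * z] (by rw [hT]; simp)
  simp only [List.mem_cons, List.not_mem_nil, or_false, not_or, eq_inv_mul_iff_mul_eq] at hx hy hw
  have := lemmaQ (ρ := ρ) ⊤ (fun x _ hx => h.sq_neg (h4 x) hx) (x := x) (y := y) (w := w)
    trivial trivial trivial
  simp only [h.pm_iff hz] at this
  tauto

/-- The binary tetrahedral structure. -/
def IsSL23 (ρ : G →* Matrix σ σ ℝ) : Prop :=
  ∃ i j A : G, i ^ 4 = 1 ∧ ρ i * ρ i = -1 ∧ j * i = i ^ 3 * j ∧ j ^ 2 = i ^ 2 ∧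
    (2 : ℝ) • ρ A = -(1 + ρ i + ρ j + ρ i * ρ j) ∧
    ∀ L : Subgroup G, i ∈ L → j ∈ L → A ∈ L → L = ⊤

lemma IsFree.exists_24 [Finite G] (h : IsFree ρ) (hG : Nat.card G = 24)
    (h12 : ∀ a : G, orderOf a ≠ 12) (h24 : ∀ a : G, orderOf a ≠ 24) : IsSL23 ρ := by
  obtain ⟨z, hz, hz2⟩ := h.exists_neg (by rw [hG]; norm_num)
  obtain ⟨A, hA⟩ := exists_prime_orderOf_dvd_card' (G := G) 3 (by rw [hG]; norm_num)
  have hA3 : A ^ 3 = 1 := by rw [← hA, pow_orderOf_eq_one]
  have hcomm : ∀ u : G, A * u * A⁻¹ ∈ Subgroup.zpowers u → orderOf u ≠ 4 ∧ orderOf u ≠ 8 := by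
    intro u hu
    have h1 := h.commute_of_prime (x := A⁻¹) (a := u) Nat.prime_three
      (by rw [inv_pow, hA3, inv_one]) (by rwa [inv_inv])
    have h2 : Commute A u := by simpa using h1.inv_left
    constructor
    · intro h3
      apply h12 (A * u)
      rw [h2.orderOf_mul_eq_mul_orderOf_of_coprime (by rw [hA, h3]; norm_num), hA, h3]
    · intro h3
      apply h24 (A * u)
      rw [h2.orderOf_mul_eq_mul_orderOf_of_coprime (by rw [hA, h3]; norm_num), hA, h3]
  obtain ⟨P, hP⟩ := Sylow.exists_subgroup_card_pow_prime (G := G) 2 (n := 3) (by rw [hG]; norm_num)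
  have hPi : P.index = 3 := by
    have := P.card_mul_index
    rw [hP, hG] at this; omega
  set K := P.normalCore with hKdef
  have hKn : K.Normal := P.normalCore_normal
  have hK6 : K.index ∣ 6 := by
    have : K.index ∣ P.index.factorial := by
      rw [hKdef, Subgroup.normalCore_eq_ker, Subgroup.index_ker, Subgroup.index_eq_card,
        ← Nat.card_perm]
      exact Subgroup.card_subgroup_dvd_card _
    rwa [hPi] at this
  have hK3 : 3 ∣ K.index := hPi ▸ Subgroup.index_dvd_of_le P.normalCore_le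
  have hKc := K.card_mul_index
  have hnc : ∀ c : G, Subgroup.zpowers c = K → orderOf c ≠ 4 ∧ orderOf c ≠ 8 := fun c hc =>
    hcomm c (by rw [hc]; exact hKn.conj_mem _ (hc ▸ Subgroup.mem_zpowers c) A)
  have hK8 : Nat.card K = 8 := by
    have := Nat.le_of_dvd (by norm_num) hK6
    have h4 : Nat.card K ≠ 4 := by
      intro h4
      obtain ⟨c, hc1, hc2⟩ := h.exists_gen K
        (IsPGroup.isMulCommutative_of_card_eq_prime_sq (p := 2) h4)
      exact (hnc c hc1).1 (hc2.trans h4)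
    rw [hG] at hKc
    interval_cases K.index <;> omega
  have hK4 : ∀ x ∈ K, x ^ 4 = 1 := by
    intro x hx
    have hd : orderOf x ∣ 8 := hK8 ▸ K.orderOf_dvd_natCard hx
    have h8 : orderOf x ≠ 8 := fun h8 => (hnc x (Subgroup.eq_of_le_of_card_ge
      (Subgroup.zpowers_le.2 hx) (by rw [hK8, Nat.card_zpowers, h8]))).2 h8
    have := Nat.le_of_dvd (by norm_num) hd
    rw [← orderOf_dvd_iff_pow_eq_one]
    interval_cases (orderOf x) <;> simp_all
  have hS : ∀ x ∈ K, ¬ pm ρ x → ρ x * ρ x = -1 := fun x hx h1 => h.sq_neg (hK4 x hx) h1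
  have hsq : ∀ x ∈ K, ¬ pm ρ x → x * x = z := fun x hx h1 =>
    h.inj (by rw [map_mul, hS x hx h1, hz])
  have hAA : ρ A * ρ A⁻¹ = 1 := by rw [← map_mul, mul_inv_cancel, map_one]
  have hAA' : ρ A⁻¹ * ρ A = 1 := by rw [← map_mul, inv_mul_cancel, map_one]
  have hconj : ∀ u, ¬ pm ρ u → ¬ pm ρ (A * u * A⁻¹) := by
    intro u hu h1
    apply hu
    have e : ρ u = ρ A⁻¹ * ρ (A * u * A⁻¹) * ρ A := by simp [← map_mul, mul_assoc]
    rcases h1 with h1 | h1
    · left; rw [e, h1, mul_one, hAA']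
    · right; rw [e, h1, mul_neg, mul_one, neg_mul, hAA']
  have hprod : ∀ u ∈ K, ¬ pm ρ u → ¬ pm ρ (u * (A * u * A⁻¹)) := by
    intro u hu h1 h2
    have ho : orderOf u = 4 := by
      have := Fact.mk Nat.prime_two
      refine orderOf_eq_prime_pow (p := 2) (n := 1) ?_ (hK4 u hu)
      rw [pow_one, sq, hsq u hu h1]
      rintro rfl; simp at hz2
    refine (hcomm u ?_).1 ho
    rcases (h.pm_iff hz _).1 h2 with h2 | h2
    · rw [eq_inv_of_mul_eq_one_right h2]
      exact Subgroup.inv_mem _ (Subgroup.mem_zpowers u)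
    · rw [← hsq u hu h1, mul_right_inj] at h2
      rw [h2]; exact Subgroup.mem_zpowers u
  have hmem : ∀ u ∈ K, A * u * A⁻¹ ∈ K := fun u hu => hKn.conj_mem u hu A
  have hcyc : ∀ u : G, A * (A * (A * u * A⁻¹) * A⁻¹) * A⁻¹ = u := by
    intro u
    calc A * (A * (A * u * A⁻¹) * A⁻¹) * A⁻¹ = A ^ 3 * u * (A ^ 3)⁻¹ := by
          simp only [pow_succ, pow_zero, one_mul, _root_.mul_inv_rev, mul_assoc]
      _ = u := by rw [hA3]; simp
  have hswap : ∀ u v : G, pm ρ (u * v) → pm ρ (v * u) := by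
    intro u v h1
    rw [h.pm_iff hz] at h1 ⊢
    have e : v * u = u⁻¹ * (u * v) * u := by simp
    rcases h1 with h1 | h1
    · left; rw [e, h1]; simp
    · right; rw [e, h1, mul_assoc, (h.central hz u).eq]; simp
  have hmain : ∀ i ∈ K, ¬ pm ρ i → pm ρ (i * (A * i * A⁻¹) * (A * (A * i * A⁻¹) * A⁻¹)) := by
    intro i hi h1
    refine lemmaQ K hS hi (hmem _ hi) (hmem _ (hmem _ hi)) h1 (hconj _ h1)
      (hconj _ (hconj _ h1)) (hprod _ hi h1) (fun h2 => ?_) (hprod _ (hmem _ hi) (hconj _ h1))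
    have := hprod _ (hmem _ (hmem _ hi)) (hconj _ (hconj _ h1))
    rw [hcyc] at this
    exact this (hswap _ _ h2)
  have hfin : ∀ i ∈ K, ¬ pm ρ i →
      ρ (i * (A * i * A⁻¹) * (A * (A * i * A⁻¹) * A⁻¹)) = -1 → IsSL23 ρ := by
    intro i hi h1 h2
    obtain ⟨j, hj⟩ : ∃ j, j = A * i * A⁻¹ := ⟨_, rfl⟩
    obtain ⟨k, hk⟩ : ∃ k, k = A * j * A⁻¹ := ⟨_, rfl⟩
    have hjK : j ∈ K := hj ▸ hmem _ hi
    have hj1 : ¬ pm ρ j := hj ▸ hconj _ h1
    have hij : ¬ pm ρ (i * j) := hj ▸ hprod _ hi h1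
    rw [← hj, ← hk, map_mul, map_mul] at h2
    have hI := hS i hi h1
    have hJ := hS j hjK hj1
    have hIJ : ρ i * ρ j * (ρ i * ρ j) = -1 := by simpa using hS _ (K.mul_mem hi hjK) hij
    have hJI := anticomm hI hJ hIJ
    have hK : ρ k = ρ i * ρ j := by
      calc ρ k = -((ρ i * ρ j * (ρ i * ρ j)) * ρ k) := by rw [hIJ]; simp
        _ = -(ρ i * ρ j * (ρ i * ρ j * ρ k)) := by simp only [Matrix.mul_assoc]
        _ = _ := by rw [h2]; simp
    have hAI : ρ A * ρ i = ρ j * ρ A := by rw [← map_mul, ← map_mul, hj]; simp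
    have hAJ : ρ A * ρ j = ρ k * ρ A := by rw [← map_mul, ← map_mul, hk]; simp
    have hA1 : A ≠ 1 := by rintro rfl; simp at hA
    have hA3' : ρ A * ρ A * ρ A = 1 := by
      rw [← map_mul, ← map_mul, ← map_one ρ, ← hA3]; simp [pow_succ]
    have hW : ρ (z * i * A) = -(ρ i * ρ A) := by simp [hz]
    have hW2 : ρ i * ρ A * (ρ i * ρ A) = ρ k * (ρ A * ρ A) := by
      calc ρ i * ρ A * (ρ i * ρ A) = ρ i * (ρ A * ρ i) * ρ A := by simp only [Matrix.mul_assoc]
        _ = _ := by rw [hAI, hK]; simp only [Matrix.mul_assoc]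
    have hw3 : (z * i * A) ^ 3 = 1 := by
      apply h.eq_one
      rw [map_pow, hW, pow_succ, sq, neg_mul_neg, hW2]
      calc ρ k * (ρ A * ρ A) * -(ρ i * ρ A) = -(ρ k * ρ A * (ρ A * ρ i) * ρ A) := by
            simp only [Matrix.mul_assoc, mul_neg]
        _ = -(ρ k * (ρ A * ρ j) * (ρ A * ρ A)) := by rw [hAI]; simp only [Matrix.mul_assoc]
        _ = -(ρ k * ρ k * (ρ A * ρ A * ρ A)) := by rw [hAJ]; simp only [Matrix.mul_assoc]
        _ = 1 := by rw [hA3', hK, hIJ]; simp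
    have hw1 : z * i * A ≠ 1 := by
      intro h3
      rw [h3, map_one] at hW
      have h4 : A = i := h.inj (by
        calc ρ A = -((ρ i * ρ i) * ρ A) := by rw [hI]; simp
          _ = ρ i * -(ρ i * ρ A) := by simp only [Matrix.mul_assoc, mul_neg]
          _ = ρ i := by rw [← hW, mul_one])
      apply hA1
      have h5 := hK4 i hi
      rw [← h4, pow_succ, hA3, one_mul] at h5
      exact h5
    have s1 := h.sum_pow hw1 hw3
    have s2 := h.sum_pow hA1 hA3
    simp only [Finset.sum_range_succ, Finset.range_zero, Finset.sum_empty, pow_zero, zero_add,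
      pow_one, sq] at s1 s2
    rw [hW, neg_mul_neg, hW2, (eq_neg_of_add_eq_zero_right s2), hK] at s1
    have s3 : (ρ i + ρ i * ρ j) * ρ A = 1 - ρ i * ρ j := by
      rw [← sub_eq_zero, ← neg_eq_zero, ← s1]; noncomm_ring
    have s4 : ρ i * (ρ i * ρ j) = -ρ j := by rw [← Matrix.mul_assoc, hI]; simp
    have s5 : ρ i * ρ j * ρ i = ρ j := by rw [Matrix.mul_assoc, hJI, mul_neg, s4, neg_neg]
    refine ⟨i, j, A, hK4 i hi, hI, h.inj ?_, h.inj ?_, ?_, fun L hiL hjL hAL => ?_⟩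
    · rw [map_mul, map_mul, map_pow, pow_succ, sq, hI, hJI]; simp
    · rw [map_pow, map_pow, sq, sq, hI, hJ]
    · have s6 : (ρ i + ρ i * ρ j) * (ρ i + ρ i * ρ j) = -(1 + 1) := by
        rw [mul_add, add_mul, add_mul, hI, s4, s5, hIJ]; abel
      have s7 := congrArg ((ρ i + ρ i * ρ j) * ·) s3
      rw [← Matrix.mul_assoc, s6, mul_sub, mul_one, add_mul (ρ i), s4, hIJ] at s7
      rw [two_smul, ← neg_eq_iff_eq_neg]
      calc -(ρ A + ρ A) = -(1 + 1) * ρ A := by noncomm_ring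
        _ = _ := by rw [s7]; abel
    · have hzL : z ∈ L := hsq i hi h1 ▸ L.mul_mem hiL hiL
      have hpm : ∀ u ∈ L, ∀ w, pm ρ (u * w) → w ∈ L := by
        intro u hu w h3
        rw [← L.mul_mem_cancel_left hu]
        rcases (h.pm_iff hz _).1 h3 with h3 | h3 <;> rw [h3]
        exacts [L.one_mem, hzL]
      have hKL : K ≤ L := by
        intro w hw
        by_contra hwL
        exact hwL (hpm _ (L.mul_mem hiL hjL) w (lemmaQ K hS hi hjK hw h1 hj1
          (fun h3 => hwL (hpm 1 L.one_mem w (by rwa [one_mul]))) hij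
          (fun h3 => hwL (hpm i hiL w h3)) (fun h3 => hwL (hpm j hjL w h3))))
      have d8 : 8 ∣ Nat.card L := hK8 ▸ Subgroup.card_dvd_of_le hKL
      have d3 : 3 ∣ Nat.card L := hA ▸ L.orderOf_dvd_natCard hAL
      have d24 : 8 * 3 ∣ Nat.card L := Nat.Coprime.mul_dvd_of_dvd_of_dvd (by norm_num) d8 d3
      exact Subgroup.eq_top_of_le_card _ (hG ▸ Nat.le_of_dvd Nat.card_pos d24)
  obtain ⟨i, hi, hi'⟩ := exists_notMem_list K [1, z] (by rw [hK8]; simp)
  have h1 : ¬ pm ρ i := by rw [h.pm_iff hz]; simpa using hi'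
  rcases hmain i hi h1 with h2 | h2
  · have hzK : z ∈ K := hsq i hi h1 ▸ K.mul_mem hi hi
    refine hfin (z * i) (K.mul_mem hzK hi) (fun h3 => h1 ?_) ?_
    · rcases h3 with h3 | h3
      · right; rw [map_mul, hz, neg_one_mul, neg_eq_iff_eq_neg] at h3; exact h3
      · left; rw [map_mul, hz, neg_one_mul, neg_inj] at h3; exact h3
    · rw [← h2]; simp [hz]
  · exact hfin i hi h1 h2

theorem IsFree.classify [Finite G] (h : IsFree ρ) (hN : Nat.card G ≤ 27) (hc : ¬ IsCyclic G) :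
    (∃ a : G, 2 * orderOf a = Nat.card G ∧ orderOf a ∈ [4, 6, 8, 10, 12]) ∨
    (Nat.card G = 24 ∧ (∀ a : G, orderOf a ≠ 12) ∧ IsSL23 ρ) := by
  have hc' : ∀ a : G, orderOf a ≠ Nat.card G := fun a ha => hc (isCyclic_of_orderOf_eq_card a ha)
  have hpos : 0 < Nat.card G := Nat.card_pos
  have hp : ∀ p : ℕ, p.Prime → p ∣ Nat.card G → ∃ a : G, orderOf a = p := fun p hp hd =>
    have := Fact.mk hp
    exists_prime_orderOf_dvd_card' p hd
  have hp2 : ∀ p : ℕ, p.Prime → p ^ 2 ∣ Nat.card G → ∃ a : G, orderOf a = p ^ 2 := fun p hp hd =>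
    have := Fact.mk hp
    h.exists_sq p hd
  have hd : ∀ m : ℕ, 2 ∣ Nat.card G → Nat.Coprime 2 m → (∃ a : G, orderOf a = m) →
      ∃ a : G, orderOf a = 2 * m := by
    rintro m h2 hm ⟨a, rfl⟩
    exact h.exists_double h2 a hm
  have hf : ∀ m : ℕ, (∃ a : G, orderOf a = m) → m ≠ Nat.card G := by
    rintro m ⟨a, rfl⟩; exact hc' a
  have hg : ∀ m : ℕ, (∃ a : G, orderOf a = m) → 2 * m = Nat.card G → m ∈ [4, 6, 8, 10, 12] →
      ∃ a : G, 2 * orderOf a = Nat.card G ∧ orderOf a ∈ [4, 6, 8, 10, 12] := by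
    rintro m ⟨a, rfl⟩ h1 h2; exact ⟨a, h1, h2⟩
  have h15 := fun h1 h2 => hf _ (@IsFree.exists_pq _ _ _ _ _ _ _ _ h 5 ⟨by norm_num⟩ (by norm_num)
    h1 h2) rfl
  have h21 := fun h1 h2 => hf _ (@IsFree.exists_pq _ _ _ _ _ _ _ _ h 7 ⟨by norm_num⟩ (by norm_num)
    h1 h2) rfl
  have h27 := h.exists_27
  have h16 := h.exists_16
  have h24 := h.exists_24
  obtain ⟨N, hNG⟩ : ∃ N, Nat.card G = N := ⟨_, rfl⟩
  rw [hNG] at hN hpos hp hp2 hd hf hg h15 h21 h27 h16 h24 ⊢
  interval_cases N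
  · exact absurd rfl (hf 1 ⟨1, orderOf_one⟩)
  · exact absurd rfl (hf _ (hp 2 (by norm_num) dvd_rfl))
  · exact absurd rfl (hf _ (hp 3 (by norm_num) dvd_rfl))
  · exact absurd rfl (hf _ (hp2 2 (by norm_num) dvd_rfl))
  · exact absurd rfl (hf _ (hp 5 (by norm_num) dvd_rfl))
  · exact absurd rfl (hf _ (hd 3 (by norm_num) (by norm_num) (hp 3 (by norm_num) (by norm_num))))
  · exact absurd rfl (hf _ (hp 7 (by norm_num) dvd_rfl))
  · exact Or.inl (hg _ (hp2 2 (by norm_num) (by norm_num)) rfl (by simp))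
  · exact absurd rfl (hf _ (hp2 3 (by norm_num) dvd_rfl))
  · exact absurd rfl (hf _ (hd 5 (by norm_num) (by norm_num) (hp 5 (by norm_num) (by norm_num))))
  · exact absurd rfl (hf _ (hp 11 (by norm_num) dvd_rfl))
  · exact Or.inl (hg _ (hd 3 (by norm_num) (by norm_num) (hp 3 (by norm_num) (by norm_num))) rfl
      (by simp))
  · exact absurd rfl (hf _ (hp 13 (by norm_num) dvd_rfl))
  · exact absurd rfl (hf _ (hd 7 (by norm_num) (by norm_num) (hp 7 (by norm_num) (by norm_num))))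
  · exact absurd (h15 rfl (by norm_num)) not_false
  · obtain ⟨a, ha | ha⟩ := h16 rfl
    · exact Or.inl (hg _ ⟨a, ha⟩ rfl (by simp))
    · exact absurd rfl (hf _ ⟨a, ha⟩)
  · exact absurd rfl (hf _ (hp 17 (by norm_num) dvd_rfl))
  · exact absurd rfl (hf _ (hd (3 ^ 2) (by norm_num) (by norm_num)
      (hp2 3 (by norm_num) (by norm_num))))
  · exact absurd rfl (hf _ (hp 19 (by norm_num) dvd_rfl))
  · exact Or.inl (hg _ (hd 5 (by norm_num) (by norm_num) (hp 5 (by norm_num) (by norm_num))) rfl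
      (by simp))
  · exact absurd (h21 rfl (by norm_num)) not_false
  · exact absurd rfl (hf _ (hd 11 (by norm_num) (by norm_num) (hp 11 (by norm_num) (by norm_num))))
  · exact absurd rfl (hf _ (hp 23 (by norm_num) dvd_rfl))
  · by_cases h12 : ∃ a : G, orderOf a = 12
    · exact Or.inl (hg _ h12 rfl (by simp))
    · push Not at h12
      exact Or.inr ⟨rfl, h12, h24 rfl h12 fun a ha => hf _ ⟨a, ha⟩ rfl⟩
  · exact absurd rfl (hf _ (hp2 5 (by norm_num) dvd_rfl))
  · exact absurd rfl (hf _ (hd 13 (by norm_num) (by norm_num) (hp 13 (by norm_num) (by norm_num))))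
  · exact absurd rfl (hf _ (h27 rfl))

end Pool.Agent.P.MP_13d552_gt
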