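import Pool.Agent.P.MP_13d552_gt.Cert

set_option autoImplicit false

namespace Pool.Agent.P.MP_13d552_gt

lemma check_13_2 : check 13 1 [1, 2, 3, 4, 5, 6]
    [2, 4, 5, 6]
    [2, 3, 4, 6]
    [1, 3]
    [1, 5] = true := by
  decide +kernel

lemma pair_13_2 (r n : ℕ) (hn : n = 4 + r * 6) : HasPair n 13 :=
  hasPair_of_check check_13_2 r n hn (by omega)

lemma check_13_3 : check 13 1 [1, 2, 3, 4, 5, 6]
    [3, 5, 6]
    [3, 4, 6]
    [1, 2, 4]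
    [1, 2, 5] = true := by
  decide +kernel

lemma pair_13_3 (r n : ℕ) (hn : n = 3 + r * 6) : HasPair n 13 :=
  hasPair_of_check check_13_3 r n hn (by omega)

lemma check_13_4 : check 13 2 [1, 2, 3, 4, 5, 6]
    [2, 2, 3, 4, 4, 5, 6, 6]
    [2, 2, 3, 3, 4, 5, 5, 6]
    [1, 1, 3, 5]
    [1, 1, 4, 6] = true := by
  decide +kernel

lemma pair_13_4 (r n : ℕ) (hn : n = 8 + r * 6) : HasPair n 13 :=
  hasPair_of_check check_13_4 r n hn (by omega)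

lemma check_13_5 : check 13 2 [1, 2, 3, 4, 5, 6]
    [2, 3, 3, 5, 5, 6, 6]
    [2, 3, 3, 4, 4, 6, 6]
    [1, 1, 2, 4, 4]
    [1, 1, 2, 5, 5] = true := by
  decide +kernel

lemma pair_13_5 (r n : ℕ) (hn : n = 7 + r * 6) : HasPair n 13 :=
  hasPair_of_check check_13_5 r n hn (by omega)

lemma check_27_3 : check 27 1 [1, 2, 4, 5, 7, 8, 10, 11, 13]
    [4, 5, 7, 8, 10, 13]
    [2, 5, 7, 8, 11, 13]
    [1, 2, 11]
    [1, 4, 10] = true := by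
  decide +kernel

lemma pair_27_3 (r n : ℕ) (hn : n = 6 + r * 9) : HasPair n 27 :=
  hasPair_of_check check_27_3 r n hn (by omega)

lemma check_27_6 : check 27 2 [1, 2, 4, 5, 7, 8, 10, 11, 13]
    [2, 2, 4, 4, 5, 7, 7, 8, 10, 11, 13, 13]
    [2, 2, 4, 4, 5, 5, 7, 8, 10, 11, 11, 13]
    [1, 1, 5, 8, 10, 11]
    [1, 1, 7, 8, 10, 13] = true := by
  decide +kernel

lemma pair_27_6 (r n : ℕ) (hn : n = 12 + r * 9) : HasPair n 27 :=
  hasPair_of_check check_27_6 r n hn (by omega)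

lemma check_27_9 : check 27 3 [1, 2, 4, 5, 7, 8, 10, 11, 13]
    [2, 2, 2, 4, 5, 5, 5, 7, 7, 8, 8, 8, 10, 10, 11, 11, 11, 13]
    [2, 2, 2, 4, 4, 4, 5, 7, 7, 7, 8, 8, 10, 10, 10, 11, 11, 13]
    [1, 1, 1, 4, 4, 7, 10, 13, 13]
    [1, 1, 1, 5, 5, 8, 11, 13, 13] = true := by
  decide +kernel

lemma pair_27_9 (r n : ℕ) (hn : n = 18 + r * 9) : HasPair n 27 :=
  hasPair_of_check check_27_9 r n hn (by omega)

lemma check_25_3 : check 25 1 [1, 2, 3, 4, 6, 7, 8, 9, 11, 12]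
    [2, 3, 7, 8, 9, 11, 12]
    [2, 3, 6, 7, 8, 9, 12]
    [1, 4, 6]
    [1, 4, 11] = true := by
  decide +kernel

lemma pair_25_3 (r n : ℕ) (hn : n = 7 + r * 10) : HasPair n 25 :=
  hasPair_of_check check_25_3 r n hn (by omega)

lemma check_25_5 : check 25 1 [1, 2, 3, 4, 6, 7, 8, 9, 11, 12]
    [3, 6, 7, 8, 12]
    [3, 4, 7, 8, 12]
    [1, 2, 4, 9, 11]
    [1, 2, 6, 9, 11] = true := by
  decide +kernel

lemma pair_25_5 (r n : ℕ) (hn : n = 5 + r * 10) : HasPair n 25 :=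
  hasPair_of_check check_25_5 r n hn (by omega)

lemma check_25_7 : check 25 2 [1, 2, 3, 4, 6, 7, 8, 9, 11, 12]
    [2, 2, 3, 3, 4, 6, 7, 7, 8, 9, 11, 12, 12]
    [2, 2, 3, 3, 4, 6, 7, 7, 8, 8, 9, 11, 12]
    [1, 1, 4, 6, 8, 9, 11]
    [1, 1, 4, 6, 9, 11, 12] = true := by
  decide +kernel

lemma pair_25_7 (r n : ℕ) (hn : n = 13 + r * 10) : HasPair n 25 :=
  hasPair_of_check check_25_7 r n hn (by omega)

lemma check_25_9 : check 25 2 [1, 2, 3, 4, 6, 7, 8, 9, 11, 12]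
    [2, 3, 3, 4, 7, 7, 8, 9, 11, 12, 12]
    [2, 2, 3, 4, 6, 7, 7, 8, 11, 12, 12]
    [1, 1, 2, 4, 6, 6, 8, 9, 11]
    [1, 1, 3, 4, 6, 8, 9, 9, 11] = true := by
  decide +kernel

lemma pair_25_9 (r n : ℕ) (hn : n = 11 + r * 10) : HasPair n 25 :=
  hasPair_of_check check_25_9 r n hn (by omega)

lemma check_25_11 : check 25 3 [1, 2, 3, 4, 6, 7, 8, 9, 11, 12]
    [2, 2, 2, 3, 3, 4, 6, 6, 7, 7, 7, 8, 8, 9, 9, 11, 11, 12, 12]
    [1, 2, 3, 3, 4, 4, 4, 6, 6, 6, 7, 8, 9, 9, 9, 11, 11, 12, 12]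
    [1, 1, 1, 3, 4, 4, 6, 8, 9, 11, 12]
    [1, 1, 2, 2, 3, 7, 7, 8, 8, 11, 12] = true := by
  decide +kernel

lemma pair_25_11 (r n : ℕ) (hn : n = 19 + r * 10) : HasPair n 25 :=
  hasPair_of_check check_25_11 r n hn (by omega)

theorem exists_pair (n : ℕ) (hn : 3 ≤ n) : ∃ q ≤ 27, HasPair n q := by
  have h6 : n % 6 < 6 := Nat.mod_lt _ (by norm_num)
  obtain ⟨a, ha⟩ : ∃ a, n % 6 = a := ⟨_, rfl⟩
  rw [ha] at h6
  interval_cases a
  · have h3 : (n / 6) % 3 < 3 := Nat.mod_lt _ (by norm_num)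
    obtain ⟨b, hb⟩ : ∃ b, (n / 6) % 3 = b := ⟨_, rfl⟩
    rw [hb] at h3
    interval_cases b
    · exact ⟨27, by norm_num, pair_27_9 ((n - 18) / 9) n (by omega)⟩
    · exact ⟨27, by norm_num, pair_27_3 ((n - 6) / 9) n (by omega)⟩
    · exact ⟨27, by norm_num, pair_27_6 ((n - 12) / 9) n (by omega)⟩
  · exact ⟨13, by norm_num, pair_13_5 ((n - 7) / 6) n (by omega)⟩
  · exact ⟨13, by norm_num, pair_13_4 ((n - 8) / 6) n (by omega)⟩
  · exact ⟨13, by norm_num, pair_13_3 ((n - 3) / 6) n (by omega)⟩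
  · exact ⟨13, by norm_num, pair_13_2 ((n - 4) / 6) n (by omega)⟩
  · have h5 : (n / 6) % 5 < 5 := Nat.mod_lt _ (by norm_num)
    obtain ⟨b, hb⟩ : ∃ b, (n / 6) % 5 = b := ⟨_, rfl⟩
    rw [hb] at h5
    interval_cases b
    · exact ⟨25, by norm_num, pair_25_5 ((n - 5) / 10) n (by omega)⟩
    · exact ⟨25, by norm_num, pair_25_9 ((n - 11) / 10) n (by omega)⟩
    · exact ⟨25, by norm_num, pair_25_3 ((n - 7) / 10) n (by omega)⟩
    · exact ⟨25, by norm_num, pair_25_7 ((n - 13) / 10) n (by omega)⟩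
    · exact ⟨25, by norm_num, pair_25_11 ((n - 19) / 10) n (by omega)⟩

end Pool.Agent.P.MP_13d552_gt
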