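import Pool.Agent.P.MP_13d552_gt.Molien

set_option autoImplicit false

namespace Pool.Agent.P.MP_13d552_gt
open MvPolynomial Finset Matrix

variable {σ : Type} [Fintype σ] [DecidableEq σ]

/-- The Laplacian on polynomials. -/
noncomputable def lap (σ : Type) [Fintype σ] : MvPolynomial σ ℝ →ₗ[ℝ] MvPolynomial σ ℝ :=
  ∑ i : σ,
    (pderiv i : Derivation ℝ (MvPolynomial σ ℝ) (MvPolynomial σ ℝ)).toLinearMap
      ∘ₗ (pderiv i : Derivation ℝ (MvPolynomial σ ℝ) (MvPolynomial σ ℝ)).toLinearMap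

omit [DecidableEq σ] in
lemma lap_apply (p : MvPolynomial σ ℝ) : lap σ p = ∑ i, pderiv i (pderiv i p) := by
  simp [lap, LinearMap.sum_apply]

/-- Polynomials fixed by a group of orthogonal matrices. -/
noncomputable def fixd (Γ : Subgroup (orthogonalGroup σ ℝ)) : Submodule ℝ (MvPolynomial σ ℝ) :=
  ⨅ g ∈ Γ, LinearMap.eqLocus (sub (g : Matrix σ σ ℝ)).toLinearMap
    (LinearMap.id : MvPolynomial σ ℝ →ₗ[ℝ] MvPolynomial σ ℝ)

lemma mem_fixd (Γ : Subgroup (orthogonalGroup σ ℝ)) (p : MvPolynomial σ ℝ) :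
    p ∈ fixd Γ ↔ ∀ g ∈ Γ, sub (g : Matrix σ σ ℝ) p = p := by
  simp [fixd, Submodule.mem_iInf, LinearMap.mem_eqLocus]

/-- Dimension of invariant harmonic polynomials of degree `k`. -/
noncomputable def dk (Γ : Subgroup (orthogonalGroup σ ℝ)) (k : ℕ) : ℕ :=
  Module.finrank ℝ ↥(homogeneousSubmodule σ ℝ k ⊓ LinearMap.ker (lap σ) ⊓ fixd Γ)

/-- Dimension of invariant polynomials of degree `k`. -/
noncomputable def pk (Γ : Subgroup (orthogonalGroup σ ℝ)) (k : ℕ) : ℕ :=
  Module.finrank ℝ ↥(homogeneousSubmodule σ ℝ k ⊓ fixd Γ)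

lemma pderiv_sub (M : Matrix σ σ ℝ) (j : σ) (p : MvPolynomial σ ℝ) :
    pderiv j (sub M p) = ∑ i, M i j • sub M (pderiv i p) := by
  induction p using MvPolynomial.induction_on with
  | C a => simp [sub]
  | add p q hp hq => simp [hp, hq, Finset.sum_add_distrib]
  | mul_X p l hp =>
    have h1 : pderiv j (sub M (X l)) = C (M l j) := by
      rw [sub_X, map_sum, Finset.sum_eq_single j]
      · simp [smul_eq_C_mul]
      · intro b _ hb
        simp [pderiv_X_of_ne hb]
      · simp
    have h2 : ∑ i, M i j • sub M (p * pderiv i (X l)) = sub M p * C (M l j) := by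
      rw [Finset.sum_eq_single l]
      · simp [smul_eq_C_mul, mul_comm]
      · intro b _ hb
        simp [pderiv_X_of_ne hb.symm]
      · simp
    rw [map_mul, pderiv_mul, hp, h1]
    simp only [pderiv_mul, map_add, smul_add, Finset.sum_add_distrib, h2, Finset.sum_mul,
      smul_mul_assoc]
    simp

lemma lap_sub (M : Matrix σ σ ℝ) (hM : M * Mᵀ = 1) (p : MvPolynomial σ ℝ) :
    lap σ (sub M p) = sub M (lap σ p) := by
  simp only [lap_apply, pderiv_sub, map_sum, Derivation.map_smul, Finset.smul_sum, smul_smul]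
  rw [Finset.sum_comm]
  refine Finset.sum_congr rfl fun i _ => ?_
  rw [Finset.sum_comm]
  have : ∀ l, ∑ j, (M i j * M l j) • sub M (pderiv l (pderiv i p))
      = (1 : Matrix σ σ ℝ) i l • sub M (pderiv l (pderiv i p)) := by
    intro l
    rw [← Finset.sum_smul, ← hM]
    simp [Matrix.mul_apply]
  simp only [this]
  simp [Matrix.one_apply]

omit [DecidableEq σ] in
lemma lap_homog {p : MvPolynomial σ ℝ} {k : ℕ} (hp : p.IsHomogeneous (k + 2)) :
    (lap σ p).IsHomogeneous k := by
  rw [lap_apply]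
  apply IsHomogeneous.sum
  intro i _
  exact (hp.pderiv (i := i)).pderiv

omit [DecidableEq σ] in
lemma lap_low {p : MvPolynomial σ ℝ} {k : ℕ} (hk : k ≤ 1) (hp : p.IsHomogeneous k) :
    lap σ p = 0 := by
  rw [lap_apply]
  refine Finset.sum_eq_zero fun i _ => ?_
  have h := hp.pderiv (i := i)
  rw [show k - 1 = 0 by omega, ← totalDegree_zero_iff_isHomogeneous,
    totalDegree_eq_zero_iff_eq_C] at h
  rw [h, pderiv_C]

lemma monomial_mem_lap (i0 : σ) (k : ℕ) : ∀ (N : ℕ) (s : σ →₀ ℕ), s.degree = k → k - s i0 < N →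
    (monomial s (1 : ℝ)) ∈ (homogeneousSubmodule σ ℝ (k + 2)).map (lap σ) := by
  intro N
  induction N with
  | zero => intro s _ h; omega
  | succ N ih =>
    intro s hs hN
    set R := (homogeneousSubmodule σ ℝ (k + 2)).map (lap σ)
    set t : σ →₀ ℕ := s + Finsupp.single i0 2 with ht
    have htd : t.degree = k + 2 := by rw [ht, map_add, hs, Finsupp.degree_single]
    have h1 : lap σ (monomial t 1) ∈ R :=
      Submodule.mem_map_of_mem (isHomogeneous_monomial _ htd)
    rw [lap_apply, ← Finset.add_sum_erase _ _ (Finset.mem_univ i0)] at h1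
    have h2 : ∑ i ∈ univ.erase i0, pderiv i (pderiv i (monomial t (1 : ℝ))) ∈ R := by
      apply Submodule.sum_mem
      intro i hi
      have hi' : i ≠ i0 := Finset.ne_of_mem_erase hi
      have hti : t i = s i := by simp [ht, hi']
      rw [pderiv_monomial, pderiv_monomial]
      by_cases h2 : 2 ≤ s i
      · have hdeg : (t - Finsupp.single i 1 - Finsupp.single i 1).degree = k := by
          have : t = (t - Finsupp.single i 1 - Finsupp.single i 1) + Finsupp.single i 2 := by
            ext j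
            by_cases hj : j = i
            · subst hj; simp; omega
            · simp [hj]
          have h3 := congrArg Finsupp.degree this
          rw [htd, map_add, Finsupp.degree_single] at h3
          omega
        have hi0 : (t - Finsupp.single i 1 - Finsupp.single i 1 : σ →₀ ℕ) i0 = s i0 + 2 := by
          simp [ht, hi'.symm]
        have hle := Finsupp.le_degree i0 (t - Finsupp.single i 1 - Finsupp.single i 1)
        have := ih _ hdeg (by omega)
        rw [← mul_one (_ * _ : ℝ), ← smul_eq_mul, ← smul_monomial]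
        exact Submodule.smul_mem _ _ this
      · have : (1 * (t i : ℝ) * ((t - Finsupp.single i 1 : σ →₀ ℕ) i : ℝ)) = 0 := by
          have h4 : (t - Finsupp.single i 1 : σ →₀ ℕ) i = s i - 1 := by simp [hti]
          rw [h4, hti]
          rcases (show s i = 0 ∨ s i = 1 by omega) with h | h <;> simp [h]
        rw [this]; simp
    have h3 := Submodule.sub_mem _ h1 h2
    rw [add_sub_cancel_right, pderiv_monomial, pderiv_monomial] at h3
    have h4 : t - Finsupp.single i0 1 - Finsupp.single i0 1 = s := by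
      ext j
      by_cases hj : j = i0
      · subst hj; simp [ht]
      · simp [ht, hj]
    have h5 : (1 * (t i0 : ℝ) * ((t - Finsupp.single i0 1 : σ →₀ ℕ) i0 : ℝ)) ≠ 0 := by
      have : (t - Finsupp.single i0 1 : σ →₀ ℕ) i0 = s i0 + 1 := by simp [ht]
      rw [this]
      have : t i0 = s i0 + 2 := by simp [ht]
      rw [this]
      positivity
    rw [h4, ← mul_one (_ * _ : ℝ), ← smul_eq_mul, ← smul_monomial] at h3
    exact (Submodule.smul_mem_iff _ h5).1 h3

lemma lap_surj [Nonempty σ] {k : ℕ} {p : MvPolynomial σ ℝ} (hp : p.IsHomogeneous k) :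
    ∃ f : MvPolynomial σ ℝ, f.IsHomogeneous (k + 2) ∧ lap σ f = p := by
  obtain ⟨i0⟩ := ‹Nonempty σ›
  have : p ∈ (homogeneousSubmodule σ ℝ (k + 2)).map (lap σ) := by
    rw [p.as_sum]
    apply Submodule.sum_mem
    intro s hs
    rw [← mul_one (coeff s p), ← smul_eq_mul, ← smul_monomial]
    apply Submodule.smul_mem
    apply monomial_mem_lap i0 k (k - s i0 + 1) s _ (by omega)
    by_contra h
    exact (mem_support_iff.1 hs) (hp.coeff_eq_zero h)
  exact this

instance finite_inf (k : ℕ) (W : Submodule ℝ (MvPolynomial σ ℝ)) :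
    Module.Finite ℝ ↥(homogeneousSubmodule σ ℝ k ⊓ W) :=
  Submodule.finiteDimensional_of_le (inf_le_left (a := homogeneousSubmodule σ ℝ k) (b := W))

lemma pk_low (Γ : Subgroup (orthogonalGroup σ ℝ)) {k : ℕ} (hk : k ≤ 1) : pk Γ k = dk Γ k := by
  unfold pk dk
  have : homogeneousSubmodule σ ℝ k ⊓ LinearMap.ker (lap σ) = homogeneousSubmodule σ ℝ k :=
    inf_eq_left.2 fun p hp => lap_low hk hp
  rw [this]

lemma pk_add_two [Nonempty σ] (Γ : Subgroup (orthogonalGroup σ ℝ)) [Finite Γ] (k : ℕ) :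
    pk Γ (k + 2) = dk Γ (k + 2) + pk Γ k := by
  classical
  have := Fintype.ofFinite Γ
  set A := homogeneousSubmodule σ ℝ (k + 2) ⊓ fixd Γ with hA
  have h := LinearMap.finrank_range_add_finrank_ker ((lap σ).domRestrict A)
  have hr : LinearMap.range ((lap σ).domRestrict A) = homogeneousSubmodule σ ℝ k ⊓ fixd Γ := by
    rw [LinearMap.range_domRestrict]
    apply le_antisymm
    · rintro _ ⟨f, ⟨hf1, hf2⟩, rfl⟩
      refine ⟨lap_homog hf1, (mem_fixd _ _).2 fun g hg => ?_⟩
      rw [← lap_sub _ ((mem_orthogonalGroup_iff _ _).1 g.2), (mem_fixd _ _).1 hf2 g hg]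
    · rintro p ⟨hp1, hp2⟩
      obtain ⟨f, hf1, hf2⟩ := lap_surj hp1
      have hc : (Fintype.card Γ : ℝ) ≠ 0 := by exact_mod_cast Fintype.card_ne_zero
      refine ⟨(Fintype.card Γ : ℝ)⁻¹ • ∑ g : Γ, sub (g.1 : Matrix σ σ ℝ) f, ⟨?_, ?_⟩, ?_⟩
      · exact Submodule.smul_mem _ _ (Submodule.sum_mem _ fun g _ => sub_homog _ hf1)
      · refine Submodule.smul_mem _ _ ((mem_fixd _ _).2 fun g hg => ?_)
        rw [map_sum]
        simp only [sub_sub]
        exact Function.Bijective.sum_comp (Group.mulRight_bijective (⟨g, hg⟩ : Γ))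
          (fun x : Γ => sub (x.1 : Matrix σ σ ℝ) f)
      · rw [map_smul, map_sum]
        have : ∀ g : Γ, lap σ (sub (g.1 : Matrix σ σ ℝ) f) = p := fun g => by
          rw [lap_sub _ ((mem_orthogonalGroup_iff _ _).1 g.1.2), hf2, (mem_fixd _ _).1 hp2 g.1 g.2]
        simp only [this, Finset.sum_const, Finset.card_univ, ← Nat.cast_smul_eq_nsmul ℝ, smul_smul]
        rw [inv_mul_cancel₀ hc, one_smul]
  have hk : Module.finrank ℝ (LinearMap.ker ((lap σ).domRestrict A)) = dk Γ (k + 2) := by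
    rw [dk, ← Submodule.finrank_map_subtype_eq, LinearMap.ker_domRestrict,
      Submodule.map_comap_subtype]
    congr 2 <;> rw [hA, inf_right_comm]
  rw [hr, hk] at h
  change pk Γ k + dk Γ (k + 2) = pk Γ (k + 2) at h
  omega

lemma pk_eq_of_dk_eq [Nonempty σ] (Γ Λ : Subgroup (orthogonalGroup σ ℝ)) [Finite Γ] [Finite Λ]
    (h : ∀ k, dk Γ k = dk Λ k) (k : ℕ) : pk Γ k = pk Λ k := by
  induction k using Nat.strong_induction_on with
  | _ k ih =>
    rcases k with _ | _ | k
    · rw [pk_low _ (by omega), pk_low _ (by omega), h]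
    · rw [pk_low _ (by omega), pk_low _ (by omega), h]
    · rw [pk_add_two, pk_add_two, h, ih k (by omega)]

lemma dk_eq_of_pk_eq [Nonempty σ] (Γ Λ : Subgroup (orthogonalGroup σ ℝ)) [Finite Γ] [Finite Λ]
    (h : ∀ k, pk Γ k = pk Λ k) (k : ℕ) : dk Γ k = dk Λ k := by
  rcases k with _ | _ | k
  · rw [← pk_low _ (by omega), ← pk_low _ (by omega), h]
  · rw [← pk_low _ (by omega), ← pk_low _ (by omega), h]
  · have h1 := pk_add_two Γ k
    have h2 := pk_add_two Λ k
    have := h k
    have := h (k + 2)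
    change dk Γ (k + 2) = dk Λ (k + 2)
    omega

/-- The representation on homogeneous polynomials of degree `k`. -/
noncomputable def repK (Γ : Subgroup (orthogonalGroup σ ℝ)) (k : ℕ) :
    Representation ℝ Γ (homogeneousSubmodule σ ℝ k) where
  toFun g := subK ((g⁻¹ : Γ).1 : Matrix σ σ ℝ) k
  map_one' := by simpa using subK_one k
  map_mul' g h := by
    rw [subK_mul, _root_.mul_inv_rev]; rfl

lemma card_mul_pk (Γ : Subgroup (orthogonalGroup σ ℝ)) [Fintype Γ] (k : ℕ) :
    (Nat.card Γ : ℝ) * pk Γ k = ∑ g : Γ, tk (g.1 : Matrix σ σ ℝ) k := by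
  have hc : (Nat.card Γ : ℝ) ≠ 0 := by exact_mod_cast Nat.card_pos.ne'
  let _ := invertibleOfNonzero hc
  have h := Representation.card_inv_mul_sum_char_eq_finrank (repK Γ k)
  have h1 : Module.finrank ℝ (repK Γ k).invariants = pk Γ k := by
    rw [pk, ← Submodule.finrank_map_subtype_eq]
    have : (repK Γ k).invariants.map (homogeneousSubmodule σ ℝ k).subtype
        = homogeneousSubmodule σ ℝ k ⊓ fixd Γ := by
      apply le_antisymm
      · rintro _ ⟨p, hp, rfl⟩
        refine ⟨p.2, (mem_fixd _ _).2 fun g hg => ?_⟩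
        have := congrArg Subtype.val (hp (⟨g, hg⟩ : Γ)⁻¹)
        simpa [repK] using this
      · rintro p ⟨hp1, hp2⟩
        refine ⟨⟨p, hp1⟩, fun g => Subtype.ext ?_, rfl⟩
        exact (mem_fixd _ _).1 hp2 _ (g⁻¹).2
    rw [this]
  rw [← h1, ← h, ← mul_assoc, mul_inv_cancel₀ hc, one_mul]
  have : ∀ g : Γ, (repK Γ k).character g = tk ((g⁻¹ : Γ).1 : Matrix σ σ ℝ) k := fun g =>
    trace_subK _ _
  simp only [this]
  exact Equiv.sum_comp (Equiv.inv Γ) (fun g : Γ => tk (g.1 : Matrix σ σ ℝ) k)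

end Pool.Agent.P.MP_13d552_gt
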