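import Pool.Agent.P.MP_13d552_gt.Match
import Pool.Agent.P.MP_13d552_gt.Harmonic

set_option autoImplicit false

namespace Pool.Agent.P.MP_13d552_gt
open Finset Matrix

theorem cyclic_of_small {m : ℕ} (hm : 0 < m) (Γ₁ Γ₂ : Subgroup (orthogonalGroup (Fin m) ℝ))
    (hf₁ : (Γ₁ : Set (orthogonalGroup (Fin m) ℝ)).Finite)
    (hf₂ : (Γ₂ : Set (orthogonalGroup (Fin m) ℝ)).Finite)
    (hfree₁ : ∀ g ∈ Γ₁, ∀ v : Fin m → ℝ, (g : Matrix (Fin m) (Fin m) ℝ).mulVec v = v → g = 1 ∨ v = 0)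
    (hfree₂ : ∀ g ∈ Γ₂, ∀ v : Fin m → ℝ, (g : Matrix (Fin m) (Fin m) ℝ).mulVec v = v → g = 1 ∨ v = 0)
    (hiso : ∀ k, dk Γ₁ k = dk Γ₂ k)
    (hnc : ¬ ∃ h : orthogonalGroup (Fin m) ℝ, Γ₂ = Γ₁.map (MulAut.conj h).toMonoidHom)
    (hN : Nat.card Γ₁ ≤ 27) : IsCyclic Γ₁ ∧ IsCyclic Γ₂ := by
  have : Nonempty (Fin m) := ⟨⟨0, hm⟩⟩
  have : Finite Γ₁ := hf₁
  have : Finite Γ₂ := hf₂
  have := Fintype.ofFinite Γ₁
  have := Fintype.ofFinite Γ₂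
  let ρ : Γ₁ →* Matrix (Fin m) (Fin m) ℝ := (orthogonalGroup (Fin m) ℝ).subtype.comp Γ₁.subtype
  let τ : Γ₂ →* Matrix (Fin m) (Fin m) ℝ := (orthogonalGroup (Fin m) ℝ).subtype.comp Γ₂.subtype
  have hρ : IsFree ρ := fun g v hv => (hfree₁ g.1 g.2 v hv).imp_left Subtype.ext
  have hτ : IsFree τ := fun g v hv => (hfree₂ g.1 g.2 v hv).imp_left Subtype.ext
  obtain ⟨hcard, hc | ⟨h, hh, hy⟩⟩ := matching hρ hτ
    (fun x => (mem_orthogonalGroup_iff _ _).1 x.1.2) (fun x => (mem_orthogonalGroup_iff _ _).1 x.1.2)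
    (fun k => by
      have e1 := card_mul_pk Γ₁ k
      have e2 := card_mul_pk Γ₂ k
      rw [pk_eq_of_dk_eq Γ₁ Γ₂ hiso k] at e1
      change _ * ∑ g : Γ₁, tk (g.1 : Matrix (Fin m) (Fin m) ℝ) k
        = _ * ∑ g : Γ₂, tk (g.1 : Matrix (Fin m) (Fin m) ℝ) k
      rw [← e1, ← e2]; ring) hN
  · exact hc
  · refine absurd ⟨⟨h, (mem_orthogonalGroup_iff' _ _).2 hh⟩, ?_⟩ hnc
    set h' : orthogonalGroup (Fin m) ℝ := ⟨h, (mem_orthogonalGroup_iff' _ _).2 hh⟩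
    have hcm : Nat.card (Γ₁.map (MulAut.conj h').toMonoidHom) = Nat.card Γ₁ :=
      Subgroup.card_map_of_injective (MulAut.conj h').injective
    have : Finite (Γ₁.map (MulAut.conj h').toMonoidHom) :=
      Nat.finite_of_card_ne_zero (hcm ▸ Nat.card_pos.ne')
    refine Subgroup.eq_of_le_of_card_ge (fun y hy' => ?_) (by rw [hcm, hcard])
    obtain ⟨x, hx⟩ := hy ⟨y, hy'⟩
    refine ⟨x.1, x.2, ?_⟩
    simp only [MulEquiv.coe_toMonoidHom, MulAut.conj_apply]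
    rw [mul_inv_eq_iff_eq_mul]
    exact Subtype.ext hx.symm

end Pool.Agent.P.MP_13d552_gt
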