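import Pool.Agent.P.MP_13d552_gt.Dp
import Pool.Agent.P.MP_13d552_gt.Harmonic
import Pool.Agent.P.MP_13d552_gt.Groups2

set_option autoImplicit false

namespace Pool.Agent.P.MP_13d552_gt
open Finset Matrix Polynomial

/-- Multiplication by a complex number as a real two by two matrix. -/
def rot : ℂ →* Matrix (Fin 2) (Fin 2) ℝ where
  toFun w := !![w.re, -w.im; w.im, w.re]
  map_one' := by ext i j; fin_cases i <;> fin_cases j <;> simp
  map_mul' w z := by
    ext i j; fin_cases i <;> fin_cases j <;> simp [Matrix.mul_apply, Fin.sum_univ_two] <;> ring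

lemma rot_apply (w : ℂ) : rot w = !![w.re, -w.im; w.im, w.re] := rfl

/-- Block diagonal matrices, reindexed to `Fin (2 * n)`. -/
noncomputable def blk (n : ℕ) (R : Type) [CommRing R] :
    (Fin n → Matrix (Fin 2) (Fin 2) R) →+* Matrix (Fin (2 * n)) (Fin (2 * n)) R :=
  (Matrix.reindexRingEquiv R finProdFinEquiv).toRingHom.comp (blockDiagonalRingHom (Fin 2) (Fin n) R)

lemma blk_apply {n : ℕ} {R : Type} [CommRing R] (M : Fin n → Matrix (Fin 2) (Fin 2) R) :
    blk n R M = Matrix.reindex finProdFinEquiv finProdFinEquiv (blockDiagonal M) := rfl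

lemma det_blk {n : ℕ} {R : Type} [CommRing R] (M : Fin n → Matrix (Fin 2) (Fin 2) R) :
    (blk n R M).det = ∏ j, (M j).det := by
  rw [blk_apply, det_reindex_self, det_blockDiagonal]

lemma blk_transpose {n : ℕ} {R : Type} [CommRing R] (M : Fin n → Matrix (Fin 2) (Fin 2) R) :
    (blk n R M)ᵀ = blk n R (fun j => (M j)ᵀ) := by
  rw [blk_apply, blk_apply, transpose_reindex, blockDiagonal_transpose]

lemma blk_map {n : ℕ} {R S : Type} [CommRing R] [CommRing S] (f : R →+* S)
    (M : Fin n → Matrix (Fin 2) (Fin 2) R) :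
    (blk n R M).map f = blk n S (fun j => (M j).map f) := by
  rw [blk_apply, blk_apply, ← blockDiagonal_map _ _ (map_zero f)]; rfl

lemma blk_smul {n : ℕ} {R : Type} [CommRing R] (c : R) (M : Fin n → Matrix (Fin 2) (Fin 2) R) :
    c • blk n R M = blk n R (c • M) := by
  rw [blk_apply, blk_apply, blockDiagonal_smul]; rfl

/-- The block rotation matrix. -/
noncomputable def lensMat {n : ℕ} (w : Fin n → ℂ) : Matrix (Fin (2 * n)) (Fin (2 * n)) ℝ :=
  blk n ℝ (fun j => rot (w j))

lemma lensMat_pow {n : ℕ} (w : Fin n → ℂ) (l : ℕ) : lensMat w ^ l = lensMat (fun j => w j ^ l) := by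
  rw [lensMat, ← map_pow]
  congr 1
  funext j
  rw [Pi.pow_apply, map_pow]

lemma lensMat_orth {n : ℕ} (w : Fin n → ℂ) (hw : ∀ j, Complex.normSq (w j) = 1) :
    lensMat w ∈ orthogonalGroup (Fin (2 * n)) ℝ := by
  rw [mem_orthogonalGroup_iff, lensMat, blk_transpose, ← map_mul, ← map_one (blk n ℝ)]
  congr 1
  funext j
  have := hw j
  rw [Complex.normSq_apply] at this
  ext a b; fin_cases a <;> fin_cases b <;>
    simp [rot_apply, Matrix.mul_apply, Fin.sum_univ_two] <;> linarith

lemma lensMat_det_ne {n : ℕ} (w : Fin n → ℂ) (hw : ∀ j, w j ≠ 1) : (lensMat w - 1).det ≠ 0 := by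
  rw [lensMat, ← map_one (blk n ℝ), ← map_sub, det_blk]
  refine Finset.prod_ne_zero_iff.2 fun j _ h => hw j ?_
  rw [Pi.sub_apply, Pi.one_apply, det_fin_two] at h
  simp only [rot_apply, Matrix.sub_apply, of_apply, cons_val', cons_val_zero, cons_val_fin_one,
    one_apply_eq, cons_val_one, ne_eq, zero_ne_one, not_false_eq_true, one_apply_ne, sub_zero,
    one_ne_zero] at h
  apply Complex.ext
  · simp only [Complex.one_re]; nlinarith [mul_self_nonneg ((w j).re - 1), mul_self_nonneg (w j).im]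
  · simp only [Complex.one_im]; nlinarith [mul_self_nonneg ((w j).re - 1), mul_self_nonneg (w j).im]

lemma lensMat_charpolyRev {n : ℕ} (w : Fin n → ℂ) :
    ((lensMat w).map Complex.ofRealHom).charpolyRev
      = ∏ j, (lin (w j) * lin (starRingEnd ℂ (w j))) := by
  rw [charpolyRev, lensMat, blk_map, blk_map, blk_smul, ← map_one (blk n ℂ[X]), ← map_sub, det_blk]
  refine Finset.prod_congr rfl fun j _ => ?_
  have h1 : C (w j) = C ((w j).re : ℂ) + C ((w j).im : ℂ) * C Complex.I := by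
    rw [← C_mul, ← C_add, Complex.re_add_im]
  have h2 : C (starRingEnd ℂ (w j)) = C ((w j).re : ℂ) - C ((w j).im : ℂ) * C Complex.I := by
    rw [← C_mul, ← C_sub]; congr 1; apply Complex.ext <;> simp
  have h3 : (C Complex.I : ℂ[X]) * C Complex.I = -1 := by rw [← C_mul, Complex.I_mul_I]; simp
  rw [det_fin_two, lin, lin, h1, h2]
  simp [rot_apply]
  linear_combination (C ((w j).im : ℂ) ^ 2 * X ^ 2) * h3

/-- A list of residues together with their negatives. -/
def symL (q : ℕ) (S : List ℕ) : List ℕ := S ++ S.map (q - ·)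

lemma symL_append (q : ℕ) (S T : List ℕ) : (symL q (S ++ T)).Perm (symL q S ++ symL q T) := by
  simp only [symL, List.map_append, List.append_assoc]
  refine List.Perm.append_left _ ?_
  rw [← List.append_assoc, ← List.append_assoc]
  exact List.perm_append_comm.append_right _

lemma symL_perm (q : ℕ) {S T : List ℕ} (h : S.Perm T) : (symL q S).Perm (symL q T) :=
  h.append (h.map _)

section
variable {q : ℕ} {ζ : ℂ}

lemma normSq_root (hq : 0 < q) (hζ : IsPrimitiveRoot ζ q) (t : ℕ) : Complex.normSq (ζ ^ t) = 1 := by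
  rw [map_pow, Complex.normSq_eq_norm_sq, hζ.norm'_eq_one hq.ne', one_pow, one_pow]

/-- The generator of the lens space group. -/
noncomputable def lensGen (hq : 0 < q) (hζ : IsPrimitiveRoot ζ q) (n : ℕ) (S : List ℕ) :
    orthogonalGroup (Fin (2 * n)) ℝ :=
  ⟨lensMat (fun j : Fin n => ζ ^ S.getD j 0), lensMat_orth _ fun _ => normSq_root hq hζ _⟩

variable (hq : 0 < q) (hζ : IsPrimitiveRoot ζ q) {n : ℕ} {S : List ℕ}

lemma lensGen_pow (l : ℕ) : ((lensGen hq hζ n S ^ l : orthogonalGroup (Fin (2 * n)) ℝ) :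
    Matrix (Fin (2 * n)) (Fin (2 * n)) ℝ) = lensMat (fun j : Fin n => ζ ^ (l * S.getD j 0)) := by
  rw [SubmonoidClass.coe_pow, lensGen, lensMat_pow]
  simp only [← pow_mul, mul_comm]

lemma lensGen_pow_q : lensGen hq hζ n S ^ q = 1 := by
  apply Subtype.ext
  rw [lensGen_pow]
  simp only [pow_mul, hζ.1, one_pow, lensMat, map_one]
  exact map_one (blk n ℝ)

lemma getD_mem (hn : S.length = n) (j : Fin n) : S.getD j 0 ∈ S := by
  subst hn; simp

lemma lensGen_det (hn : S.length = n) (hS : ∀ s ∈ S, Nat.Coprime s q) {l : ℕ} (hl : 0 < l)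
    (hlq : l < q) : (((lensGen hq hζ n S ^ l : orthogonalGroup (Fin (2 * n)) ℝ) :
      Matrix (Fin (2 * n)) (Fin (2 * n)) ℝ) - 1).det ≠ 0 := by
  rw [lensGen_pow]
  refine lensMat_det_ne _ fun j h => ?_
  have h1 := (hS _ (getD_mem hn j)).symm.dvd_of_dvd_mul_right ((hζ.pow_eq_one_iff_dvd _).1 h)
  exact absurd (Nat.le_of_dvd hl h1) (by omega)

lemma lensGen_order (hn : S.length = n) (hn0 : 0 < n) (hS : ∀ s ∈ S, Nat.Coprime s q) :
    orderOf (lensGen hq hζ n S) = q := by
  rw [orderOf_eq_iff hq]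
  refine ⟨lensGen_pow_q hq hζ, fun l hlq hl h => lensGen_det hq hζ hn hS hl hlq ?_⟩
  have : Nonempty (Fin (2 * n)) := ⟨⟨0, by omega⟩⟩
  rw [h]; simp

lemma lensGen_charpolyRev (hn : S.length = n) (hS : ∀ s ∈ S, s ≤ q) (l : ℕ) :
    (((lensGen hq hζ n S ^ l : orthogonalGroup (Fin (2 * n)) ℝ) :
      Matrix (Fin (2 * n)) (Fin (2 * n)) ℝ).map Complex.ofRealHom).charpolyRev
      = bigP ζ l (symL q S) := by
  rw [lensGen_pow, lensMat_charpolyRev, symL, bigP_append, Finset.prod_mul_distrib]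
  have h1 : ∀ j : Fin n, starRingEnd ℂ (ζ ^ (l * S.getD j 0)) = ζ ^ (l * (q - S.getD j 0)) := by
    intro j
    have h0 : ζ ^ (l * S.getD j 0) ≠ 0 := pow_ne_zero _ (hζ.ne_zero hq.ne')
    apply mul_left_cancel₀ h0
    rw [Complex.mul_conj, normSq_root hq hζ, ← pow_add, ← mul_add,
      Nat.add_sub_cancel' (hS _ (getD_mem hn j)), mul_comm, pow_mul, hζ.1, one_pow]
    simp
  simp only [h1]
  subst hn
  have h2 : ∀ f : ℕ → ℂ[X], ∏ j : Fin S.length, f (S.getD j 0) = (S.map f).prod := by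
    intro f
    rw [← Fin.prod_univ_fun_getElem]
    simp
  rw [h2 (fun s => lin (ζ ^ (l * s))), h2 (fun s => lin (ζ ^ (l * (q - s)))), bigP, bigP,
    List.map_map]
  rfl

end

lemma sum_zpowers {G : Type} [Group G] (g : G) [Fintype (Subgroup.zpowers g)] {M : Type}
    [AddCommMonoid M] (hg : 0 < orderOf g) (f : G → M) :
    ∑ x : Subgroup.zpowers g, f x = ∑ l ∈ range (orderOf g), f (g ^ l) := by
  rw [← Fin.sum_univ_eq_sum_range (fun l => f (g ^ l)),
    ← (finEquivZPowers (orderOf_pos_iff.1 hg)).sum_comp]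
  rfl

lemma charpolyRev_conj {σ R : Type} [Fintype σ] [DecidableEq σ] [CommRing R] (S T M : Matrix σ σ R)
    (h : S * T = 1) : (S * M * T).charpolyRev = M.charpolyRev := by
  have hC : (S.map C) * (T.map C) = 1 := by rw [← Matrix.map_mul, h]; simp
  have h7 : (1 - (X : R[X]) • (S * M * T).map C)
      = S.map C * (1 - (X : R[X]) • M.map C) * T.map C := by
    rw [Matrix.mul_sub, Matrix.sub_mul, Matrix.mul_one, hC, Matrix.map_mul, Matrix.map_mul,
      Matrix.mul_smul, Matrix.smul_mul]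
  have hdetC : (S.map C).det * (T.map C).det = 1 := by rw [← det_mul, hC, det_one]
  rw [charpolyRev, charpolyRev, h7, det_mul, det_mul]
  linear_combination (1 - (X : R[X]) • M.map C).det * hdetC

end Pool.Agent.P.MP_13d552_gt
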