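import Mathlib

set_option autoImplicit false

namespace Pool.Agent.P.MP_13d552_gt
open Finset

/-- Normal forms `(m, r, s)` for `a ^ m = 1`, `b a = a ^ r b`, `b ^ 2 = a ^ s`. -/
def nfList : List (ℕ × ℕ × ℕ) :=
  [(4, 3, 2), (6, 5, 3), (8, 7, 4), (10, 9, 5), (12, 11, 6), (12, 5, 3), (12, 7, 6)]

/-- Linear relations among the traces of the powers of an element of order `m`. -/
def Good (m : ℕ) (n : ℝ) (c : ℕ → ℝ) : Prop :=
  c 0 = n ∧ (∀ i ≤ m, c ((m - i) % m) = c (i % m)) ∧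
    ∀ p, p ∣ m → 1 < p → ∀ i, ∑ t ∈ range p, c ((i + t * (m / p)) % m) = 0

/-- The degree two Molien sum in terms of the traces on the cyclic subgroup. -/
def energy (m r s : ℕ) (c : ℕ → ℝ) : ℝ :=
  ∑ i ∈ range m, (c i ^ 2 + c ((2 * i) % m)) + ∑ i ∈ range m, c ((i * (1 + r) + s) % m)

lemma good4 {n : ℝ} {c : ℕ → ℝ} (h : Good 4 n c) : c 0 = n ∧ c 1 = 0 ∧ c 2 = -n ∧ c 3 = 0 := by
  obtain ⟨h0, h1, h2⟩ := h
  have a1 := h1 1 (by norm_num)
  have b0 := h2 2 (by norm_num) (by norm_num) 0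
  have b1 := h2 2 (by norm_num) (by norm_num) 1
  norm_num [Finset.sum_range_succ] at a1 b0 b1
  refine ⟨?_, ?_, ?_, ?_⟩ <;> linarith

lemma good6 {n : ℝ} {c : ℕ → ℝ} (h : Good 6 n c) :
    c 0 = n ∧ c 1 = n / 2 ∧ c 2 = -n / 2 ∧ c 3 = -n ∧ c 4 = -n / 2 ∧ c 5 = n / 2 := by
  obtain ⟨h0, h1, h2⟩ := h
  have a1 := h1 1 (by norm_num)
  have a2 := h1 2 (by norm_num)
  have b0 := h2 2 (by norm_num) (by norm_num) 0
  have b1 := h2 2 (by norm_num) (by norm_num) 1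
  have d0 := h2 3 (by norm_num) (by norm_num) 0
  norm_num [Finset.sum_range_succ] at a1 a2 b0 b1 d0
  refine ⟨?_, ?_, ?_, ?_, ?_, ?_⟩ <;> linarith

lemma good8 {n : ℝ} {c : ℕ → ℝ} (h : Good 8 n c) :
    c 0 = n ∧ c 2 = 0 ∧ c 3 = -c 1 ∧ c 4 = -n ∧ c 5 = -c 1 ∧ c 6 = 0 ∧ c 7 = c 1 := by
  obtain ⟨h0, h1, h2⟩ := h
  have a1 := h1 1 (by norm_num)
  have a2 := h1 2 (by norm_num)
  have a3 := h1 3 (by norm_num)
  have b0 := h2 2 (by norm_num) (by norm_num) 0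
  have b1 := h2 2 (by norm_num) (by norm_num) 1
  have b2 := h2 2 (by norm_num) (by norm_num) 2
  norm_num [Finset.sum_range_succ] at a1 a2 a3 b0 b1 b2
  refine ⟨?_, ?_, ?_, ?_, ?_, ?_, ?_⟩ <;> linarith

lemma good10 {n : ℝ} {c : ℕ → ℝ} (h : Good 10 n c) :
    c 0 = n ∧ c 2 = c 1 - n / 2 ∧ c 3 = n / 2 - c 1 ∧ c 4 = -c 1 ∧ c 5 = -n ∧ c 6 = -c 1 ∧
      c 7 = n / 2 - c 1 ∧ c 8 = c 1 - n / 2 ∧ c 9 = c 1 := by
  obtain ⟨h0, h1, h2⟩ := h
  have a1 := h1 1 (by norm_num)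
  have a2 := h1 2 (by norm_num)
  have a3 := h1 3 (by norm_num)
  have a4 := h1 4 (by norm_num)
  have b0 := h2 2 (by norm_num) (by norm_num) 0
  have b1 := h2 2 (by norm_num) (by norm_num) 1
  have b2 := h2 2 (by norm_num) (by norm_num) 2
  have d0 := h2 5 (by norm_num) (by norm_num) 0
  norm_num [Finset.sum_range_succ] at a1 a2 a3 a4 b0 b1 b2 d0
  refine ⟨?_, ?_, ?_, ?_, ?_, ?_, ?_, ?_, ?_⟩ <;> linarith

lemma good12 {n : ℝ} {c : ℕ → ℝ} (h : Good 12 n c) :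
    c 0 = n ∧ c 2 = n / 2 ∧ c 3 = 0 ∧ c 4 = -n / 2 ∧ c 5 = -c 1 ∧ c 6 = -n ∧ c 7 = -c 1 ∧
      c 8 = -n / 2 ∧ c 9 = 0 ∧ c 10 = n / 2 ∧ c 11 = c 1 := by
  obtain ⟨h0, h1, h2⟩ := h
  have a1 := h1 1 (by norm_num)
  have a2 := h1 2 (by norm_num)
  have a3 := h1 3 (by norm_num)
  have a4 := h1 4 (by norm_num)
  have a5 := h1 5 (by norm_num)
  have b0 := h2 2 (by norm_num) (by norm_num) 0
  have b1 := h2 2 (by norm_num) (by norm_num) 1
  have b2 := h2 2 (by norm_num) (by norm_num) 2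
  have b3 := h2 2 (by norm_num) (by norm_num) 3
  have d0 := h2 3 (by norm_num) (by norm_num) 0
  norm_num [Finset.sum_range_succ] at a1 a2 a3 a4 a5 b0 b1 b2 b3 d0
  refine ⟨?_, ?_, ?_, ?_, ?_, ?_, ?_, ?_, ?_, ?_, ?_⟩ <;> linarith

lemma match12 {n : ℝ} {c d : ℕ → ℝ} (hc : Good 12 n c) (hd : Good 12 n d)
    (h : c 1 ^ 2 = d 1 ^ 2) : ∃ u, Nat.Coprime u 12 ∧ ∀ i < 12, c i = d ((u * i) % 12) := by
  obtain ⟨c0, c2, c3, c4, c5, c6, c7, c8, c9, c10, c11⟩ := good12 hc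
  obtain ⟨d0, d2, d3, d4, d5, d6, d7, d8, d9, d10, d11⟩ := good12 hd
  rcases sq_eq_sq_iff_eq_or_eq_neg.1 h with h | h
  · refine ⟨1, by norm_num, fun i hi => ?_⟩
    interval_cases i <;> norm_num <;> linarith
  · refine ⟨5, by norm_num, fun i hi => ?_⟩
    interval_cases i <;> norm_num <;> linarith

lemma match_traces {m r s : ℕ} (hm : (m, r, s) ∈ nfList) {n : ℝ} {c d : ℕ → ℝ} (hc : Good m n c)
    (hd : Good m n d) (h : energy m r s c = energy m r s d) :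
    ∃ u, Nat.Coprime u m ∧ ∀ i < m, c i = d ((u * i) % m) := by
  simp only [nfList, List.mem_cons, Prod.mk.injEq, List.not_mem_nil, or_false] at hm
  rcases hm with ⟨rfl, rfl, rfl⟩ | ⟨rfl, rfl, rfl⟩ | ⟨rfl, rfl, rfl⟩ | ⟨rfl, rfl, rfl⟩ |
    ⟨rfl, rfl, rfl⟩ | ⟨rfl, rfl, rfl⟩ | ⟨rfl, rfl, rfl⟩
  · obtain ⟨c0, c1, c2, c3⟩ := good4 hc
    obtain ⟨d0, d1, d2, d3⟩ := good4 hd
    refine ⟨1, by norm_num, fun i hi => ?_⟩
    interval_cases i <;> norm_num <;> linarith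
  · obtain ⟨c0, c1, c2, c3, c4, c5⟩ := good6 hc
    obtain ⟨d0, d1, d2, d3, d4, d5⟩ := good6 hd
    refine ⟨1, by norm_num, fun i hi => ?_⟩
    interval_cases i <;> norm_num <;> linarith
  · obtain ⟨c0, c2, c3, c4, c5, c6, c7⟩ := good8 hc
    obtain ⟨d0, d2, d3, d4, d5, d6, d7⟩ := good8 hd
    norm_num [energy, Finset.sum_range_succ, c0, c2, c3, c4, c5, c6, c7, d0, d2, d3, d4, d5, d6,
      d7] at h
    have h' : c 1 ^ 2 = d 1 ^ 2 := by linarith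
    rcases sq_eq_sq_iff_eq_or_eq_neg.1 h' with h | h
    · refine ⟨1, by norm_num, fun i hi => ?_⟩
      interval_cases i <;> norm_num <;> linarith
    · refine ⟨3, by norm_num, fun i hi => ?_⟩
      interval_cases i <;> norm_num <;> linarith
  · obtain ⟨c0, c2, c3, c4, c5, c6, c7, c8, c9⟩ := good10 hc
    obtain ⟨d0, d2, d3, d4, d5, d6, d7, d8, d9⟩ := good10 hd
    norm_num [energy, Finset.sum_range_succ, c0, c2, c3, c4, c5, c6, c7, c8, c9, d0, d2, d3, d4,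
      d5, d6, d7, d8, d9] at h
    have h' : (c 1 - d 1) * (c 1 + d 1 - n / 2) = 0 := by linarith
    rcases mul_eq_zero.1 h' with h | h
    · refine ⟨1, by norm_num, fun i hi => ?_⟩
      interval_cases i <;> norm_num <;> linarith
    · refine ⟨3, by norm_num, fun i hi => ?_⟩
      interval_cases i <;> norm_num <;> linarith
  all_goals
    refine match12 hc hd ?_
    obtain ⟨c0, c2, c3, c4, c5, c6, c7, c8, c9, c10, c11⟩ := good12 hc
    obtain ⟨d0, d2, d3, d4, d5, d6, d7, d8, d9, d10, d11⟩ := good12 hd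
    norm_num [energy, Finset.sum_range_succ, c0, c2, c3, c4, c5, c6, c7, c8, c9, c10, c11, d0, d2,
      d3, d4, d5, d6, d7, d8, d9, d10, d11] at h
    linarith

/-- Number of elements outside the cyclic subgroup whose fourth power is trivial. -/
def cnt4 (m r s : ℕ) : ℕ := ((range m).filter fun i => m ∣ (i * (1 + r) + s) * 2).card

lemma nf_unique : ∀ t ∈ nfList, ∀ t' ∈ nfList, t.1 = t'.1 →
    cnt4 t.1 t.2.1 t.2.2 = cnt4 t'.1 t'.2.1 t'.2.2 → t = t' := by decide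

lemma nf_exists' : ∀ m ∈ [4, 6, 8, 10, 12], ∀ r ∈ List.range m, ∀ s ∈ List.range m,
    (r == 1 || r * r % m != 1 % m || r * s % m != s % m ||
      (List.range m).any (fun j => (j * (1 + r) + s) % m == 0) ||
      (List.range m).any (fun j => decide ((m, r, (j * (1 + r) + s) % m) ∈ nfList))) = true := by
  decide +kernel

lemma nf_exists : ∀ m ∈ [4, 6, 8, 10, 12], ∀ r < m, ∀ s < m, r ≠ 1 → r * r % m = 1 % m →
    r * s % m = s % m → (∀ j < m, ¬ m ∣ j * (1 + r) + s) →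
    ∃ j < m, (m, r, (j * (1 + r) + s) % m) ∈ nfList := by
  intro m hm r hr s hs h1 h2 h3 h4
  have := nf_exists' m hm r (List.mem_range.2 hr) s (List.mem_range.2 hs)
  simp only [Bool.or_eq_true, beq_iff_eq, bne_iff_ne, List.any_eq_true, List.mem_range,
    decide_eq_true_eq] at this
  rcases this with (((h | h) | h) | ⟨j, hj, h⟩) | h
  · exact absurd h h1
  · exact absurd h2 h
  · exact absurd h3 h
  · exact absurd (Nat.dvd_of_mod_eq_zero h) (h4 j hj)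
  · exact h

end Pool.Agent.P.MP_13d552_gt
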