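import Pool.Agent.P.MP_13d552_gt.Groups2
import Pool.Agent.P.MP_13d552_gt.Traces

set_option autoImplicit false

namespace Pool.Agent.P.MP_13d552_gt
open Finset Matrix

variable {σ : Type} [Fintype σ] [DecidableEq σ] {G H : Type} [Group G] [Group H]
  {ρ : G →* Matrix σ σ ℝ} {τ : H →* Matrix σ σ ℝ}

lemma conj_gens [Finite G] [Finite H] (hρ : ∀ x, ρ x * (ρ x)ᵀ = 1) (hτ : ∀ x, τ x * (τ x)ᵀ = 1)
    {a b : G} {a' b' : H} {r s : ℕ} (h1 : b * a = a ^ r * b) (h2 : b ^ 2 = a ^ s)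
    (h1' : b' * a' = a' ^ r * b') (h2' : b' ^ 2 = a' ^ s)
    (t1 : ∀ i : ℕ, (ρ (a ^ i)).trace = (τ (a' ^ i)).trace)
    (t2 : ∀ i : ℕ, (ρ (a ^ i * b)).trace = (τ (a' ^ i * b')).trace) :
    ∃ h : Matrix σ σ ℝ, hᵀ * h = 1 ∧ τ a' * h = h * ρ a ∧ τ b' * h = h * ρ b := by
  let A : G × H := (a, a')
  let B : G × H := (b, b')
  have e1 : B * A = A ^ r * B := Prod.ext h1 h1'
  have e2 : B ^ 2 = A ^ s := Prod.ext h2 h2'
  let M : Submonoid (G × H) :=
    { carrier := {x | ∃ i : ℕ, x = A ^ i ∨ x = A ^ i * B}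
      one_mem' := ⟨0, Or.inl (pow_zero _).symm⟩
      mul_mem' := by
        rintro _ _ ⟨i, rfl | rfl⟩ ⟨j, rfl | rfl⟩
        · exact ⟨i + j, Or.inl (pow_add _ _ _).symm⟩
        · exact ⟨i + j, Or.inr (by rw [pow_add, mul_assoc])⟩
        · exact ⟨i + r * j, Or.inr (by rw [mul_assoc, mul_pow_comm e1, pow_add, mul_assoc])⟩
        · refine ⟨i + r * j + s, Or.inl ?_⟩
          rw [mul_assoc, ← mul_assoc B, mul_pow_comm e1, mul_assoc, ← sq, e2, pow_add, pow_add,
            mul_assoc] }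
  let D : Subgroup (G × H) :=
    { M with
      inv_mem' := fun {x} hx => by
        have : x⁻¹ = x ^ (orderOf x - 1) := by
          rw [inv_eq_iff_mul_eq_one, ← pow_succ', Nat.sub_add_cancel (orderOf_pos x),
            pow_orderOf_eq_one]
        rw [this]; exact M.pow_mem hx _ }
  obtain ⟨h, hh, hD⟩ := exists_conj (D := D) (ρ := ρ.comp ((MonoidHom.fst G H).comp D.subtype))
    (τ := τ.comp ((MonoidHom.snd G H).comp D.subtype)) (fun x => hρ _) (fun x => hτ _) (by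
      rintro ⟨_, i, rfl | rfl⟩
      · exact t1 i
      · exact t2 i)
  exact ⟨h, hh, hD ⟨A, 1, Or.inl (pow_one _).symm⟩, hD ⟨B, 0, Or.inr (by simp)⟩⟩

/-- Elements of the second group matched by a conjugating matrix. -/
def matched (ρ : G →* Matrix σ σ ℝ) (τ : H →* Matrix σ σ ℝ) (h : Matrix σ σ ℝ) : Subgroup H where
  carrier := {y | ∃ x : G, τ y * h = h * ρ x}
  one_mem' := ⟨1, by simp⟩
  mul_mem' := by
    rintro y y' ⟨x, hx⟩ ⟨x', hx'⟩
    exact ⟨x * x', by rw [map_mul, map_mul, Matrix.mul_assoc, hx', ← Matrix.mul_assoc, hx,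
      Matrix.mul_assoc]⟩
  inv_mem' := by
    rintro y ⟨x, hx⟩
    refine ⟨x⁻¹, ?_⟩
    calc τ y⁻¹ * h = τ y⁻¹ * (h * ρ x) * ρ x⁻¹ := by
          rw [Matrix.mul_assoc, Matrix.mul_assoc, ← map_mul, mul_inv_cancel, map_one,
            Matrix.mul_one]
      _ = h * ρ x⁻¹ := by
          rw [← hx, ← Matrix.mul_assoc, ← map_mul, inv_mul_cancel, map_one, Matrix.one_mul]

lemma index_two [Finite G] {a : G} (ha : 2 * orderOf a = Nat.card G) :
    (Subgroup.zpowers a).index = 2 := by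
  have := (Subgroup.zpowers a).index_mul_card
  rw [Nat.card_zpowers, ← ha] at this
  exact Nat.eq_of_mul_eq_mul_right (orderOf_pos a) this

lemma sum_index_two [Fintype G] {a b : G} (ha : 2 * orderOf a = Nat.card G)
    (hb : b ∉ Subgroup.zpowers a) (f : G → ℝ) :
    ∑ g, f g = ∑ i ∈ range (orderOf a), f (a ^ i) + ∑ i ∈ range (orderOf a), f (a ^ i * b) := by
  classical
  rw [← Finset.sum_filter_add_sum_filter_not univ (· ∈ Subgroup.zpowers a)]
  congr 1
  · symm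
    refine Finset.sum_nbij (a ^ ·) (fun i _ => by simp) (fun i hi j hj h => ?_) (fun g hg => ?_)
      (fun _ _ => rfl)
    · exact pow_injOn_Iio_orderOf (by simpa using hi) (by simpa using hj) h
    · obtain ⟨r, hr, rfl⟩ := exists_pow_lt (a := a) (x := g) (by simpa using hg)
      exact ⟨r, by simpa using hr, rfl⟩
  · symm
    refine Finset.sum_nbij (a ^ · * b) (fun i _ => ?_) (fun i hi j hj h => ?_) (fun g hg => ?_)
      (fun _ _ => rfl)
    · simp only [Finset.mem_filter, Finset.mem_univ, true_and]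
      rwa [Subgroup.mul_mem_cancel_left _ (Subgroup.npow_mem_zpowers a i)]
    · exact pow_injOn_Iio_orderOf (by simpa using hi) (by simpa using hj) (mul_right_cancel h)
    · have : g * b⁻¹ ∈ Subgroup.zpowers a := by
        rw [Subgroup.mul_mem_iff_of_index_two (index_two ha), Subgroup.inv_mem_iff]
        exact iff_of_false (by simpa using hg) hb
      obtain ⟨r, hr, hr'⟩ := exists_pow_lt this
      exact ⟨r, by simpa using hr, by simp [← hr']⟩

lemma top_of_index_two [Finite G] {a b : G} (ha : 2 * orderOf a = Nat.card G)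
    (hb : b ∉ Subgroup.zpowers a) (L : Subgroup G) (h1 : a ∈ L) (h2 : b ∈ L) : L = ⊤ := by
  rw [Subgroup.eq_top_iff']
  intro g
  by_cases hg : g ∈ Subgroup.zpowers a
  · exact Subgroup.zpowers_le.2 h1 hg
  · have : g * b⁻¹ ∈ Subgroup.zpowers a := by
      rw [Subgroup.mul_mem_iff_of_index_two (index_two ha), Subgroup.inv_mem_iff]
      exact iff_of_false hg hb
    simpa using L.mul_mem (Subgroup.zpowers_le.2 h1 this) h2

variable [Nonempty σ]

lemma IsFree.not_commute [Finite G] (h : IsFree ρ) (hc : ¬ IsCyclic G) {a b : G}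
    (ha : 2 * orderOf a = Nat.card G) (hb : b ∉ Subgroup.zpowers a) : ¬ Commute b a := by
  intro hab
  obtain ⟨c, ⟨k, hk⟩, h2⟩ := h.commute_big hab.symm hb
  have h3 : orderOf c ∣ 2 * orderOf a := ha ▸ orderOf_dvd_natCard c
  have h4 := Nat.le_of_dvd (by have := orderOf_pos a; omega) h3
  refine hc (isCyclic_of_orderOf_eq_card c ?_)
  rw [← ha]
  rw [hk] at h2 h4 ⊢
  have h5 : 1 < k := by
    by_contra h5
    have : orderOf a * k ≤ orderOf a * 1 := Nat.mul_le_mul_left _ (by omega)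
    omega
  have : orderOf a * 2 ≤ orderOf a * k := Nat.mul_le_mul_left _ h5
  omega

lemma IsFree.exists_nf [Finite G] (h : IsFree ρ) (hc : ¬ IsCyclic G) {a : G}
    (ha : 2 * orderOf a = Nat.card G) (hm : orderOf a ∈ [4, 6, 8, 10, 12]) :
    ∃ (b : G) (r s : ℕ), b ∉ Subgroup.zpowers a ∧ b * a = a ^ r * b ∧ b ^ 2 = a ^ s ∧
      (orderOf a, r, s) ∈ nfList := by
  have hi := index_two ha
  have hn := Subgroup.normal_of_index_eq_two hi
  obtain ⟨b, hb⟩ : ∃ b, b ∉ Subgroup.zpowers a := by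
    by_contra hne
    push Not at hne
    rw [(Subgroup.eq_top_iff' _).2 hne, Subgroup.index_top] at hi
    omega
  obtain ⟨r, hr, hr'⟩ := exists_pow_lt (hn.conj_mem _ (Subgroup.mem_zpowers a) b)
  obtain ⟨s, hs, hs'⟩ := exists_pow_lt (Subgroup.sq_mem_of_index_two hi b)
  rw [mul_inv_eq_iff_eq_mul] at hr'
  have e0 : r ≠ 1 := by
    rintro rfl
    exact h.not_commute hc ha hb (by rw [pow_one] at hr'; exact hr')
  have e1 : a ^ (r * r) = a ^ 1 := by
    have h1 : b ^ 2 * a = a ^ (r * r) * b ^ 2 := by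
      rw [sq, mul_assoc, hr', ← mul_assoc, mul_pow_comm hr', mul_assoc]
    rw [hs', ← pow_succ, pow_succ'] at h1
    rw [pow_one]; exact (mul_right_cancel h1).symm
  have e2 : a ^ (r * s) = a ^ s := by
    have h1 := mul_pow_comm hr' s
    rw [← hs', ← pow_succ', pow_succ, hs'] at h1
    exact (mul_right_cancel h1).symm
  rw [pow_eq_pow_iff_modEq] at e1 e2
  have hab : ∀ j : ℕ, a ^ j * b ∉ Subgroup.zpowers a := fun j => by
    rwa [Subgroup.mul_mem_cancel_left _ (Subgroup.npow_mem_zpowers a j)]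
  obtain ⟨j, -, hj⟩ := nf_exists _ hm r hr s hs e0 e1 e2 (fun j _ hj => by
    rw [orderOf_dvd_iff_pow_eq_one, ← pow_mul_sq hr' hs'] at hj
    apply hab j
    have h1 : a ^ j * b ≠ 1 := fun h1 => hab j (h1 ▸ Subgroup.one_mem _)
    have h2 : orderOf a / 2 * 2 = orderOf a ∧ 0 < orderOf a / 2 := by
      simp only [List.mem_cons, List.not_mem_nil, or_false] at hm
      omega
    have h3 : ρ (a ^ (orderOf a / 2)) = -1 := h.invol
      (pow_ne_one_of_lt_orderOf h2.2.ne' (by omega)) (by rw [← pow_mul, h2.1, pow_orderOf_eq_one])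
    rw [h.inj ((h.invol h1 hj).trans h3.symm)]
    exact Subgroup.npow_mem_zpowers _ _)
  refine ⟨a ^ j * b, r, _, hab j, ?_, ?_, hj⟩
  · rw [mul_assoc, hr', ← mul_assoc, ← mul_assoc, pow_mul_comm]
  · rw [pow_mul_sq hr' hs', pow_mod_orderOf]

lemma IsFree.tr_out [Finite G] (h : IsFree ρ) (hc : ¬ IsCyclic G) {a b : G}
    (ha : 2 * orderOf a = Nat.card G) (hb : b ∉ Subgroup.zpowers a) (i : ℕ) :
    (ρ (a ^ i * b)).trace = 0 := by
  refine h.tr_zero (a := a) ?_ (h.not_commute hc ha ?_)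
  · obtain ⟨k, hk⟩ := (Subgroup.normal_of_index_eq_two (index_two ha)).conj_mem' _
      (Subgroup.mem_zpowers a) (a ^ i * b)
    rw [← hk]; exact (Commute.refl a).zpow_left k
  · rwa [Subgroup.mul_mem_cancel_left _ (Subgroup.npow_mem_zpowers a i)]

omit [Nonempty σ] in
lemma IsFree.good [Finite G] (h : IsFree ρ) (hρ : ∀ x, ρ x * (ρ x)ᵀ = 1) (a : G) :
    Good (orderOf a) (Fintype.card σ) (fun i => (ρ (a ^ i)).trace) := by
  refine ⟨by simp, fun i hi => ?_, fun p hp hp1 i => ?_⟩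
  · simp only [pow_mod_orderOf]
    rw [← trace_inv hρ (a ^ i)]
    congr 2
    rw [eq_inv_iff_mul_eq_one, ← pow_add, Nat.sub_add_cancel hi, pow_orderOf_eq_one]
  · simp only [pow_mod_orderOf]
    have h1 : a ^ (orderOf a / p) ≠ 1 := pow_ne_one_of_lt_orderOf
      (Nat.div_pos (Nat.le_of_dvd (orderOf_pos a) hp) (by omega)).ne'
      (Nat.div_lt_self (orderOf_pos a) hp1)
    have h2 := h.sum_pow h1 (d := p) (by rw [← pow_mul, Nat.div_mul_cancel hp, pow_orderOf_eq_one])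
    have h3 : ∀ t, ρ (a ^ (i + t * (orderOf a / p))) = ρ (a ^ i) * ρ (a ^ (orderOf a / p)) ^ t := by
      intro t; rw [pow_add, mul_comm t, pow_mul, map_mul, map_pow ρ (a ^ _)]
    simp only [h3]
    rw [← trace_sum, ← Finset.mul_sum, h2, mul_zero, Matrix.trace_zero]

omit [Nonempty σ] in
lemma tk_group [Finite G] (g : G) :
    tk (ρ g) 0 = 1 ∧ 2 * tk (ρ g) 2 = (ρ g).trace ^ 2 + (ρ (g ^ 2)).trace := by
  rw [map_pow]
  exact tk_zero_two (ρ g) (orderOf_pos g).ne' (by rw [← map_pow, pow_orderOf_eq_one, map_one])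

lemma IsFree.energy_eq [Fintype G] (h : IsFree ρ) (hc : ¬ IsCyclic G) {a b : G} {r s : ℕ}
    (ha : 2 * orderOf a = Nat.card G) (hb : b ∉ Subgroup.zpowers a) (h1 : b * a = a ^ r * b)
    (h2 : b ^ 2 = a ^ s) :
    energy (orderOf a) r s (fun i => (ρ (a ^ i)).trace) = 2 * ∑ g, tk (ρ g) 2 := by
  rw [Finset.mul_sum, sum_index_two ha hb, energy]
  simp only [(tk_group _).2, h.tr_out hc ha hb, pow_mul_sq h1 h2, pow_mod_orderOf, ← pow_mul,
    mul_comm 2]
  simp

lemma count4 [Fintype G] {a b : G} {r s : ℕ}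
    (ha : 2 * orderOf a = Nat.card G) (hb : b ∉ Subgroup.zpowers a) (h1 : b * a = a ^ r * b)
    (h2 : b ^ 2 = a ^ s) :
    ∑ g : G, (if orderOf g ∣ 4 then (1 : ℝ) else 0) =
      ∑ i ∈ range (orderOf a), (if orderOf a ∣ i * 4 then (1 : ℝ) else 0)
        + cnt4 (orderOf a) r s := by
  rw [sum_index_two ha hb, cnt4, Finset.card_filter]
  have e1 : ∀ i : ℕ, orderOf (a ^ i) ∣ 4 ↔ orderOf a ∣ i * 4 := fun i => by
    rw [orderOf_dvd_iff_pow_eq_one, orderOf_dvd_iff_pow_eq_one, pow_mul]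
  have e2 : ∀ i : ℕ, orderOf (a ^ i * b) ∣ 4 ↔ orderOf a ∣ (i * (1 + r) + s) * 2 := fun i => by
    rw [orderOf_dvd_iff_pow_eq_one, orderOf_dvd_iff_pow_eq_one, pow_mul, ← pow_mul_sq h1 h2,
      ← pow_mul]
  simp only [e1, e2]
  simp

omit [Nonempty σ] in
lemma sum_order_eq [Fintype G] [Fintype H] (hcard : Nat.card G = Nat.card H)
    (hs : ∀ d, ∑ g with orderOf g = d, tk (ρ g) 0 = ∑ g with orderOf g = d, tk (τ g) 0)
    (F : ℕ → ℝ) : ∑ g : G, F (orderOf g) = ∑ g : H, F (orderOf g) := by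
  rw [← Finset.sum_fiberwise_of_maps_to (s := univ) (t := range (Nat.card G + 1))
      (g := (orderOf : G → ℕ)) (fun g _ => Finset.mem_range.2 (Nat.lt_succ_of_le orderOf_le_card)),
    ← Finset.sum_fiberwise_of_maps_to (s := univ) (t := range (Nat.card G + 1))
      (g := (orderOf : H → ℕ))
      (fun g _ => Finset.mem_range.2 (Nat.lt_succ_of_le (hcard ▸ orderOf_le_card)))]
  refine Finset.sum_congr rfl fun d _ => ?_
  have := hs d
  simp only [(tk_group _).1] at this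
  rw [Finset.sum_congr rfl (g := fun _ => F d * 1)
      (fun g hg => by rw [(Finset.mem_filter.1 hg).2, mul_one]),
    Finset.sum_congr (s₁ := univ.filter fun g : H => orderOf g = d) rfl (g := fun _ => F d * 1)
      (fun g hg => by rw [(Finset.mem_filter.1 hg).2, mul_one]),
    ← Finset.mul_sum, ← Finset.mul_sum, this]

lemma exists_order_iff [Fintype G] [Fintype H]
    (hF : ∀ F : ℕ → ℝ, ∑ g : G, F (orderOf g) = ∑ g : H, F (orderOf g)) (d : ℕ)
    (h : ∃ g : G, orderOf g = d) : ∃ g : H, orderOf g = d := by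
  by_contra hne
  push Not at hne
  obtain ⟨g, hg⟩ := h
  have := hF (fun e => if e = d then 1 else 0)
  simp only [hne, if_false, Finset.sum_const_zero] at this
  have h2 := (Finset.sum_eq_zero_iff_of_nonneg (fun x _ => by positivity)).1 this g
    (Finset.mem_univ g)
  simp [hg] at h2

omit [Nonempty σ] in
lemma trace_of_sq (hρ : ∀ x, ρ x * (ρ x)ᵀ = 1) {x : G} (hx : ρ x * ρ x = -1) :
    (ρ x).trace = 0 := by
  have h1 : ρ x⁻¹ = -ρ x := by
    calc ρ x⁻¹ = -(ρ x⁻¹ * (ρ x * ρ x)) := by rw [hx]; simp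
      _ = -ρ x := by rw [← Matrix.mul_assoc, ← map_mul, inv_mul_cancel, map_one, Matrix.one_mul]
  have h2 := trace_inv hρ x
  rw [h1, trace_neg] at h2
  linarith

omit [Nonempty σ] in
lemma trace_pow_quat (hρ : ∀ x, ρ x * (ρ x)ᵀ = 1) {i j : G} (h4 : i ^ 4 = 1)
    (hi : ρ i * ρ i = -1) (h1 : j * i = i ^ 3 * j) (h2 : j ^ 2 = i ^ 2) (t : ℕ) :
    (ρ (i ^ t)).trace = (if t % 2 = 0 then (-1) ^ (t / 2) * Fintype.card σ else 0 : ℝ) ∧
      (ρ (i ^ t * j)).trace = 0 := by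
  have e : ρ (i ^ t) = ((-1 : ℝ) ^ (t / 2)) • ρ i ^ (t % 2) := by
    conv_lhs => rw [← Nat.div_add_mod t 2, map_pow, pow_add, pow_mul, sq, hi]
    rcases Nat.even_or_odd (t / 2) with h | h <;> simp [h.neg_one_pow]
  constructor
  · rw [e]
    rcases Nat.mod_two_eq_zero_or_one t with h | h
    · simp [h]
    · simp [h, trace_of_sq hρ hi]
  · apply trace_of_sq hρ
    rw [← map_mul, ← sq, pow_mul_sq h1 h2, pow_add, mul_comm t, pow_mul, h4, one_pow, one_mul, sq,
      map_mul, hi]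

theorem matching [Fintype G] [Fintype H] (hρ : IsFree ρ) (hτ : IsFree τ)
    (oρ : ∀ x, ρ x * (ρ x)ᵀ = 1) (oτ : ∀ x, τ x * (τ x)ᵀ = 1)
    (hs : ∀ k, (Nat.card H : ℝ) * ∑ g, tk (ρ g) k = (Nat.card G : ℝ) * ∑ g, tk (τ g) k)
    (hN : Nat.card G ≤ 27) :
    Nat.card G = Nat.card H ∧ ((IsCyclic G ∧ IsCyclic H) ∨
      ∃ h : Matrix σ σ ℝ, hᵀ * h = 1 ∧ ∀ y : H, ∃ x : G, τ y * h = h * ρ x) := by
  obtain ⟨hcard, hsep⟩ := separate hρ hτ hs
  refine ⟨hcard, ?_⟩
  have hF := sum_order_eq hcard (fun d => hsep d 0)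
  have hGH := exists_order_iff hF
  have hHG := exists_order_iff (fun F => (hF F).symm)
  by_cases hcG : IsCyclic G
  · left
    refine ⟨hcG, isCyclic_iff_exists_orderOf_eq_natCard.2 (hGH _ ?_)⟩
    rw [← hcard]; exact isCyclic_iff_exists_orderOf_eq_natCard.1 hcG
  have hcH : ¬ IsCyclic H := fun hcH => hcG (isCyclic_iff_exists_orderOf_eq_natCard.2 (hHG _ (by
    rw [hcard]; exact isCyclic_iff_exists_orderOf_eq_natCard.1 hcH)))
  right
  suffices ∃ h : Matrix σ σ ℝ, hᵀ * h = 1 ∧ matched ρ τ h = ⊤ by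
    obtain ⟨h, h1, h2⟩ := this
    exact ⟨h, h1, (Subgroup.eq_top_iff' _).1 h2⟩
  rcases hρ.classify hN hcG with ⟨a, ha, hm⟩ | ⟨h24, h12, i, j, A, i4, i2, ji, j2, hA, -⟩
  · obtain ⟨b, r, s, hb, h1, h2, hnf⟩ := hρ.exists_nf hcG ha hm
    have key : ∀ a' : H, orderOf a' = orderOf a → ∃ b' : H, b' ∉ Subgroup.zpowers a' ∧
        b' * a' = a' ^ r * b' ∧ b' ^ 2 = a' ^ s := by
      intro a' ha'
      obtain ⟨b', r', s', hb', h1', h2', hnf'⟩ := hτ.exists_nf hcH (a := a')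
        (by rw [ha', ha, hcard]) (by rwa [ha'])
      have c1 := count4 ha hb h1 h2
      have c2 := count4 (a := a') (by rw [ha', ha, hcard]) hb' h1' h2'
      rw [hF (fun d => if d ∣ 4 then 1 else 0), c2, ha', add_right_inj, Nat.cast_inj] at c1
      rw [ha'] at hnf'
      have := nf_unique _ hnf' _ hnf rfl c1
      simp only [Prod.mk.injEq, true_and] at this
      obtain ⟨rfl, rfl⟩ := this
      exact ⟨b', hb', h1', h2'⟩
    obtain ⟨a0, ha0⟩ := hGH _ ⟨a, rfl⟩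
    obtain ⟨b0, hb0, h10, h20⟩ := key a0 ha0
    have E1 := hρ.energy_eq hcG ha hb h1 h2
    have E2 := hτ.energy_eq hcH (a := a0) (by rw [ha0, ha, hcard]) hb0 h10 h20
    have E3 : ∑ g, tk (ρ g) 2 = ∑ g, tk (τ g) 2 := by
      have := hs 2
      rw [hcard] at this
      exact mul_left_cancel₀ (by exact_mod_cast Nat.card_pos.ne') this
    have g2 := hτ.good oτ a0
    rw [ha0] at g2 E2
    obtain ⟨u, hu, hu'⟩ := match_traces hnf (hρ.good oρ a) g2 (by rw [E1, E2, E3])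
    have hau : orderOf (a0 ^ u) = orderOf a := by
      rw [Nat.Coprime.orderOf_pow (by rw [ha0]; exact hu.symm), ha0]
    obtain ⟨b', hb', h1', h2'⟩ := key _ hau
    have ha' : 2 * orderOf (a0 ^ u) = Nat.card H := by rw [hau, ha, hcard]
    obtain ⟨h, hh, e1, e2⟩ := conj_gens oρ oτ h1 h2 h1' h2' (fun t => by
      have := hu' (t % orderOf a) (Nat.mod_lt _ (orderOf_pos a))
      rw [pow_mod_orderOf, ← ha0, pow_mod_orderOf, pow_mul, ha0, ← hau, pow_mod_orderOf] at this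
      exact this) (fun t => by rw [hρ.tr_out hcG ha hb, hτ.tr_out hcH ha' hb'])
    exact ⟨h, hh, top_of_index_two ha' hb' _ ⟨a, e1⟩ ⟨b, e2⟩⟩
  · rcases hτ.classify (hcard ▸ hN) hcH with ⟨a', ha', -⟩ |
      ⟨-, -, i', j', A', i4', i2', ji', j2', hA', htop⟩
    · obtain ⟨a, ha⟩ := hHG _ ⟨a', rfl⟩
      exact absurd (by omega) (h12 a)
    · obtain ⟨h, hh, e1, e2⟩ := conj_gens oρ oτ ji j2 ji' j2'
        (fun t => by rw [(trace_pow_quat oρ i4 i2 ji j2 t).1,
          (trace_pow_quat oτ i4' i2' ji' j2' t).1])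
        (fun t => by rw [(trace_pow_quat oρ i4 i2 ji j2 t).2,
          (trace_pow_quat oτ i4' i2' ji' j2' t).2])
      refine ⟨h, hh, htop _ ⟨i, e1⟩ ⟨j, e2⟩ ⟨A, ?_⟩⟩
      have : (2 : ℝ) • (τ A' * h) = (2 : ℝ) • (h * ρ A) := by
        rw [← Matrix.smul_mul, ← Matrix.mul_smul, hA, hA', neg_mul, mul_neg, add_mul, add_mul,
          add_mul, mul_add, mul_add, mul_add, Matrix.mul_assoc, e1, e2, ← Matrix.mul_assoc, e1,
          Matrix.mul_assoc, one_mul, mul_one]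
      exact smul_right_injective _ two_ne_zero this

end Pool.Agent.P.MP_13d552_gt
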