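import Mathlib

set_option autoImplicit false

namespace Pool.Agent.P.MP_13d552_gt
open MvPolynomial Finset

variable {σ : Type} [Fintype σ] [DecidableEq σ]

/-- Linear substitution of variables by a matrix. -/
noncomputable def sub {K : Type} [CommRing K] (M : Matrix σ σ K) :
    MvPolynomial σ K →ₐ[K] MvPolynomial σ K :=
  aeval (fun i => ∑ j, M i j • (X j : MvPolynomial σ K))

section Ring
variable {K : Type} [CommRing K]

omit [DecidableEq σ] in
lemma sub_X (M : Matrix σ σ K) (i : σ) : sub M (X i) = ∑ j, M i j • (X j : MvPolynomial σ K) := by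
  simp [sub]

omit [DecidableEq σ] in
lemma sub_comp (M N : Matrix σ σ K) : (sub M).comp (sub N) = sub (N * M) := by
  apply MvPolynomial.algHom_ext
  intro i
  simp only [AlgHom.comp_apply, sub_X, map_sum, map_smul, Matrix.mul_apply, Finset.smul_sum,
    Finset.sum_smul, smul_smul]
  rw [Finset.sum_comm]

omit [DecidableEq σ] in
lemma sub_sub (M N : Matrix σ σ K) (p : MvPolynomial σ K) : sub M (sub N p) = sub (N * M) p := by
  rw [← sub_comp]; rfl

lemma sub_one (p : MvPolynomial σ K) : sub (1 : Matrix σ σ K) p = p := by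
  have : sub (1 : Matrix σ σ K) = AlgHom.id K _ := by
    apply MvPolynomial.algHom_ext
    intro i
    simp [sub_X, Matrix.one_apply]
  rw [this]; rfl

omit [DecidableEq σ] in
lemma sub_homog (M : Matrix σ σ K) {p : MvPolynomial σ K} {k : ℕ} (hp : p.IsHomogeneous k) :
    (sub M p).IsHomogeneous k := by
  have := hp.aeval (n := 1) (fun i => ∑ j, M i j • (X j : MvPolynomial σ K)) (fun i => by
    apply IsHomogeneous.sum
    intro j _
    rw [smul_eq_C_mul]
    exact isHomogeneous_C_mul_X _ _)
  simpa [sub] using this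

/-- The substitution restricted to homogeneous polynomials of degree `k`. -/
noncomputable def subK (M : Matrix σ σ K) (k : ℕ) : Module.End K (homogeneousSubmodule σ K k) :=
  (sub M).toLinearMap.restrict (fun _ hp => sub_homog M hp)

omit [DecidableEq σ] in
@[simp] lemma subK_coe (M : Matrix σ σ K) (k : ℕ) (p : homogeneousSubmodule σ K k) :
    (subK M k p : MvPolynomial σ K) = sub M p := rfl

omit [DecidableEq σ] in
lemma subK_mul (M N : Matrix σ σ K) (k : ℕ) : subK M k * subK N k = subK (N * M) k := by
  ext p : 2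
  simp [sub_sub]

lemma subK_one (k : ℕ) : subK (1 : Matrix σ σ K) k = 1 := by
  ext p : 2
  simp [sub_one]

/-- The trace of the substitution on degree `k`, in the monomial basis. -/
noncomputable def tk (M : Matrix σ σ K) (k : ℕ) : K :=
  ∑ s ∈ finsuppAntidiag (univ : Finset σ) k, coeff s (sub M (monomial s 1))

lemma tk_map {L : Type} [CommRing L] (f : K →+* L) (M : Matrix σ σ K) (k : ℕ) :
    tk (M.map f) k = f (tk M k) := by
  unfold tk
  rw [map_sum]
  refine Finset.sum_congr rfl fun s _ => ?_
  rw [← coeff_map]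
  congr 1
  have h : ∀ p : MvPolynomial σ K, sub (M.map f) (map f p) = map f (sub M p) := by
    intro p
    induction p using MvPolynomial.induction_on with
    | C a => simp [sub]
    | add p q hp hq => simp [hp, hq]
    | mul_X p i hp =>
      simp only [map_mul, hp, map_X, sub_X, map_sum, smul_eq_C_mul, map_C, Matrix.map_apply]
  rw [← h]; simp

lemma tk_diagonal (l : σ → K) (k : ℕ) :
    tk (Matrix.diagonal l) k = ∑ s ∈ finsuppAntidiag (univ : Finset σ) k, ∏ i, l i ^ s i := by
  unfold tk
  refine Finset.sum_congr rfl fun s _ => ?_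
  have h : sub (Matrix.diagonal l) (monomial s 1) = C (∏ i, l i ^ s i) * monomial s 1 := by
    have hX : ∀ i, sub (Matrix.diagonal l) (X i) = C (l i) * X i := by
      intro i
      rw [sub_X, Finset.sum_eq_single i]
      · simp [smul_eq_C_mul]
      · intro j _ hj; simp [Matrix.diagonal_apply_ne _ hj.symm]
      · simp
    rw [monomial_eq, Finsupp.prod_fintype _ _ (by simp)]
    simp only [map_one, one_mul, map_prod, map_pow, hX, mul_pow, Finset.prod_mul_distrib]
  rw [h, coeff_C_mul]; simp

lemma mk_tk_diagonal (l : σ → K) :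
    PowerSeries.mk (tk (Matrix.diagonal l)) = ∏ i, PowerSeries.mk (fun n => l i ^ n) := by
  ext k
  rw [PowerSeries.coeff_mk, tk_diagonal, PowerSeries.coeff_prod]
  simp

end Ring

section Field
variable {K : Type} [Field K]

instance finite_homog (k : ℕ) : Module.Finite K (homogeneousSubmodule σ K k) :=
  Module.Finite.iff_fg.mpr (homogeneousSubmodule_fg σ K k)

lemma mem_antidiag_iff (s : σ →₀ ℕ) (k : ℕ) :
    s ∈ finsuppAntidiag (univ : Finset σ) k ↔ s.degree = k := by
  rw [mem_finsuppAntidiag, Finsupp.degree_eq_sum]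
  simp

lemma trace_subK (M : Matrix σ σ K) (k : ℕ) :
    LinearMap.trace K _ (subK M k) = tk M k := by
  classical
  set S := finsuppAntidiag (univ : Finset σ) k with hS
  let mon : S → homogeneousSubmodule σ K k := fun s =>
    ⟨monomial s.1 1, isHomogeneous_monomial _ ((mem_antidiag_iff _ _).1 s.2)⟩
  let ι : (S → K) →ₗ[K] homogeneousSubmodule σ K k := Fintype.linearCombination K mon
  let π : homogeneousSubmodule σ K k →ₗ[K] (S → K) :=
    LinearMap.pi (fun s => (lcoeff K s.1).comp (Submodule.subtype _))
  have h1 : ι ∘ₗ π = LinearMap.id := by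
    ext p : 2
    simp only [LinearMap.comp_apply, LinearMap.id_apply, ι, π, mon,
      Fintype.linearCombination_apply, LinearMap.pi_apply, Submodule.coe_sum,
      Submodule.coe_smul, Submodule.subtype_apply, lcoeff_apply]
    ext d
    rw [coeff_sum]
    simp only [coeff_smul, coeff_monomial, smul_eq_mul, mul_ite, mul_one, mul_zero]
    by_cases hd : d ∈ S
    · rw [Finset.sum_eq_single ⟨d, hd⟩]
      · simp
      · intro b _ hb
        rw [if_neg]
        intro h; exact hb (Subtype.ext h)
      · simp
    · rw [Finset.sum_eq_zero]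
      · exact (p.2.coeff_eq_zero (fun h => hd ((mem_antidiag_iff _ _).2 h))).symm
      · intro b _
        rw [if_neg]
        intro h; exact hd (h ▸ b.2)
  have h2 : subK M k = (subK M k ∘ₗ ι) ∘ₗ π := by
    rw [LinearMap.comp_assoc, h1, LinearMap.comp_id]
  rw [h2, LinearMap.trace_comp_comm', LinearMap.trace_eq_matrix_trace K (Pi.basisFun K S),
    Matrix.trace, tk, ← Finset.sum_coe_sort S]
  refine Finset.sum_congr rfl fun s _ => ?_
  simp [ι, π, mon, Fintype.linearCombination_apply_single]

lemma tk_mul_comm (M N : Matrix σ σ K) (k : ℕ) : tk (M * N) k = tk (N * M) k := by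
  rw [← trace_subK, ← trace_subK, ← subK_mul, ← subK_mul, LinearMap.trace_mul_comm]

lemma tk_conj (S T M : Matrix σ σ K) (h : T * S = 1) (k : ℕ) : tk (S * M * T) k = tk M k := by
  rw [tk_mul_comm, ← Matrix.mul_assoc, h, Matrix.one_mul]

end Field

end Pool.Agent.P.MP_13d552_gt
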