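import Pool.Agent.P.MP_13d552_gt.Eigen

set_option autoImplicit false

namespace Pool.Agent.P.MP_13d552_gt
open Finset Matrix Polynomial

variable {σ : Type} [Fintype σ] [DecidableEq σ]

/-- A matrix representation acts freely on nonzero vectors. -/
def IsFree {G : Type} [Group G] (ρ : G →* Matrix σ σ ℝ) : Prop :=
  ∀ (g : G) (v : σ → ℝ), ρ g *ᵥ v = v → g = 1 ∨ v = 0

lemma IsFree.det_ne {G : Type} [Group G] {ρ : G →* Matrix σ σ ℝ} (h : IsFree ρ) {g : G}
    (hg : g ≠ 1) : (ρ g - 1).det ≠ 0 := by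
  intro h0
  obtain ⟨v, hv, hv0⟩ := Matrix.exists_mulVec_eq_zero_iff.2 h0
  rw [Matrix.sub_mulVec, Matrix.one_mulVec, sub_eq_zero] at hv0
  rcases h g v hv0 with h1 | h1
  · exact hg h1
  · exact hv h1

lemma exists_prim {G : Type} [Group G] [Finite G] {ρ : G →* Matrix σ σ ℝ} (h : IsFree ρ) (g : G) :
    ∃ l : σ → ℂ, mol (ρ g) = ∏ i, geo (l i) ∧ ∀ i, l i ∈ primitiveRoots (orderOf g) ℂ := by
  have hd : 0 < orderOf g := orderOf_pos g
  obtain ⟨l, h1, -, h3, h4, -⟩ := exists_eigen (ρ g) hd.ne' (by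
    rw [← map_pow, pow_orderOf_eq_one, map_one])
  refine ⟨l, h1, fun i => ?_⟩
  rw [mem_primitiveRoots hd]
  refine IsPrimitiveRoot.mk_of_lt _ hd (h4 i) fun j hj hjd hij => ?_
  have h5 := h3 j
  rw [Finset.prod_eq_zero (Finset.mem_univ i) (by rw [hij, sub_self]), ← map_pow] at h5
  exact h.det_ne (pow_ne_one_of_lt_orderOf hj.ne' hjd) (by exact_mod_cast h5)

lemma sep_abstract {ι : Type} [DecidableEq ι] (D : Finset ι) (A : ι → PowerSeries ℂ)
    (F N : ι → ℂ[X]) (hA : ∀ d ∈ D, A d * (F d : PowerSeries ℂ) = N d)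
    (hdeg : ∀ d ∈ D, (N d).natDegree < (F d).natDegree)
    (hcop : ∀ d ∈ D, ∀ e ∈ D, d ≠ e → IsCoprime (F d) (F e))
    (hsum : ∑ d ∈ D, A d = 0) : ∀ d ∈ D, A d = 0 := by
  have h1 : ∑ d ∈ D, N d * ∏ e ∈ D.erase d, F e = 0 := by
    apply Polynomial.coe_injective ℂ
    have : ((∑ d ∈ D, N d * ∏ e ∈ D.erase d, F e : ℂ[X]) : PowerSeries ℂ)
        = (∑ d ∈ D, A d) * ((∏ e ∈ D, F e : ℂ[X]) : PowerSeries ℂ) := by
      rw [← Polynomial.coeToPowerSeries.ringHom_apply, map_sum, Finset.sum_mul]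
      refine Finset.sum_congr rfl fun d hd => ?_
      rw [← Finset.mul_prod_erase D F hd, Polynomial.coeToPowerSeries.ringHom_apply,
        Polynomial.coe_mul, Polynomial.coe_mul, ← hA d hd, mul_assoc]
    rw [this, hsum, zero_mul, Polynomial.coe_zero]
  intro d hd
  have hF : F d ≠ 0 := by
    intro h; have := hdeg d hd; rw [h] at this; simp at this
  have h2 : F d ∣ N d * ∏ e ∈ D.erase d, F e := by
    rw [← Finset.add_sum_erase _ _ hd, add_eq_zero_iff_eq_neg] at h1
    rw [h1, dvd_neg]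
    refine Finset.dvd_sum fun e he => Dvd.dvd.mul_left ?_ _
    exact Finset.dvd_prod_of_mem _ (Finset.mem_erase.2 ⟨(Finset.ne_of_mem_erase he).symm, hd⟩)
  have h3 : IsCoprime (F d) (∏ e ∈ D.erase d, F e) :=
    IsCoprime.prod_right fun e he =>
      hcop d hd e (Finset.mem_of_mem_erase he) (Finset.ne_of_mem_erase he).symm
  have h4 : N d = 0 :=
    Polynomial.eq_zero_of_dvd_of_natDegree_lt (h3.dvd_of_dvd_mul_right h2) (hdeg d hd)
  have h5 := hA d hd
  rw [h4, Polynomial.coe_zero, mul_eq_zero] at h5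
  rcases h5 with h5 | h5
  · exact h5
  · exact absurd (Polynomial.coe_eq_zero_iff.1 h5) hF

/-- The linear factor `1 - a X`. -/
noncomputable def lin (a : ℂ) : ℂ[X] := 1 - C a * X

lemma geo_mul_lin (a : ℂ) : geo a * (lin a : PowerSeries ℂ) = 1 := by
  simpa [lin] using geo_mul a

lemma lin_ne_zero (a : ℂ) : lin a ≠ 0 := by
  intro h
  have := congrArg (Polynomial.eval 0) h
  simp [lin] at this

lemma natDegree_lin {a : ℂ} (ha : a ≠ 0) : (lin a).natDegree = 1 := by
  have : lin a = C (-a) * X + C 1 := by simp [lin]; ring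
  rw [this, Polynomial.natDegree_linear (neg_ne_zero.2 ha)]

lemma isCoprime_lin {a b : ℂ} (h : a ≠ b) : IsCoprime (lin a) (lin b) := by
  have hab : b - a ≠ 0 := sub_ne_zero.2 h.symm
  refine ⟨C (b / (b - a)), C (-a / (b - a)), ?_⟩
  have h1 : b / (b - a) + -a / (b - a) = 1 := by field_simp; ring
  have h2 : b / (b - a) * a + -a / (b - a) * b = 0 := by field_simp; ring
  have h3 : C (b / (b - a)) * lin a + C (-a / (b - a)) * lin b
      = C (b / (b - a) + -a / (b - a)) - C (b / (b - a) * a + -a / (b - a) * b) * X := by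
    simp only [lin, map_add, map_mul]; ring
  rw [h3, h1, h2]; simp

/-- The reversed cyclotomic polynomial to the power of the dimension. -/
noncomputable def bigF (σ : Type) [Fintype σ] (d : ℕ) : ℂ[X] :=
  ∏ _i : σ, ∏ z ∈ primitiveRoots d ℂ, lin z

lemma natDegree_prod_lin {d : ℕ} (hd : 0 < d) (s : Finset ℂ) (hs : s ⊆ primitiveRoots d ℂ) :
    (∏ z ∈ s, lin z).natDegree = s.card := by
  rw [Polynomial.natDegree_prod _ _ (fun z _ => lin_ne_zero z), Finset.card_eq_sum_ones]
  refine Finset.sum_congr rfl fun z hz => natDegree_lin ?_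
  exact ((mem_primitiveRoots hd).1 (hs hz)).ne_zero hd.ne'

omit [DecidableEq σ] in
lemma natDegree_bigF {d : ℕ} (hd : 0 < d) :
    (bigF σ d).natDegree = Fintype.card σ * Nat.totient d := by
  rw [bigF, Polynomial.natDegree_prod _ _
    (fun _ _ => Finset.prod_ne_zero_iff.2 fun z _ => lin_ne_zero z),
    natDegree_prod_lin hd _ subset_rfl, Complex.card_primitiveRoots]
  simp

omit [DecidableEq σ] in
lemma isCoprime_bigF {d e : ℕ} (hd : 0 < d) (he : 0 < e) (h : d ≠ e) :
    IsCoprime (bigF σ d) (bigF σ e) := by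
  refine IsCoprime.prod_left fun _ _ => IsCoprime.prod_right fun _ _ =>
    IsCoprime.prod_left fun z hz => IsCoprime.prod_right fun w hw => isCoprime_lin ?_
  rintro rfl
  exact h (((mem_primitiveRoots hd).1 hz).unique ((mem_primitiveRoots he).1 hw))

lemma mol_mul_bigF {G : Type} [Group G] [Finite G] {ρ : G →* Matrix σ σ ℝ} (h : IsFree ρ) (g : G) :
    ∃ N : ℂ[X], mol (ρ g) * (bigF σ (orderOf g) : PowerSeries ℂ) = N ∧
      N.natDegree ≤ Fintype.card σ * (Nat.totient (orderOf g) - 1) := by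
  classical
  obtain ⟨l, h1, h2⟩ := exists_prim h g
  have hd : 0 < orderOf g := orderOf_pos g
  refine ⟨∏ i, ∏ z ∈ (primitiveRoots (orderOf g) ℂ).erase (l i), lin z, ?_, ?_⟩
  · have hc : ∀ f : σ → ℂ[X], ((∏ i, f i : ℂ[X]) : PowerSeries ℂ) = ∏ i, (f i : PowerSeries ℂ) :=
      fun f => map_prod Polynomial.coeToPowerSeries.ringHom f univ
    rw [h1, bigF, hc, hc, ← Finset.prod_mul_distrib]
    refine Finset.prod_congr rfl fun i _ => ?_
    rw [← Finset.mul_prod_erase _ lin (h2 i), Polynomial.coe_mul, ← mul_assoc,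
      geo_mul_lin, one_mul]
  · refine (Polynomial.natDegree_prod_le _ _).trans (le_of_eq ?_)
    have : ∀ i, (∏ z ∈ (primitiveRoots (orderOf g) ℂ).erase (l i), lin z).natDegree
        = Nat.totient (orderOf g) - 1 := fun i => by
      rw [natDegree_prod_lin hd _ (Finset.erase_subset _ _), Finset.card_erase_of_mem (h2 i),
        Complex.card_primitiveRoots]
    simp [this]

lemma sum_mol_mul_bigF {G : Type} [Group G] [Fintype G] {ρ : G →* Matrix σ σ ℝ} (h : IsFree ρ)
    (d : ℕ) : ∃ N : ℂ[X], (∑ g with orderOf g = d, mol (ρ g)) * (bigF σ d : PowerSeries ℂ) = N ∧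
      N.natDegree ≤ Fintype.card σ * (Nat.totient d - 1) := by
  choose N hN1 hN2 using mol_mul_bigF h
  refine ⟨∑ g with orderOf g = d, N g, ?_, ?_⟩
  · rw [Finset.sum_mul, ← Polynomial.coeToPowerSeries.ringHom_apply (φ := ∑ g with _, _), map_sum]
    refine Finset.sum_congr rfl fun g hg => ?_
    rw [← (Finset.mem_filter.1 hg).2, hN1]; rfl
  · refine Polynomial.natDegree_sum_le_of_forall_le _ _ fun g hg => ?_
    rw [← (Finset.mem_filter.1 hg).2]; exact hN2 g

theorem separate [Nonempty σ] {G H : Type} [Group G] [Fintype G] [Group H] [Fintype H]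
    {ρ : G →* Matrix σ σ ℝ} {τ : H →* Matrix σ σ ℝ} (hρ : IsFree ρ) (hτ : IsFree τ)
    (hs : ∀ k, (Nat.card H : ℝ) * ∑ g, tk (ρ g) k = (Nat.card G : ℝ) * ∑ g, tk (τ g) k) :
    Nat.card G = Nat.card H ∧
      ∀ d k, ∑ g with orderOf g = d, tk (ρ g) k = ∑ g with orderOf g = d, tk (τ g) k := by
  classical
  set D : Finset ℕ := (univ.image (orderOf : G → ℕ)) ∪ (univ.image (orderOf : H → ℕ)) with hD
  have hDpos : ∀ d ∈ D, 0 < d := by
    intro d hd
    simp only [hD, Finset.mem_union, Finset.mem_image] at hd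
    rcases hd with ⟨g, -, rfl⟩ | ⟨g, -, rfl⟩ <;> exact orderOf_pos g
  choose N1 hN1 hN1' using sum_mol_mul_bigF hρ
  choose N2 hN2 hN2' using sum_mol_mul_bigF hτ
  have key := sep_abstract D
    (fun d => (Nat.card H : ℂ) • (∑ g with orderOf g = d, mol (ρ g))
      - (Nat.card G : ℂ) • (∑ g with orderOf g = d, mol (τ g))) (bigF σ)
    (fun d => (Nat.card H : ℂ) • N1 d - (Nat.card G : ℂ) • N2 d)
    (fun d _ => by
      rw [sub_mul, smul_mul_assoc, smul_mul_assoc, hN1, hN2]
      ext n; simp)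
    (fun d hd => by
      have h1 := Nat.totient_pos.2 (hDpos d hd)
      have h2 : 0 < Fintype.card σ := Fintype.card_pos
      rw [natDegree_bigF (hDpos d hd)]
      refine lt_of_le_of_lt (b := Fintype.card σ * (Nat.totient d - 1)) ?_ ?_
      · refine (Polynomial.natDegree_sub_le _ _).trans (max_le ?_ ?_)
        · exact (Polynomial.natDegree_smul_le _ _).trans (hN1' d)
        · exact (Polynomial.natDegree_smul_le _ _).trans (hN2' d)
      · exact Nat.mul_lt_mul_of_pos_left (by omega) h2)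
    (fun d hd e he hde => isCoprime_bigF (hDpos d hd) (hDpos e he) hde)
    (by
      rw [Finset.sum_sub_distrib, ← Finset.smul_sum, ← Finset.smul_sum,
        Finset.sum_fiberwise_of_maps_to (fun g _ => by simp [hD]),
        Finset.sum_fiberwise_of_maps_to (fun g _ => by simp [hD])]
      ext k
      have := hs k
      simp only [map_sub, map_smul, map_sum, mol, PowerSeries.coeff_mk, smul_eq_mul, map_zero]
      rw [sub_eq_zero]
      exact_mod_cast this)
  have key2 : ∀ d k, (Nat.card H : ℝ) * ∑ g with orderOf g = d, tk (ρ g) k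
      = (Nat.card G : ℝ) * ∑ g with orderOf g = d, tk (τ g) k := by
    intro d k
    by_cases hd : d ∈ D
    · have := congrArg (PowerSeries.coeff k) (key d hd)
      simp only [map_sub, map_smul, map_sum, mol, PowerSeries.coeff_mk, smul_eq_mul,
        map_zero] at this
      rw [sub_eq_zero] at this
      exact_mod_cast this
    · rw [Finset.sum_eq_zero, Finset.sum_eq_zero, mul_zero, mul_zero]
      · intro g hg
        exact absurd (by rw [← (Finset.mem_filter.1 hg).2]; simp [hD]) hd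
      · intro g hg
        exact absurd (by rw [← (Finset.mem_filter.1 hg).2]; simp [hD]) hd
  have hcard : Nat.card G = Nat.card H := by
    have := key2 1 0
    have e1 : (univ.filter fun g : G => orderOf g = 1) = {1} := by ext; simp
    have e2 : (univ.filter fun g : H => orderOf g = 1) = {1} := by ext; simp
    rw [e1, e2, Finset.sum_singleton, Finset.sum_singleton, map_one, map_one,
      (tk_zero_two (1 : Matrix σ σ ℝ) one_ne_zero (one_pow _)).1, mul_one, mul_one] at this
    exact_mod_cast this.symm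
  refine ⟨hcard, fun d k => ?_⟩
  have := key2 d k
  rw [hcard] at this
  exact mul_left_cancel₀ (by exact_mod_cast Nat.card_pos.ne') this

end Pool.Agent.P.MP_13d552_gt
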